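import Pool.Agent.MP_c54dba_ag.Mg.Prime

-- part MP_c54dba_ag.Germ
section

/-! From a quasi-etale smooth cover to a chart; moving valuations and derivations along the cover. -/

set_option autoImplicit false

namespace Pool.Agent.MP_c54dba_ag

open Polynomial IsLocalRing

lemma ext_der {S T : Type} [CommRing S] [CommRing T] [Algebra ℂ S] [Algebra ℂ T] [Algebra S T]
    [IsScalarTower ℂ S T] [Algebra.FormallyEtale S T] (D : Derivation ℂ S S) :
    ∃ D' : Derivation ℂ T T, ∀ s, D' (algebraMap S T s) = algebraMap S T (D s) :=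
  ⟨((KaehlerDifferential.isBaseChange_of_formallyEtale ℂ S T).lift
    ((Algebra.linearMap S T).compDer D).liftKaehlerDifferential).compDer (KaehlerDifferential.D ℂ T),
    fun s => by
      change IsBaseChange.lift _ _ (KaehlerDifferential.D ℂ T _) = _
      rw [← KaehlerDifferential.map_D ℂ ℂ S T, IsBaseChange.lift_eq,
        Derivation.liftKaehlerDifferential_comp_D]
      rfl⟩

section Chart

variable {L : Type} [Field L] [Algebra ℂ L] (R : Subalgebra ℂ L) [IsLocalRing R]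

lemma exists_res_der (hres : ∀ r ∈ R, ∃ c, r - algebraMap ℂ L c ∈ Mx R) :
    ∃ (ρ : R → ℂ) (d : Derivation ℂ R (R ⧸ maximalIdeal R ^ 2)),
      (∀ r, r - algebraMap ℂ R (ρ r) ∈ maximalIdeal R) ∧ (∀ r ∈ maximalIdeal R, ρ r = 0) ∧
      ∀ r, d r = Ideal.Quotient.mk _ (r - algebraMap ℂ R (ρ r)) := by
  choose ρ hρ using fun r : R => hres r r.2
  replace hρ : ∀ r, r - algebraMap ℂ R (ρ r) ∈ maximalIdeal R := fun r => coe_mem_Mx.mp (hρ r)
  have hu : ∀ r c, r - algebraMap ℂ R c ∈ maximalIdeal R → ρ r = c := by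
    intro r c h
    have h1 := sub_mem h (hρ r)
    rw [sub_sub_sub_cancel_left, ← map_sub] at h1
    exact sub_eq_zero.mp (by_contra fun h2 => const_not_Mx h2 (coe_mem_Mx.mpr h1))
  have hm : ∀ r s, ρ (r * s) = ρ r * ρ s := fun r s => hu _ _ (by
    have : r * s - algebraMap ℂ R (ρ r * ρ s) =
        s * (r - algebraMap ℂ R (ρ r)) + algebraMap ℂ R (ρ r) * (s - algebraMap ℂ R (ρ s)) := by
      rw [map_mul]; ring
    exact this ▸ add_mem (Ideal.mul_mem_left _ _ (hρ r)) (Ideal.mul_mem_left _ _ (hρ s)))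
  let φ : R →ₗ[ℂ] R ⧸ maximalIdeal R ^ 2 :=
    { toFun := fun r => Ideal.Quotient.mk _ (r - algebraMap ℂ R (ρ r))
      map_add' := fun r s => by
        rw [hu (r + s) (ρ r + ρ s) (by rw [map_add, add_sub_add_comm]; exact add_mem (hρ r) (hρ s)),
          ← map_add, map_add (algebraMap ℂ R), add_sub_add_comm]
      map_smul' := fun c r => by
        rw [Algebra.smul_def, hm, hu (algebraMap ℂ R c) c (by simp), map_mul, ← mul_sub, map_mul,
          RingHom.id_apply, Algebra.smul_def]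
        rfl }
  refine ⟨ρ, Derivation.mk' φ fun r s => ?_, hρ, fun r hr => hu r 0 (by simpa using hr), fun _ => rfl⟩
  change Ideal.Quotient.mk _ _ = Ideal.Quotient.mk _ (r * _) + Ideal.Quotient.mk _ (s * _)
  rw [← map_add, Ideal.Quotient.eq, hm, map_mul, pow_two]
  have : r * s - algebraMap ℂ R (ρ r) * algebraMap ℂ R (ρ s) -
      (r * (s - algebraMap ℂ R (ρ s)) + s * (r - algebraMap ℂ R (ρ r))) =
      -((r - algebraMap ℂ R (ρ r)) * (s - algebraMap ℂ R (ρ s))) := by ring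
  exact this ▸ neg_mem (Ideal.mul_mem_mul (hρ r) (hρ s))

lemma exists_chart [IsNoetherianRing R] [Algebra.FormallySmooth ℂ R] [Algebra.EssFiniteType ℂ R]
    [IsFractionRing R L] (hres : ∀ r ∈ R, ∃ c, r - algebraMap ℂ L c ∈ Mx R)
    {D1 D2 : Derivation ℂ L L} {f g : L} (hJ : J D1 D2 f g ≠ 0)
    (hrk : ∀ (κ : Type) [Fintype κ] (δ : κ → Derivation ℂ L L), LinearIndependent L δ →
      Fintype.card κ ≤ 2) : ∃ x y X Y, Chart R x y X Y := by
  classical
  have := Module.finitePresentation_of_finite R Ω[R⁄ℂ]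
  obtain ⟨κ, a, b, hb⟩ := Module.exists_basis_of_span_of_flat _
    (KaehlerDifferential.span_range_derivation ℂ R)
  have := Module.Finite.finite_basis b
  have := Fintype.ofFinite κ
  have := Algebra.FormallyEtale.of_isLocalization (Rₘ := L) (nonZeroDivisors R)
  choose d hd using fun i => ext_der (T := L) ((b.coord i).compDer (KaehlerDifferential.D ℂ R))
  have hdec : ∀ (N : Type) [AddCommGroup N] [Module ℂ N] [Module R N] [IsScalarTower ℂ R N]
      (D : Derivation ℂ R N) (r : R), D r = ∑ i, b.coord i (KaehlerDifferential.D ℂ R r) • D (a i) := by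
    intro N _ _ _ _ D r
    conv_lhs => rw [← D.liftKaehlerDifferential_comp_D, ← b.sum_repr (KaehlerDifferential.D ℂ R r), map_sum]
    simp [hb]
  have hda : ∀ i j, d i (a j) = if j = i then 1 else 0 := fun i j => by
    refine (hd i (a j)).trans ?_
    change algebraMap R L (b.repr (KaehlerDifferential.D ℂ R (a j)) i) = _
    rw [← hb, b.repr_self, Finsupp.single_apply]
    split_ifs <;> simp
  have hext : ∀ D : Derivation ℂ L L, (∀ i, D (a i) = 0) → D = 0 := by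
    intro D hD
    have h1 : ∀ r : R, D (algebraMap R L r) = 0 := fun r => by
      refine (hdec L (D.compAlgebraMap R) r).trans (Finset.sum_eq_zero fun i _ => ?_)
      rw [Derivation.compAlgebraMap_apply, show D (algebraMap R L (a i)) = 0 from hD i, smul_zero]
    ext z
    obtain ⟨p, q, -, rfl⟩ := IsFractionRing.div_surjective R z
    rw [D.leibniz_div, h1, h1]
    simp
  let ap : L → Derivation ℂ L L →+ L := fun z =>
    { toFun := fun D => D z, map_zero' := rfl, map_add' := fun _ _ => rfl }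
  have hcard : Fintype.card κ = 2 := by
    refine le_antisymm (hrk κ d (Fintype.linearIndependent_iff.mpr fun c hc j => ?_)) ?_
    · have := congrArg (ap (a j)) hc
      rw [map_sum] at this
      simpa [ap, hda] using this
    · let φ : Derivation ℂ L L →ₗ[L] κ → L :=
        { toFun := fun D i => D (a i), map_add' := fun _ _ => rfl, map_smul' := fun _ _ => rfl }
      have h1 : LinearIndependent L ![D1, D2] := LinearIndependent.pair_iff.mpr fun s t h => by
        have e1 : s * D1 f + t * D2 f = 0 := DFunLike.congr_fun h f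
        have e2 : s * D1 g + t * D2 g = 0 := DFunLike.congr_fun h g
        exact ⟨(mul_eq_zero.mp (by rw [J]; linear_combination D2 g * e1 - D2 f * e2)).resolve_right hJ,
          (mul_eq_zero.mp (by rw [J]; linear_combination D1 f * e2 - D1 g * e1)).resolve_right hJ⟩
      simpa using (h1.map' φ (LinearMap.ker_eq_bot'.mpr fun D hD =>
        hext D (congrFun hD))).fintype_card_le_finrank
  let e := (Fintype.equivFinOfCardEq hcard).symm
  have he : e 0 ≠ e 1 := e.injective.ne zero_ne_one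
  obtain ⟨ρ, d0, h1, h2, h3⟩ := exists_res_der R hres
  have hmax : maximalIdeal R ≤ Ideal.span {a (e 0) - algebraMap ℂ R (ρ (a (e 0))),
      a (e 1) - algebraMap ℂ R (ρ (a (e 1)))} := by
    refine Submodule.le_of_le_smul_of_le_jacobson_bot (IsNoetherian.noetherian _)
      (maximalIdeal_le_jacobson ⊥) fun r hr => ?_
    have h4 := hdec _ d0 r
    rw [← e.sum_comp, Fin.sum_univ_two, h3, h3, h3, h2 r hr, map_zero, sub_zero] at h4
    change _ = Ideal.Quotient.mk _ (_ * _) + Ideal.Quotient.mk _ (_ * _) at h4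
    rw [← map_add, Ideal.Quotient.eq, pow_two] at h4
    rw [← add_sub_cancel (_ + _) r]
    exact Submodule.add_mem_sup (Ideal.mem_span_pair.mpr ⟨_, _, rfl⟩) h4
  have hc : ∀ (D : Derivation ℂ L L) i,
      D ((a i - algebraMap ℂ R (ρ (a i)) : R) : L) = D (a i) := fun D i => by
    rw [Subalgebra.coe_sub, map_sub, Subalgebra.coe_algebraMap, D.map_algebraMap, sub_zero]
  refine ⟨_, _, d (e 0), d (e 1), coe_mem_Mx.mpr (h1 (a (e 0))), coe_mem_Mx.mpr (h1 (a (e 1))),
    fun r hr => ?_, fun r hr => ?_, fun r hr => ?_,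
    by rw [hc, hda, if_pos rfl], by rw [hc, hda, if_neg he.symm], by rw [hc, hda, if_neg he],
    by rw [hc, hda, if_pos rfl], fun D a1 a2 => hext D fun i => ?_⟩
  · obtain ⟨u, v, huv⟩ := Ideal.mem_span_pair.mp (hmax (h1 ⟨r, hr⟩))
    exact ⟨ρ ⟨r, hr⟩, u, u.2, v, v.2, sub_eq_iff_eq_add'.mp (congrArg Subtype.val huv).symm⟩
  · exact (show d (e 0) r = _ from hd _ ⟨r, hr⟩) ▸ Subtype.mem _
  · exact (show d (e 1) r = _ from hd _ ⟨r, hr⟩) ▸ Subtype.mem _
  · obtain ⟨j, rfl⟩ := e.surjective i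
    rw [hc] at a1 a2
    fin_cases j
    exacts [a1, a2]

end Chart

section Cen

variable {B L : Type} [CommRing B] [Field L] {w : Val L}

/-- elements of order at least `k` -/
def cenI (w : Val L) (φ : B →+* L) (h : ∀ b, Ge w 0 (φ b)) (k : ℤ) : Ideal B where
  carrier := {b | Ge w k (φ b)}
  add_mem' ha hb := by rw [Set.mem_ofPred_eq, map_add]; exact Ge.add ha hb
  zero_mem' := by rw [Set.mem_ofPred_eq, map_zero]; exact Ge.zero _
  smul_mem' c _ hb := by rw [Set.mem_ofPred_eq, smul_eq_mul, map_mul]; exact (h c).mul0 hb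

lemma cenI_prime (φ : B →+* L) (h : ∀ b, Ge w 0 (φ b)) : (cenI w φ h 1).IsPrime :=
  ⟨fun ht => Un.not_ge ⟨one_ne_zero, ord_one⟩ (map_one φ ▸ show Ge w 1 (φ 1) from (Ideal.eq_top_iff_one _).mp ht),
    fun {a b} hab => by_contra fun hc => by
      rw [not_or] at hc
      exact (((h a).un hc.1).mul ((h b).un hc.2)).not_ge (map_mul φ a b ▸ hab)⟩

lemma cenI_max [Algebra ℂ B] [Algebra ℂ L] (φ : B →ₐ[ℂ] L) (h : ∀ b, Ge w 0 (φ.toRingHom b))
    (ht : Triv w) (hn : ∀ b, ¬ RT w (φ b)) : (cenI w φ.toRingHom h 1).IsMaximal := by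
  refine Ideal.isMaximal_iff.mpr ⟨(Ideal.ne_top_iff_one _).mp (cenI_prime _ h).ne_top,
    fun J b hJ hb hbJ => ?_⟩
  obtain ⟨c, hc⟩ := exists_res ht (h b) (hn b)
  have h1 : b - algebraMap ℂ B c ∈ cenI w φ.toRingHom h 1 := by
    change Ge w 1 (φ _)
    rwa [map_sub, φ.commutes]
  have h2 := J.mul_mem_left (algebraMap ℂ B c⁻¹) (sub_mem hbJ (hJ h1))
  rwa [sub_sub_cancel, ← map_mul, inv_mul_cancel₀ fun h0 => hb (by simpa [h0] using h1), map_one] at h2

end Cen

variable {K L : Type} [Field K] [Algebra ℂ K] [Field L] [Algebra ℂ L] [Algebra K L] [IsScalarTower ℂ K L]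

lemma div_iff {A : Subalgebra ℂ K} {S : Set K} {v : Val K} :
    Div A S v ↔ (∃ π, π ≠ 0 ∧ ord v π = 1) ∧ (∀ a ∈ A, Ge v 0 a) ∧ ∃ s ∈ S, RT v s := by
  simp only [Div, RT, un_iff, ge0_iff, ← val_eq_iff, WithTop.coe_one]

lemma Div.frame {A : Subalgebra ℂ K} {S : Set K} {v : Val K} (h : Div A S v) :
    ∃ e s, Frame v e s ∧ ord v e = 1 := by
  obtain ⟨⟨π, a1, a2⟩, -, s, -, a3⟩ := div_iff.mp h
  exact ⟨π, s, ⟨a1, by omega, a3⟩, a2⟩

lemma rt_descend [Algebra.IsAlgebraic K L] {w : Val L} {s : L} (hs : RT w s) :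
    ∃ t : K, RT w (algebraMap K L t) := by
  by_contra hc
  push Not at hc
  obtain ⟨p, hp, hps⟩ := Algebra.IsAlgebraic.isAlgebraic (R := K) s
  obtain ⟨i, hi, hmin⟩ := p.support.exists_min_image (fun i => ord w (algebraMap K L (p.coeff i)))
    (support_nonempty.mpr hp)
  have hi0 := mem_support_iff.mp hi
  have hi1 := (_root_.map_ne_zero (algebraMap K L)).mpr hi0
  have h1 : ∀ j, ∃ c : ℂ, Ge w 1 (algebraMap K L (p.coeff j / p.coeff i) - algebraMap ℂ L c) := fun j =>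
    exists_res hs.triv (fun h => by
      rw [map_div₀] at h ⊢
      rw [ord_div (div_ne_zero_iff.mp h).1 hi1, sub_nonneg]
      exact hmin j (mem_support_iff.mpr fun h0 => h (by simp [h0]))) (hc _)
  choose c hc using h1
  refine (hs (∑ j ∈ p.support, monomial j (c j)) fun h0 => ?_).not_ge ?_
  · have h2 := congrArg (fun q => q.coeff i) h0
    simp only [finsetSum_coeff, coeff_monomial, Finset.sum_ite_eq', if_pos hi, coeff_zero] at h2
    have h3 := hc i
    rw [h2, div_self hi0, map_one, map_zero, sub_zero] at h3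
    exact Un.not_ge ⟨one_ne_zero, ord_one⟩ h3
  · rw [aeval_def, eval₂_eq_sum, Polynomial.sum_def] at hps
    have h2 : aeval s (∑ j ∈ p.support, monomial j (c j)) =
        -∑ j ∈ p.support, (algebraMap K L (p.coeff j / p.coeff i) - algebraMap ℂ L (c j)) * s ^ j := by
      simp only [map_sum, aeval_monomial, sub_mul, Finset.sum_sub_distrib, map_div₀, div_mul_eq_mul_div,
        ← Finset.sum_div, hps]
      ring
    rw [h2]
    exact (Ge.sum fun j _ => (hc j).mul (hs.un.ge.pow j)).neg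

lemma exists_down [Algebra.IsAlgebraic K L] {w : Val L} {s : L} (hs : RT w s) {a : K} (ha : a ≠ 0)
    (h1 : Ge w 1 (algebraMap K L a)) :
    ∃ E l, Ov E w l ∧ (∃ π : K, π ≠ 0 ∧ ord E π = 1) ∧ ∃ t, RT E t := by
  have hne : ∀ {f : K}, f ≠ 0 → algebraMap K L f ≠ 0 := fun h => (_root_.map_ne_zero _).mpr h
  obtain ⟨l, ⟨l0, π, rfl⟩, hmin⟩ := Int.exists_least_of_bdd
    (P := fun k => 0 < k ∧ ∃ f : K, ord w (algebraMap K L f) = k) ⟨0, fun _ h => h.1.le⟩
    ⟨_, h1 (hne ha), a, rfl⟩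
  have π0 : π ≠ 0 := fun h => by simp [h, ord_zero] at l0
  set l := ord w (algebraMap K L π) with hl
  have hdvd : ∀ f : K, f ≠ 0 → ord w (algebraMap K L f) = l * (ord w (algebraMap K L f) / l) := by
    intro f hf
    have h2 := Int.emod_add_mul_ediv (ord w (algebraMap K L f)) l
    have h3 := Int.emod_nonneg (ord w (algebraMap K L f)) l0.ne'
    have h4 := Int.emod_lt_of_pos (ord w (algebraMap K L f)) l0
    by_contra h5
    have := hmin (ord w (algebraMap K L f) % l) ⟨by omega, f / π ^ (ord w (algebraMap K L f) / l), by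
      rw [map_div₀, map_zpow₀, ord_div (hne hf) (zpow_ne_zero _ (hne π0)), ord_zpow]; linarith⟩
    omega
  obtain ⟨E, hE⟩ := exists_val (fun f : K => ord w (algebraMap K L f) / l)
    (fun f g hf hg => mul_left_cancel₀ l0.ne' (by
      rw [mul_add, ← hdvd f hf, ← hdvd g hg, ← hdvd _ (mul_ne_zero hf hg), map_mul,
        ord_mul (hne hf) (hne hg)]))
    (fun f g hf hg hfg => by
      have := (((Ge.self (w := w) (algebraMap K L f)).mono (min_le_left _ _)).add
        ((Ge.self (algebraMap K L g)).mono (min_le_right _ _))) (map_add (algebraMap K L) f g ▸ hne hfg)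
      rw [← map_add] at this
      rcases min_le_iff.mp this with h | h
      · exact (min_le_left _ _).trans (Int.ediv_le_ediv l0 h)
      · exact (min_le_right _ _).trans (Int.ediv_le_ediv l0 h))
  have hO : Ov E w l := ⟨l0, fun f => by
    by_cases hf : f = 0
    · simp [hf, ord_zero]
    · rw [hE f hf, ← hdvd f hf]⟩
  obtain ⟨t, ht⟩ := rt_descend (K := K) hs
  exact ⟨E, l, hO, ⟨π, π0, by rw [hE π π0, Int.ediv_self l0.ne']⟩, t, hO.rt.mpr ht⟩

/-- the valuation ring -/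
def OV (E : Val K) (h : Triv E) : Subalgebra ℂ K where
  carrier := {f | Ge E 0 f}
  mul_mem' := Ge.mul0
  add_mem' := Ge.add
  algebraMap_mem' := h.ge

lemma OV_pir (E : Val K) (h : Triv E) : IsPrincipalIdealRing (OV E h) := ⟨fun I => by
  by_cases hI : I = ⊥
  · exact hI ▸ bot_isPrincipal
  obtain ⟨f, hf, f0⟩ := Submodule.exists_mem_ne_zero_of_ne_bot hI
  obtain ⟨_, ⟨g, hg, g0, rfl⟩, hmin⟩ := Int.exists_least_of_bdd
    (P := fun k => ∃ g ∈ I, (g : K) ≠ 0 ∧ ord E g = k) ⟨0, fun _ ⟨g, _, a, b⟩ => b ▸ g.2 a⟩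
    ⟨_, f, hf, fun h => f0 (Subtype.ext h), rfl⟩
  refine ⟨g, le_antisymm (fun t ht => Ideal.mem_span_singleton'.mpr ⟨⟨t / g, fun h0 => ?_⟩,
    Subtype.ext (div_mul_cancel₀ _ g0)⟩) ((Ideal.span_singleton_le_iff_mem _).mpr hg)⟩
  rw [ord_div (div_ne_zero_iff.mp h0).1 g0, sub_nonneg]
  exact hmin _ ⟨t, ht, (div_ne_zero_iff.mp h0).1, rfl⟩⟩

lemma exists_up [Module.Finite K L] {E : Val K} (h : Triv E) {π : K} (π0 : π ≠ 0) (h1 : ord E π = 1)
    {z : L} (hz : IsIntegral (OV E h) z) (hz' : z ≠ 0 → ¬ IsIntegral (OV E h) z⁻¹) :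
    ∃ w l, Ov E w l ∧ Ge w 1 z := by
  have hne : ∀ {f : K}, f ≠ 0 → algebraMap K L f ≠ 0 := fun h => (_root_.map_ne_zero _).mpr h
  have hπ : Ge E 0 π := fun _ => by omega
  have : IsFractionRing (OV E h) K := .of_field _ _ fun f => by
    by_cases hf : Ge E 0 f
    · exact ⟨⟨f, hf⟩, 1, by simp⟩
    · exact ⟨1, ⟨f⁻¹, fun _ => by rw [ord_inv]; have := (not_ge.mp hf).2; omega⟩, by simp⟩
  have := OV_pir E h
  have : CharZero K := charZero_of_injective_algebraMap (algebraMap ℂ K).injective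
  have := integralClosure.isDedekindDomain (OV E h) K L
  have := integralClosure.isFractionRing_of_finite_extension (A := OV E h) K L
  obtain ⟨P, hP, hzP⟩ := exists_max_ideal_of_mem_nonunits (a := (⟨z, hz⟩ : integralClosure (OV E h) L))
    fun hu => by
      obtain ⟨u, hu⟩ := hu.exists_right_inv
      have e : z * u = 1 := congrArg Subtype.val hu
      exact hz' (left_ne_zero_of_mul_eq_one e) (eq_inv_of_mul_eq_one_right e ▸ u.2)
  have hπP : algebraMap (OV E h) _ ⟨π, hπ⟩ ∈ P := by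
    by_contra hc
    obtain ⟨u, p, hp, e⟩ := (Ideal.isMaximal_comap_of_isIntegral_of_isMaximal (R := OV E h) P).exists_inv hc
    have e1 : (p : K) = 1 + -(u * π) := by rw [← show (u : K) * π + p = 1 from congrArg Subtype.val e]; ring
    have h2 : Un E p := e1 ▸ Un.add ⟨one_ne_zero, ord_one⟩ (Ge.mul0 u.2 fun _ => h1.ge).neg
    refine hP.ne_top ((Ideal.eq_top_iff_one _).mpr ?_)
    have h3 := P.mul_mem_left (algebraMap (OV E h) _ ⟨_, h2.inv.ge⟩) hp
    rwa [← map_mul, show (⟨_, h2.inv.ge⟩ : OV E h) * p = 1 from Subtype.ext (inv_mul_cancel₀ h2.1),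
      map_one] at h3
  let v := IsDedekindDomain.HeightOneSpectrum.valuation L ⟨P, hP.isPrime, fun h0 =>
    hne π0 (congrArg Subtype.val (show algebraMap (OV E h) (integralClosure (OV E h) L) ⟨π, hπ⟩ = 0 from
      Ideal.mem_bot.mp (h0 ▸ hπP)))⟩
  have hv : ∀ {f : L}, f ≠ 0 → v f ≠ 0 := fun h => (Valuation.ne_zero_iff v).mpr h
  obtain ⟨w, hw⟩ := exists_val (fun y => -WithZero.log (v y))
    (fun f g hf hg => by rw [map_mul, WithZero.log_mul (hv hf) (hv hg), neg_add])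
    (fun f g hf hg hfg => by
      rcases le_max_iff.mp (v.map_add f g) with h | h
      · exact (min_le_left _ _).trans (neg_le_neg ((WithZero.log_le_log (hv hfg) (hv hf)).mpr h))
      · exact (min_le_right _ _).trans (neg_le_neg ((WithZero.log_le_log (hv hfg) (hv hg)).mpr h)))
  have g0 : ∀ c : integralClosure (OV E h) L, Ge w 0 c := fun c h0 => by
    rw [hw _ h0, neg_nonneg, WithZero.log_le_iff_le_exp (hv h0)]
    exact IsDedekindDomain.HeightOneSpectrum.valuation_le_one _ c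
  have g1 : ∀ c ∈ P, Ge w 1 c := fun c hc h0 => by
    rw [hw _ h0, ← zero_add (1 : ℤ), Int.add_one_le_iff, neg_pos, WithZero.log_lt_iff_lt_exp (hv h0)]
    exact (IsDedekindDomain.HeightOneSpectrum.valuation_lt_one_iff_mem _ c).mpr hc
  have g2 : ∀ f, Ge E 0 f → Ge w 0 (algebraMap K L f) := fun f hf => g0 (algebraMap (OV E h) _ ⟨f, hf⟩)
  refine ⟨w, ord w (algebraMap K L π), ⟨g1 _ hπP (hne π0), fun f => ?_⟩, g1 _ hzP⟩
  by_cases hf : f = 0
  · simp [hf, ord_zero]
  have hu : Un E (f / π ^ ord E f) := ⟨div_ne_zero hf (zpow_ne_zero _ π0), by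
    rw [ord_div hf (zpow_ne_zero _ π0), ord_zpow, h1]; ring⟩
  have a1 := g2 _ hu.ge (hne hu.1)
  have a2 := g2 _ hu.inv.ge (hne hu.inv.1)
  rw [map_inv₀, ord_inv] at a2
  rw [map_div₀, map_zpow₀, ord_div (hne hf) (zpow_ne_zero _ (hne π0)), ord_zpow] at a1 a2
  linarith

/-- what is used about the smooth cover of a quotient singularity -/
structure Germ (A : Subalgebra ℂ K) (m : Ideal A) (R : Subalgebra ℂ L) [IsLocalRing R] : Prop where
  tr : Algebra.trdeg ℂ L = 2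
  frac : ∀ z : L, ∃ f ∈ R, ∃ g ∈ R, g ≠ 0 ∧ z = f / g
  sub : ∀ a ∈ A, algebraMap K L a ∈ R
  der : ∀ D : Derivation ℂ K K, ∃ D' : Derivation ℂ L L, Ext D D'
  up : ∀ E, Div A Set.univ E → (∀ a : A, Ge E 1 a ↔ a ∈ m) → ∃ w l, Ov E w l ∧ Cen w R
  down : ∀ w, Cen w R → ∀ s, RT w s → ∃ E l, Ov E w l ∧ Div A Set.univ E
  div : ∀ γ Q, PD R γ Q → ∃ P, Ov P Q 1 ∧ Div A A P
  res : ∀ r ∈ R, ∃ c, r - algebraMap ℂ L c ∈ Mx R

lemma germ_of {A : Subalgebra ℂ K} [IsFractionRing A K] [IsIntegrallyClosed A] [Algebra.FiniteType ℂ A]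
    (ht : Algebra.trdeg ℂ K = 2) {m : Ideal A} [m.IsMaximal] {a0 : A} (h0 : a0 ∈ m) (h0' : a0 ≠ 0)
    {S : Type} [CommRing S] [IsDomain S] [Algebra ℂ S] [Algebra A S] [IsScalarTower ℂ A S]
    [Module.Finite A S] {n : Ideal S} [n.IsPrime] [n.LiesOver m]
    (hun : ∀ (q : Ideal S) (_ : q.IsPrime), q < n → Algebra.IsUnramifiedAt A q)
    [Algebra S L] [IsFractionRing S L] [IsScalarTower A S L] [IsScalarTower ℂ S L]
    (R : Subalgebra ℂ L) [IsLocalRing R]
    (hR : ∀ z, z ∈ R ↔ ∃ a b : S, b ∉ n ∧ z = algebraMap S L a * (algebraMap S L b)⁻¹)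
    (hM : ∀ a : S, algebraMap S L a ∈ Mx R ↔ a ∈ n) : Germ A m R := by
  have hAS : ∀ a : A, algebraMap S L (algebraMap A S a) = algebraMap K L a := fun a =>
    (IsScalarTower.algebraMap_apply A S L a).symm
  have hinj := IsFractionRing.injective S L
  have hn1 : (1 : S) ∉ n := (Ideal.ne_top_iff_one n).mp Ideal.IsPrime.ne_top'
  have hS : ∀ a : S, algebraMap S L a ∈ R := fun a => (hR _).mpr ⟨a, 1, hn1, by simp⟩
  have hb0 : ∀ b, b ∉ n → algebraMap S L b ≠ 0 := fun b hb h => hb ((hM b).mp (h ▸ zero_mem _))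
  have hbi : ∀ b, b ∉ n → (algebraMap S L b)⁻¹ ∈ R := fun b hb => (hR _).mpr ⟨1, b, hb, by simp⟩
  have hnm : ∀ a : A, algebraMap A S a ∈ n ↔ a ∈ m := fun a => (Ideal.mem_of_liesOver n m a).symm
  have hmax : ∀ q : Ideal S, q.IsPrime → q.LiesOver m → q.IsMaximal := fun q _ _ =>
    Ideal.isMaximal_of_isIntegral_of_isMaximal_comap (R := A) q
      (show (q.under A).IsMaximal from q.over_def m ▸ ‹m.IsMaximal›)
  have hnmax := hmax n inferInstance inferInstance
  have : FaithfulSMul A L := (faithfulSMul_iff_algebraMap_injective _ _).mpr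
    ((algebraMap K L).injective.comp Subtype.val_injective)
  have : Algebra.IsAlgebraic A L := (IsFractionRing.isAlgebraic_iff' A S L).mp inferInstance
  have : Algebra.IsAlgebraic K L := (IsFractionRing.comap_isAlgebraic_iff (A := A)).mp ‹_›
  have : Algebra.EssFiniteType S L := .of_isLocalization L (nonZeroDivisors S)
  have : Algebra.EssFiniteType A L := .comp A S L
  have : Algebra.EssFiniteType K L := .of_comp A K L
  have : Module.Finite K L := Algebra.finite_of_essFiniteType_of_isAlgebraic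
  have : CharZero K := charZero_of_injective_algebraMap (algebraMap ℂ K).injective
  have hMx : ∀ a b, b ∉ n → algebraMap S L a * (algebraMap S L b)⁻¹ ∈ Mx R → a ∈ n := fun a b hb h => by
    have := Mx_mul (hS b) h
    rwa [mul_left_comm, mul_inv_cancel₀ (hb0 b hb), mul_one, hM] at this
  refine ⟨?_, fun z => ?_, fun a ha => hAS ⟨a, ha⟩ ▸ hS _, fun D => ?_, fun E hE hEm => ?_,
    fun w hw s hs => ?_, fun γ Q hQ => ?_, fun r hr => ?_⟩
  · rw [← trdeg_add_eq ℂ K (A := L), ht, trdeg_eq_zero_iff.mpr ‹_›, add_zero]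
  · obtain ⟨a, b, hb, rfl⟩ := IsFractionRing.div_surjective S z
    exact ⟨_, hS a, _, hS b, (map_ne_zero_iff _ hinj).mpr (nonZeroDivisors.ne_zero hb), rfl⟩
  · have := Algebra.FormallyEtale.of_isSeparable K L
    exact ext_der D
  · obtain ⟨⟨π, π0, π1⟩, hA, s, -, hs⟩ := div_iff.mp hE
    have hfin := (Algebra.QuasiFinite.finite_primesOver (S := S) m).subset (Set.sdiff_subset (t := {n}))
    have h1 := Ideal.sup_iInf_eq_top (I := n) (s := hfin.toFinset) (J := id) fun q hq =>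
      hnmax.coprime_of_ne (hmax q (hfin.mem_toFinset.mp hq).1.1 (hfin.mem_toFinset.mp hq).1.2)
        (Ne.symm (hfin.mem_toFinset.mp hq).2)
    obtain ⟨z, hz, j, hj, e⟩ := Submodule.mem_sup.mp ((Ideal.eq_top_iff_one _).mp h1)
    let φ : A →+* OV E hs.triv := (Subalgebra.inclusion (T := OV E hs.triv) hA).toRingHom
    have hint : ∀ a : S, IsIntegral A (algebraMap S L a) := fun a =>
      (Algebra.IsIntegral.isIntegral (R := A) a).algebraMap
    obtain ⟨w, l, hO, hw⟩ := exists_up hs.triv π0 π1 (z := algebraMap S L z)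
      ((hint z).map_of_comp_eq φ (RingHom.id L) rfl) fun z0 ⟨p, p1, p2⟩ => by
        have := invertibleOfNonzero (inv_ne_zero z0)
        rw [← eval₂_reverse_eq_zero_iff, invOf_eq_inv, inv_inv] at p2
        have a1 := minpoly.dvd K (algebraMap S L z) (p := p.reverse.map (algebraMap _ K))
          (by rwa [aeval_map_algebraMap])
        have hzi := Algebra.IsIntegral.isIntegral (R := A) z
        rw [minpoly.isIntegrallyClosed_eq_field_fractions K L hzi,
          show algebraMap A K = (algebraMap (OV E hs.triv) K).comp φ from rfl, ← Polynomial.map_map,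
          map_dvd_map _ Subtype.val_injective ((minpoly.monic hzi).map _)] at a1
        obtain ⟨r, hr⟩ := a1
        have a2 := congrArg (fun q => ((q.coeff 0 : OV E hs.triv) : K)) hr
        simp only [coeff_zero_reverse, p1.leadingCoeff, mul_coeff_zero, coeff_map] at a2
        have a3 : (minpoly A z).coeff 0 ∈ m := by
          have a4 := minpoly.aeval A z
          rw [← (minpoly A z).divX_mul_X_add, map_add, map_mul, aeval_X, aeval_C] at a4
          rw [← hnm, eq_neg_of_add_eq_zero_right a4]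
          exact neg_mem (n.mul_mem_left _ hz)
        exact Un.not_ge (w := E) ⟨one_ne_zero, ord_one⟩
          ((show (1 : K) = _ from a2) ▸ ((hEm _).mpr a3).mul (r.coeff 0).2)
    have g0 : ∀ a : S, Ge w 0 (algebraMap S L a) := fun a =>
      ge_of_integral (B := A) (fun b => hO.ge0.mp (hA b b.2)) (hint a)
    have hq : cenI w (algebraMap S L) g0 1 = n := by
      by_contra hne
      have h2 : cenI w (algebraMap S L) g0 1 ∈ hfin.toFinset := hfin.mem_toFinset.mpr
        ⟨⟨cenI_prime _ g0, ⟨Ideal.ext fun a => by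
          rw [← hEm, hO.ge1, ← hAS]; rfl⟩⟩, hne⟩
      exact (cenI_prime _ g0).ne_top ((Ideal.eq_top_iff_one _).mpr
        (e ▸ add_mem hw (Ideal.mem_iInf.mp (Ideal.mem_iInf.mp hj _) h2)))
    have g1 : ∀ b, b ∉ n → Ge w 0 (algebraMap S L b)⁻¹ := fun b hb =>
      ((g0 b).un fun h => hb (hq ▸ h)).inv.ge
    refine ⟨w, l, hO, fun r hr => ?_, fun r hr => ?_⟩
    · obtain ⟨a, b, hb, rfl⟩ := (hR r).mp hr
      exact (g0 a).mul0 (g1 b hb)
    · obtain ⟨a, b, hb, rfl⟩ := (hR r).mp (Mx_sub hr)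
      exact Ge.mul (m := 1) (hq.ge (hMx a b hb hr)) (g1 b hb)
  · obtain ⟨E, l, hO, a1, t, a2⟩ := exists_down (K := K) hs (a := a0) (fun h => h0' (Subtype.ext h))
      (hw.2 _ (by rw [← hAS, hM, hnm]; exact h0))
    exact ⟨E, l, hO, div_iff.mpr ⟨a1, fun a ha => hO.ge0.mpr (hw.1 _ (hAS ⟨a, ha⟩ ▸ hS _)), t, trivial, a2⟩⟩
  · have g0 : ∀ a : S, Ge Q 0 (algebraMap S L a) := fun a => hQ.ge _ (hS a)
    have g1 : ∀ b, b ∉ n → Un Q (algebraMap S L b) := fun b hb =>
      un_of_inv hQ.ge (hb0 b hb) (hS b) (hbi b hb)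
    have γM : γ ∈ Mx R := by_contra fun h => by
      have := (un_of_inv hQ.ge hQ.ne hQ.mem (inv_of_not_Mx hQ.mem h).2).2
      have := hQ.one
      omega
    have hq := cenI_prime _ g0
    have hlt : cenI Q (algebraMap S L) g0 1 < n := by
      refine lt_of_le_of_ne (fun a ha => ?_) fun h => ?_
      · obtain ⟨r, h1, h2⟩ := hQ.dvd _ (hS a) ha
        rw [← hM, h2, mul_comm]
        exact Mx_mul h1 γM
      · obtain ⟨z, h1, h2⟩ := hQ.small
        obtain ⟨a, b, hb, rfl⟩ := (hR z).mp (Mx_sub h1)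
        exact h2.not_ge (Ge.mul (m := 1) (h.ge (hMx a b hb h1)) (g1 b hb).inv.ge)
    set q := cenI Q (algebraMap S L) g0 1 with hqdef
    have hO : Ov (Q.comap (algebraMap K L)) Q 1 := ⟨one_pos, fun f => (one_mul _).symm⟩
    have gA : ∀ a : A, Ge Q 0 (algebraMap K L a) := fun a => hAS a ▸ g0 _
    refine ⟨_, hO, div_iff.mpr ⟨?_, fun a ha => hO.ge0.mpr (gA ⟨a, ha⟩), ?_⟩⟩
    · by_contra hc
      let _ := Localization.AtPrime.algebraOfLiesOver (q.under A) q
      have h1 := ((Algebra.isUnramifiedAt_iff_map_eq A (q.under A) q).mp (hun q hq hlt)).2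
      obtain ⟨g, b, hb, e⟩ := (hR γ).mp hQ.mem
      have g2 : algebraMap S L g ≠ 0 := left_ne_zero_of_mul (e ▸ hQ.ne)
      have g3 : ord Q (algebraMap S L g) = 1 := by
        rw [← hQ.one, e, ord_mul g2 (g1 b hb).inv.1, (g1 b hb).inv.2, add_zero]
      have h2 := (IsLocalization.AtPrime.to_map_mem_maximal_iff (Localization.AtPrime q) q g).mpr
        fun _ => g3.ge
      rw [← h1, IsScalarTower.algebraMap_eq A S, ← Ideal.map_map,
        IsLocalization.algebraMap_mem_map_algebraMap_iff q.primeCompl] at h2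
      obtain ⟨t, t1, t2⟩ := h2
      have h3 : (q.under A).map (algebraMap A S) ≤ cenI Q (algebraMap S L) g0 2 :=
        Ideal.map_le_iff_le_comap.mpr fun a ha h => by
          have h4 := ha h
          rw [hAS] at h h4 ⊢
          have h5 : ord Q (algebraMap K L a) ≠ 1 := fun h5 =>
            hc ⟨a, (_root_.map_ne_zero _).mp h, h5⟩
          omega
      have h4 : Ge Q 2 (algebraMap S L (t * g)) := h3 t2
      rw [map_mul] at h4
      have := ((g0 t).un t1).cancel h4 g2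
      omega
    · by_contra hc
      let φ : A →ₐ[ℂ] L := (IsScalarTower.toAlgHom ℂ K L).comp A.val
      have h1 := cenI_max φ gA (triv_of hQ.ge) fun a h => hc ⟨a, a.2, hO.rt.mpr h⟩
      have h2 : q.comap (algebraMap A S) = cenI Q φ.toRingHom gA 1 := Ideal.ext fun a => by
        change Ge Q 1 _ ↔ Ge Q 1 _
        rw [hAS]; rfl
      exact hlt.ne ((Ideal.isMaximal_of_isIntegral_of_isMaximal_comap (R := A) q (h2 ▸ h1)).eq_of_le
        hnmax.ne_top hlt.le)
  · have : Algebra.FiniteType ℂ S := .trans (S := A) inferInstance inferInstance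
    let _ := Ideal.Quotient.field n
    have := finite_of_finite_type_of_isJacobsonRing ℂ (S ⧸ n)
    have key : ∀ a : S, ∃ c, a - algebraMap ℂ S c ∈ n := fun a => by
      obtain ⟨c, hc⟩ := (IsAlgClosed.algebraMap_bijective_of_isIntegral (k := ℂ) (K := S ⧸ n)).2
        (Ideal.Quotient.mk n a)
      exact ⟨c, Ideal.Quotient.eq.mp hc.symm⟩
    obtain ⟨a, b, hb, rfl⟩ := (hR r).mp hr
    obtain ⟨α, hα⟩ := key a
    obtain ⟨β, hβ⟩ := key b
    have β0 : β ≠ 0 := fun h => hb (by simpa [h] using hβ)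
    have h1 := Mx_mul (hbi b hb) (sub_mem ((hM _).mpr hα) (Mx_mul (R.algebraMap_mem (α / β)) ((hM _).mpr hβ)))
    refine ⟨α / β, ?_⟩
    rw [map_sub, map_sub, ← IsScalarTower.algebraMap_apply, ← IsScalarTower.algebraMap_apply, mul_sub _ _ (algebraMap ℂ L β),
      ← map_mul, div_mul_cancel₀ _ β0, sub_sub_sub_cancel_right, mul_sub, mul_comm, mul_left_comm,
      inv_mul_cancel₀ (hb0 b hb), mul_one] at h1
    exact h1

theorem exists_germ {A : Subalgebra ℂ K} (hA : A.FG ∧ IsFractionRing A K ∧ IsIntegrallyClosed A ∧ QuotSing A)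
    (ht : Algebra.trdeg ℂ K = 2) {m : Ideal A} (hm : m.IsMaximal) {a0 : A} (h0 : a0 ∈ m) (h0' : a0 ≠ 0) :
    ∃ (L : Type) (_ : Field L) (_ : Algebra ℂ L) (_ : Algebra K L) (_ : IsScalarTower ℂ K L)
      (_ : Algebra.EssFiniteType ℂ L) (R : Subalgebra ℂ L) (_ : IsLocalRing R) (_ : IsNoetherianRing R)
      (_ : Algebra.FormallySmooth ℂ R) (_ : Algebra.EssFiniteType ℂ R) (_ : IsFractionRing R L),
      Germ A m R := by
  obtain ⟨h1, h2, h3, h4⟩ := hA
  obtain ⟨S, _, _, _, _, _, _, _, n, _, h5, h6, h7⟩ := h4 m hm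
  have : Algebra.FiniteType ℂ A := A.fg_iff_finiteType.mp h1
  have : Algebra.FiniteType ℂ S := .trans (S := A) inferInstance inferInstance
  have : IsNoetherianRing S := Algebra.FiniteType.isNoetherianRing ℂ S
  obtain ⟨L, _, _, _, _, _⟩ : ∃ (L : Type) (_ : Field L) (_ : Algebra S L) (_ : IsFractionRing S L)
      (_ : Algebra ℂ L), IsScalarTower ℂ S L :=
    ⟨FractionRing S, inferInstance, inferInstance, inferInstance, inferInstance, inferInstance⟩
  have hinj : Function.Injective ((algebraMap S L).comp (algebraMap A S)) :=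
    (IsFractionRing.injective S L).comp (FaithfulSMul.algebraMap_injective A S)
  let _ : Algebra K L := (IsFractionRing.lift hinj : K →+* L).toAlgebra
  have : IsScalarTower A S L := .of_algebraMap_eq fun a => IsFractionRing.lift_algebraMap hinj a
  have : IsScalarTower ℂ K L := .of_algebraMap_eq fun c => by
    rw [IsScalarTower.algebraMap_apply ℂ S L, IsScalarTower.algebraMap_apply ℂ A S,
      IsScalarTower.algebraMap_apply ℂ A K]
    exact (IsFractionRing.lift_algebraMap hinj _).symm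
  let R' := Localization.subalgebra.ofField L n.primeCompl n.primeCompl_le_nonZeroDivisors
  let R := R'.restrictScalars ℂ
  let _ : Algebra S R := R'.algebra
  have : IsLocalization.AtPrime R n :=
    Localization.subalgebra.isLocalization_ofField L n.primeCompl n.primeCompl_le_nonZeroDivisors
  have : IsScalarTower ℂ S R := .of_algebraMap_eq fun c =>
    Subtype.ext (IsScalarTower.algebraMap_apply ℂ S L c)
  have := IsLocalization.AtPrime.isLocalRing R n
  have : Algebra.EssFiniteType S L := .of_isLocalization L (nonZeroDivisors S)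
  have : Algebra.EssFiniteType S R := .of_isLocalization R n.primeCompl
  exact ⟨L, inferInstance, inferInstance, inferInstance, inferInstance, .comp ℂ S L, R, inferInstance,
    IsLocalization.isNoetherianRing n.primeCompl R inferInstance,
    .of_equiv ((IsLocalization.algEquiv n.primeCompl (Localization.AtPrime n) R).restrictScalars ℂ),
    .comp ℂ S R, Localization.subalgebra.isFractionRing_ofField L n.primeCompl n.primeCompl_le_nonZeroDivisors,
    germ_of ht h0 h0' h7 R (fun z => exists_congr fun a => exists_congr fun b => exists_prop)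
      fun a => (coe_mem_Mx (r := algebraMap S R a)).trans
        (IsLocalization.AtPrime.to_map_mem_maximal_iff R n a)⟩

end Pool.Agent.MP_c54dba_ag

end

-- part MP_c54dba_ag.Comb
section

/-! Newton profiles are well quasi-ordered. -/

set_option autoImplicit false

namespace Pool.Agent.MP_c54dba_ag

open Set

/-- every exponent of `N'` lies above an exponent of `N` -/
def NLe (N N' : Set (ℕ × ℕ)) : Prop := ∀ d' ∈ N', ∃ d ∈ N, d ≤ d'

instance : IsPreorder (Set (ℕ × ℕ)) NLe where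
  refl _ d hd := ⟨d, hd, le_rfl⟩
  trans _ _ _ h1 h2 d hd := by
    obtain ⟨d1, a1, a2⟩ := h2 d hd
    obtain ⟨d2, b1, b2⟩ := h1 d1 a1
    exact ⟨d2, b1, b2.trans a2⟩

lemma NLe.oN_le {N N' : Set (ℕ × ℕ)} (h : NLe N N') (h' : N'.Nonempty) (a b : ℕ) :
    oN a b N ≤ oN a b N' := by
  obtain ⟨d', h1, e⟩ := oN_mem (a := a) (b := b) h'
  obtain ⟨d, h2, h3⟩ := h d' h1
  exact (MP_c54dba_ag.oN_le h2).trans
    (e ▸ add_le_add (Nat.mul_le_mul_left _ h3.1) (Nat.mul_le_mul_left _ h3.2))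

lemma sub_mem_of {α : Type} {r : α → α → Prop} {l l' : List α} (h : List.SublistForall₂ r l l') :
    ∀ x ∈ l, ∃ y ∈ l', r x y := by
  induction h with
  | nil => simp
  | cons h1 _ ih =>
    intro x hx
    rcases List.mem_cons.mp hx with rfl | hx
    · exact ⟨_, List.mem_cons_self, h1⟩
    · obtain ⟨y, a, b⟩ := ih x hx
      exact ⟨y, List.mem_cons_of_mem _ a, b⟩
  | cons_right _ ih =>
    intro x hx
    obtain ⟨y, a, b⟩ := ih x hx
    exact ⟨y, List.mem_cons_of_mem _ a, b⟩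

lemma sum_le_of {α : Type} {r : α → α → Prop} {l l' : List α} (h : List.SublistForall₂ r l l')
    (f : α → ℝ) (h0 : ∀ y ∈ l', 0 ≤ f y) (h1 : ∀ x ∈ l, ∀ y ∈ l', r x y → f x ≤ f y) :
    (l.map f).sum ≤ (l'.map f).sum := by
  induction h with
  | nil => exact List.sum_nonneg fun z hz => by obtain ⟨y, a, rfl⟩ := List.mem_map.mp hz; exact h0 y a
  | cons h2 _ ih =>
    simp only [List.map_cons, List.sum_cons]
    exact add_le_add (h1 _ List.mem_cons_self _ List.mem_cons_self h2)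
      (ih (fun y hy => h0 y (List.mem_cons_of_mem _ hy))
        fun x hx y hy => h1 x (List.mem_cons_of_mem _ hx) y (List.mem_cons_of_mem _ hy))
  | cons_right _ ih =>
    simp only [List.map_cons, List.sum_cons]
    exact le_add_of_nonneg_of_le (h0 _ List.mem_cons_self)
      (ih (fun y hy => h0 y (List.mem_cons_of_mem _ hy))
        fun x hx y hy => h1 x hx y (List.mem_cons_of_mem _ hy))

lemma wqo_NLe : WellQuasiOrdered NLe := by
  intro N
  let h : ℕ → ℕ → ℕ∞ := fun k i => ⨅ d : {d // d ∈ N k ∧ d.1 ≤ i}, (d.1.2 : ℕ∞)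
  have hanti : ∀ k, Antitone (h k) := fun k i j hij =>
    le_iInf fun d => iInf_le_of_le ⟨d.1, d.2.1, d.2.2.trans hij⟩ le_rfl
  have hmin : ∀ k, ∃ m, ∀ i, h k m ≤ h k i := fun k => by
    obtain ⟨_, ⟨m, rfl⟩, hm⟩ := wellFounded_lt.has_min (range (h k)) (range_nonempty _)
    exact ⟨m, fun i => not_lt.mp (hm _ ⟨i, rfl⟩)⟩
  choose m hm using hmin
  let l : ℕ → List (ℕ∞ × ℕ∞) := fun k =>
    (⊤, h k (m k)) :: (List.range (m k)).map fun i : ℕ => ((i : ℕ∞), h k i)
  obtain ⟨j, k, hjk, hr⟩ := (PartiallyWellOrderedOn.partiallyWellOrderedOn_sublistForall₂ (· ≤ ·)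
    (partiallyWellOrderedOn_of_wellQuasiOrdered (wellQuasiOrdered_le (α := ℕ∞ × ℕ∞)) univ)).exists_lt
    (f := l) fun _ _ _ => trivial
  have key : ∀ i, h j i ≤ h k i := by
    intro i
    have h1 : ∃ x ∈ l j, (i : ℕ∞) ≤ x.1 ∧ h j i ≤ x.2 := by
      by_cases hi : i < m j
      · exact ⟨_, List.mem_cons_of_mem _ (List.mem_map_of_mem (List.mem_range.mpr hi)), le_rfl, le_rfl⟩
      · exact ⟨_, List.mem_cons_self, le_top, hanti j (not_lt.mp hi)⟩
    obtain ⟨x, a1, a2, a3⟩ := h1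
    obtain ⟨y, b1, b2⟩ := sub_mem_of hr x a1
    refine a3.trans (b2.2.trans ?_)
    rcases List.mem_cons.mp b1 with rfl | b1
    · exact hm k i
    · obtain ⟨i', -, rfl⟩ := List.mem_map.mp b1
      exact hanti k (Nat.cast_le.mp (show (i : ℕ∞) ≤ i' from a2.trans b2.1))
  refine ⟨j, k, hjk, fun d' hd' => ?_⟩
  have h2 : h j d'.1 < (d'.2 + 1 : ℕ) :=
    ((key _).trans (iInf_le_of_le ⟨d', hd', le_rfl⟩ le_rfl)).trans_lt (by exact_mod_cast Nat.lt_succ_self _)
  obtain ⟨d, hd⟩ := iInf_lt_iff.mp h2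
  exact ⟨d.1, d.2.1, d.2.2, Nat.lt_succ_iff.mp (by exact_mod_cast hd)⟩

/-- Newton set of the foliation, and coefficient, invariance and Newton set of each component -/
abbrev Prof : Type := Set (ℕ × ℕ) × List (ℝ × ℝ × Set (ℕ × ℕ))

/-- coefficient of a component -/
def coef (t β ε : ℝ) : ℝ := ε * β + (1 - t) * ((1 - ε) * β)

/-- log discrepancy of a monomial valuation -/
noncomputable def Phi (pr : Prof) (a b : ℕ) (t : ℝ) : ℝ :=
  a + b - t * oN a b pr.1 - (pr.2.map fun c => coef t c.1 c.2.1 * oN a b c.2.2).sum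

/-- admissible profiles -/
def Good (Γ : Set ℝ) (pr : Prof) : Prop :=
  pr.1.Nonempty ∧ ∀ c ∈ pr.2, c.1 ∈ Γ ∧ (c.2.1 = 0 ∨ c.2.1 = 1) ∧ c.2.2.Nonempty

lemma coef_mul (t β ε : ℝ) : coef t β ε = (ε + (1 - t) * (1 - ε)) * β := by unfold coef; ring

lemma coef_nonneg {t ε : ℝ} (ht : t ≤ 1) (hε : ε = 0 ∨ ε = 1) : 0 ≤ ε + (1 - t) * (1 - ε) := by
  rcases hε with rfl | rfl <;> linarith

lemma exists_prof_le {Γ : Set ℝ} (hΓ : Γ ⊆ Icc 0 1) (hdcc : ¬ ∃ u : ℕ → ℝ, StrictAnti u ∧ ∀ i, u i ∈ Γ)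
    (pr : ℕ → Prof) (hpr : ∀ i, Good Γ (pr i)) :
    ∃ i k, i < k ∧ ∀ a b, ∀ t ∈ Icc (0 : ℝ) 1, Phi (pr k) a b t ≤ Phi (pr i) a b t := by
  have h1 : Γ.IsPWO := IsWF.isPWO (isWF_iff_no_descending_seq.mpr fun f hf h => hdcc ⟨f, hf, h⟩)
  have h2 : ({0, 1} : Set ℝ).PartiallyWellOrderedOn Eq := (toFinite _).partiallyWellOrderedOn
  have h3 := partiallyWellOrderedOn_of_wellQuasiOrdered wqo_NLe univ
  have h4 := PartiallyWellOrderedOn.prod h1 (h2.prod h3)
  have : IsPreorder (ℝ × ℝ × Set (ℕ × ℕ)) fun x y => x.1 ≤ y.1 ∧ x.2.1 = y.2.1 ∧ NLe x.2.2 y.2.2 :=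
    { refl := fun x => ⟨le_rfl, rfl, refl_of NLe _⟩
      trans := fun _ _ _ a b => ⟨a.1.trans b.1, a.2.1.trans b.2.1, trans_of NLe a.2.2 b.2.2⟩ }
  obtain ⟨i, k, hik, a1, a2⟩ := (h3.prod (h4.partiallyWellOrderedOn_sublistForall₂ _)).exists_lt (f := pr)
    fun n => ⟨trivial, fun c hc => ⟨((hpr n).2 c hc).1, ((hpr n).2 c hc).2.1, trivial⟩⟩
  refine ⟨i, k, hik, fun a b t ht => sub_le_sub (sub_le_sub_left (mul_le_mul_of_nonneg_left
    (by exact_mod_cast a1.oN_le (hpr k).1 a b) ht.1) _) (sum_le_of a2 _ (fun y hy => ?_) ?_)⟩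
  · obtain ⟨b1, b2, -⟩ := (hpr k).2 y hy
    rw [coef_mul]
    exact mul_nonneg (mul_nonneg (coef_nonneg ht.2 b2) (hΓ b1).1) (Nat.cast_nonneg _)
  · rintro x - y hy ⟨c1, c2, c3⟩
    obtain ⟨b1, b2, b3⟩ := (hpr k).2 y hy
    rw [coef_mul, coef_mul, c2]
    exact mul_le_mul (mul_le_mul_of_nonneg_left c1 (coef_nonneg ht.2 b2))
      (by exact_mod_cast c3.oN_le b3 a b) (Nat.cast_nonneg _) (mul_nonneg (coef_nonneg ht.2 b2) (hΓ b1).1)

lemma Phi_affine (pr : Prof) (a b : ℕ) (t : ℝ) :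
    Phi pr a b t = Phi pr a b 0 + t * (Phi pr a b 1 - Phi pr a b 0) := by
  have : ∀ l : List (ℝ × ℝ × Set (ℕ × ℕ)), (l.map fun c => coef t c.1 c.2.1 * oN a b c.2.2).sum =
      (1 - t) * (l.map fun c => coef 0 c.1 c.2.1 * oN a b c.2.2).sum +
        t * (l.map fun c => coef 1 c.1 c.2.1 * oN a b c.2.2).sum := by
    intro l
    induction l with
    | nil => simp
    | cons c l ih => simp only [List.map_cons, List.sum_cons, ih]; unfold coef; ring
  simp only [Phi, this]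
  ring

lemma acc {Γ : Set ℝ} (hΓ : Γ ⊆ Icc 0 1) (hdcc : ¬ ∃ u : ℕ → ℝ, StrictAnti u ∧ ∀ i, u i ∈ Γ)
    (S : ℕ → Set ℝ) (hS : ∀ i, S i ⊆ Icc 0 1) (hne : ∀ i, (S i).Nonempty)
    (hmono : StrictMono fun i => sSup (S i))
    (H : ∀ i, ∀ t' ∈ Icc (0 : ℝ) 1, t' ∉ S i → ∃ pr, Good Γ pr ∧
      (∃ a b p q, Wt a b p q ∧ Phi pr a b t' < 0) ∧
      ∀ t ∈ S i, ∀ a b p q, Wt a b p q → 0 ≤ Phi pr a b t) : False := by
  have hb : ∀ i, BddAbove (S i) := fun i => ⟨1, fun t ht => (hS i ht).2⟩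
  have hlt : ∀ i, sSup (S i) < sSup (S (i + 1)) := fun i => hmono (Nat.lt_succ_self i)
  have hI : ∀ i, sSup (S i) ∈ Icc (0 : ℝ) 1 := fun i =>
    ⟨(hS i (hne i).some_mem).1.trans (le_csSup (hb i) (hne i).some_mem),
      csSup_le (hne i) fun t ht => (hS i ht).2⟩
  choose pr hg hv hl using fun i => H i ((sSup (S i) + sSup (S (i + 1))) / 2)
    ⟨by linarith [(hI i).1, (hI (i + 1)).1], by linarith [(hI i).2, (hI (i + 1)).2]⟩
    fun h => by linarith [le_csSup (hb i) h, hlt i]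
  obtain ⟨i, k, hik, h⟩ := exists_prof_le hΓ hdcc pr hg
  obtain ⟨a, b, p, q, W, h1⟩ := hv i
  obtain ⟨t, ht, h2⟩ := exists_lt_of_lt_csSup (hne k) (b := (sSup (S i) + sSup (S (i + 1))) / 2)
    (by linarith [hlt i, hmono.monotone (show i + 1 ≤ k from hik)])
  obtain ⟨t0, ht0⟩ := hne i
  have h3 := (hl k t ht a b p q W).trans (h a b t (hS k ht))
  have h4 := hl i t0 ht0 a b p q W
  have h5 : t0 < (sSup (S i) + sSup (S (i + 1))) / 2 := by linarith [le_csSup (hb i) ht0, hlt i]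
  rw [Phi_affine] at h1 h3 h4
  generalize (sSup (S i) + sSup (S (i + 1))) / 2 = t' at *
  generalize Phi (pr i) a b 1 - Phi (pr i) a b 0 = σ at *
  rcases le_total 0 σ with hσ | hσ <;> nlinarith

end Pool.Agent.MP_c54dba_ag

end

-- part MP_c54dba_ag.Main
section

/-! Log discrepancies in a chart and the profile of a point where lc fails. -/

set_option autoImplicit false

namespace Pool.Agent.MP_c54dba_ag

open Polynomial IsLocalRing

variable {K : Type} [Field K] [Algebra ℂ K] {A : Subalgebra ℂ K}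

lemma Pull.comb {D1 D2 D : Val K → ℝ} {E : Val K} {x1 x2 : ℝ} (h1 : Pull A D1 E x1) (h2 : Pull A D2 E x2)
    (a b : ℝ) (h : ∀ P, Div A A P → D P = a * D1 P + b * D2 P) : Pull A D E (a * x1 + b * x2) := by
  obtain ⟨n, c, f, a1, a2, rfl⟩ := h1
  obtain ⟨m, d, g, b1, b2, rfl⟩ := h2
  have key : ∀ P : Val K, ∑ i, Fin.append (fun i => a * c i) (fun i => b * d i) i *
      (ord P (Fin.append f g i) : ℝ) = a * ∑ i, c i * ord P (f i) + b * ∑ i, d i * ord P (g i) := fun P => by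
    simp only [Fin.sum_univ_add, Fin.append_left, Fin.append_right, Finset.mul_sum, mul_assoc]
  refine ⟨n + m, _, Fin.append f g, fun i => ?_, fun P hP hc => ?_, (key E).symm⟩
  · refine Fin.addCases (fun i => ?_) (fun i => ?_) i
    · rw [Fin.append_left]; exact a1 i
    · rw [Fin.append_right]; exact b1 i
  · rw [key, h P hP, a2 P hP hc, b2 P hP hc]

lemma eps_cases {r : ℕ} (δ : Fin r → Derivation ℂ K K) (P : Val K) : eps δ P = 0 ∨ eps δ P = 1 := by
  unfold eps; split_ifs <;> simp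

lemma lc_zero (U : Set (Subalgebra ℂ K)) (δ : Fin 0 → Derivation ℂ K K) (τ : Fin 2 → Derivation ℂ K K)
    (B : Val K → ℝ) : LC U δ τ B 1 := by
  have h1 : ∀ P, can δ P = 0 := fun P => by
    unfold can
    rw [neg_eq_zero]
    refine IsLeast.csInf_eq ⟨⟨Fin.elim0, fun j => j.elim0, by simp⟩, ?_⟩
    rintro n ⟨f, -, h⟩
    rw [Matrix.det_isEmpty, P.map_one] at h
    exact_mod_cast h.le
  have h2 : ∀ P, eps δ P = 0 := fun P => if_pos fun θ hθ _ f _ => by
    rw [Set.range_eq_empty, Submodule.span_empty, Submodule.mem_bot] at hθ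
    simp [hθ]
  exact fun A _ E _ => ⟨0, ⟨0, Fin.elim0, Fin.elim0, fun i => i.elim0, fun P _ _ => by simp [h1, h2],
    by simp⟩, by simp [h1, h2]⟩

variable [Algebra.EssFiniteType ℂ K] (ht : Algebra.trdeg ℂ K = 2)
include ht

lemma lc_two {U : Set (Subalgebra ℂ K)} {δ τ : Fin 2 → Derivation ℂ K K} (hδ : LinearIndependent K δ)
    (hτ : LinearIndependent K τ) {B : Val K → ℝ} {t : ℝ} (h : LC U δ τ B t) : LC U δ τ B 1 := by
  intro A hA E hE
  obtain ⟨x, h1, h2⟩ := h A hA E hE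
  obtain ⟨e, s, F, -⟩ := hE.frame
  have a1 := F.J_ne ht hδ
  have a2 := F.J_ne ht hτ
  have pl : ∀ f g, J (τ 0) (τ 1) e s * J (δ 0) (δ 1) f g = J (δ 0) (δ 1) e s * J (τ 0) (τ 1) f g := by
    have key : ∀ f, J (τ 0) (τ 1) e s • JD (δ 0) (δ 1) f - J (δ 0) (δ 1) e s • JD (τ 0) (τ 1) f = 0 →
        ∀ g, J (τ 0) (τ 1) e s * J (δ 0) (δ 1) f g = J (δ 0) (δ 1) e s * J (τ 0) (τ 1) f g :=
      fun f h g => by simpa [JD_apply, sub_eq_zero] using DFunLike.congr_fun h g
    have k1 := key e (F.ext ht (by simp [JD_apply, J_self]) (by simp [JD_apply, mul_comm]))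
    have k2 := key s (F.ext ht (by simp [JD_apply, J_swap s e, mul_comm]) (by simp [JD_apply, J_self]))
    exact fun f => key f (F.ext ht (by simp [JD_apply, J_swap f e, k1]) (by simp [JD_apply, J_swap f s, k2]))
  have key : ∀ S P, Div A S P → eps δ P = 1 ∧
      (can δ P : ℝ) = can τ P - ord P (J (δ 0) (δ 1) e s / J (τ 0) (τ 1) e s) := by
    intro S P hP
    obtain ⟨e', s', F', o⟩ := hP.frame
    have := congrArg (ord P) (pl e' s')
    rw [ord_mul a2 (F'.J_ne ht hδ), ord_mul a1 (F'.J_ne ht hτ)] at this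
    refine ⟨F'.eps_two ht o hδ, ?_⟩
    rw [F'.can_two ht o hδ, F'.can_two ht o hτ, ord_div a1 a2]
    exact_mod_cast (by omega)
  have h3 : Pull A (fun P => ord P (J (δ 0) (δ 1) e s / J (τ 0) (τ 1) e s)) E
      (ord E (J (δ 0) (δ 1) e s / J (τ 0) (τ 1) e s)) :=
    ⟨1, fun _ => 1, fun _ => _, fun _ => div_ne_zero a1 a2, fun _ _ _ => by simp, by simp⟩
  refine ⟨_, h1.comb h3 1 (t - 1) fun P hP => ?_, ?_⟩
  · rw [(key _ P hP).1, (key _ P hP).2]; ring
  · rw [(key _ E hE).1, (key _ E hE).2] at h2 ⊢; linarith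

variable {L : Type} [Field L] [Algebra ℂ L] [Algebra K L] [IsScalarTower ℂ K L] [Algebra.EssFiniteType ℂ L]
  {R : Subalgebra ℂ L} [IsLocalRing R] [IsNoetherianRing R] {m : Ideal A} {x y : L} {X Y : Derivation ℂ L L}

omit ht [Algebra.EssFiniteType ℂ K] [Algebra.EssFiniteType ℂ L] [IsNoetherianRing R] in
lemma PD.M {γ : L} {Q : Val L} (h : PD R γ Q) : γ ∈ Mx R := by_contra fun h' => by
  have := (un_of_inv h.ge h.ne h.mem (inv_of_not_Mx h.mem h').2).2
  have := h.one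
  omega

lemma bridge (G : Germ A m R) (C : Chart R x y X Y) {δ : Fin 1 → Derivation ℂ K K}
    {τ : Fin 2 → Derivation ℂ K K} (hδ : LinearIndependent K δ) (hτ : LinearIndependent K τ)
    (B : Val K →₀ ℝ) {E0 : Val K} (hE0 : Div A Set.univ E0) :
    ∃ (v : Derivation ℂ L L) (l : List (ℝ × ℝ × L)), v ≠ 0 ∧ v x ∈ R ∧ v y ∈ R ∧
      (∀ c ∈ l, (∃ P ∈ B.support, c.1 = B P) ∧ (c.2.1 = 0 ∨ c.2.1 = 1) ∧ c.2.2 ∈ R ∧ c.2.2 ≠ 0) ∧
      ∀ E w n, Ov E w n → Cen w R → Div A Set.univ E → ∀ t z, Pull A (fun P => t * can δ P +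
        (1 - t) * can τ P + coef t (B P) (eps δ P)) E z → ∀ a, IsLo2 w X Y (-a) → ∃ k, IsLo w v k ∧
          n * (t * eps δ E + (1 - t) - (z - (t * can δ E + (1 - t) * can τ E))) =
            a - t * (k + a) - (l.map fun c => coef t c.1 c.2.1 * ord w c.2.2).sum := by
  classical
  have hne : ∀ {f : K}, f ≠ 0 → algebraMap K L f ≠ 0 := fun h => (_root_.map_ne_zero _).mpr h
  obtain ⟨δ', hδ'⟩ := G.der (δ 0)
  obtain ⟨τ0, hτ0⟩ := G.der (τ 0)
  obtain ⟨τ1, hτ1⟩ := G.der (τ 1)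
  obtain ⟨ι, γ, Q, hQ, -, hfac, hgcd⟩ := C.exists_primes G.frac
  choose P hO hP using fun i => G.div _ _ (hQ i)
  have hd0 : δ' ≠ 0 := fun h => hδ.ne_zero 0 (by
    ext f; simpa [h] using (hδ' f).symm)
  obtain ⟨h, h0, vx, vy, hco⟩ := hgcd (δ' x) (δ' y) fun h => hd0 (C.ext _ h.1 h.2)
  have hv : ∀ f, (h⁻¹ • δ') f = δ' f / h := fun f => by
    rw [Derivation.smul_apply, smul_eq_mul, div_eq_inv_mul]
  have hJ : ∀ e s : K, algebraMap K L (J (τ 0) (τ 1) e s) =
      J τ0 τ1 x y * J X Y (algebraMap K L e) (algebraMap K L s) := fun e s => by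
    rw [← hτ0.J hτ1, C.J_eq]
  have j0 : J τ0 τ1 x y ≠ 0 := by
    obtain ⟨e, s, F, -⟩ := hE0.frame
    exact left_ne_zero_of_mul (hJ e s ▸ hne (F.J_ne ht hτ))
  have hcan : ∀ i, can δ (P i) = -ord (Q i) h ∧ can τ (P i) = -ord (Q i) (J τ0 τ1 x y) := by
    intro i
    obtain ⟨e, s, F, o⟩ := (hP i).frame
    obtain ⟨-, -, s', s1, s2⟩ := div_iff.mp (hP i)
    have F' : Frame (Q i) (γ i) (algebraMap K L s') :=
      ⟨(hQ i).ne, by rw [(hQ i).one]; exact one_pos, (hO i).rt.mp s2⟩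
    have po : ∀ D : Derivation ℂ L L, (∀ r ∈ R, D r ∈ R) → ∀ f, Ge (Q i) 0 f → Ge (Q i) 0 (D f) :=
      fun D hD f hf => F'.po G.tr (hQ i).one ((hQ i).ge _ (hD _ (hQ i).mem))
        ((hQ i).ge _ (hD _ (G.sub _ s1))) hf
    constructor
    · have a1 := (hO i).isPo G.tr F o hδ' (F.can_one ht o hδ).1
      have a2 : IsPo (Q i) δ' (ord (Q i) h) := by
        refine ⟨fun f hf => ?_, ?_⟩
        · have : δ' f = h * (δ' x / h * X f + δ' y / h * Y f) := by rw [C.decomp δ' f]; field_simp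
          rw [this]
          exact ((Ge.self h).mul ((((hQ i).ge _ vx).mul0 (po X C.Xm f hf)).add
            (((hQ i).ge _ vy).mul0 (po Y C.Ym f hf)))).mono (add_zero _).ge
        · have key : ∀ z ∈ R, Un (Q i) (δ' z / h) →
              ∃ g, Ge (Q i) 0 g ∧ δ' g ≠ 0 ∧ ord (Q i) (δ' g) = ord (Q i) h := fun z hz hu => by
            have b1 := (div_ne_zero_iff.mp hu.1).1
            have b2 := hu.2
            rw [ord_div b1 h0] at b2
            exact ⟨z, (hQ i).ge z hz, b1, by omega⟩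
          exact (hco i).elim (key x C.xR) (key y C.yR)
      have := a1.unique a2
      omega
    · have F2 := (hO i).frame F
      have o2 : ord (Q i) (algebraMap K L e) = 1 := by rw [(hO i).2, o, one_mul]
      have a1 : Un (Q i) (J X Y (algebraMap K L e) (algebraMap K L s)) :=
        (F'.po2 G.tr (hQ i).one ((hQ i).ge _ (C.J_mem (hQ i).mem (G.sub _ s1)))
          (F2.ge1.mono zero_le_one) F2.rt.un.ge).un fun h1 => Un.not_ge ⟨one_ne_zero, ord_one⟩
            (C.J_one ▸ F2.po2 G.tr o2 h1 ((hQ i).ge _ C.xR) ((hQ i).ge _ C.yR))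
      have a2 := (hO i).2 (J (τ 0) (τ 1) e s)
      rw [hJ, ord_mul j0 a1.1, a1.2] at a2
      rw [F.can_two ht o hτ]
      omega
  have hfin : {i | B (P i) ≠ 0}.Finite := by
    refine (B.support.finite_toSet.biUnion (t := fun P' => {i | P i = P'}) fun P' _ => ?_).subset
      fun i hi => Set.mem_biUnion (Finsupp.mem_support_iff.mpr hi) rfl
    rcases {i | P i = P'}.eq_empty_or_nonempty with h1 | ⟨i, rfl⟩
    · exact h1 ▸ Set.finite_empty
    · obtain ⟨⟨π, a1, a2⟩, -⟩ := div_iff.mp (hP i)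
      refine (hfac _ (hne a1)).1.subset fun j (hj : P j = P i) => ?_
      rw [Set.mem_ofPred_eq, (hO j).2, hj, a2]
      decide
  refine ⟨h⁻¹ • δ', hfin.toFinset.toList.map fun i => (B (P i), eps δ (P i), γ i),
    smul_ne_zero (inv_ne_zero h0) hd0, hv x ▸ vx, hv y ▸ vy, fun c hc => ?_,
    fun E w n hE hw hD t z hz a ha => ?_⟩
  · obtain ⟨i, hi, rfl⟩ := List.mem_map.mp hc
    exact ⟨⟨P i, Finsupp.mem_support_iff.mpr (hfin.mem_toFinset.mp (Finset.mem_toList.mp hi)), rfl⟩,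
      eps_cases _ _, (hQ i).mem, (hQ i).ne⟩
  obtain ⟨e, s, F, o⟩ := hD.frame
  obtain ⟨-, ε, -, e1, e2⟩ := F.can_one ht o hδ
  refine ⟨_, (hE.isLo G.tr F hδ' e2).smul (inv_ne_zero h0), ?_⟩
  obtain ⟨a1, a2⟩ := (hE.frame F).lo2 G.tr ha
  have a3 := hE.2 (J (τ 0) (τ 1) e s)
  rw [hJ, ord_mul j0 a1, a2, hE.2, o, ← neg_eq_iff_eq_neg.mpr (F.can_two ht o hτ)] at a3
  obtain ⟨N, c, f, f0, hrep, rfl⟩ := hz
  let s0 := (hfin.union ((hfac h h0).1.union ((hfac _ j0).1.union
    (Set.finite_iUnion fun j => (hfac _ (hne (f0 j))).1)))).toFinset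
  have hs : ∀ g, g ≠ 0 → {i | ord (Q i) g ≠ 0} ⊆ s0 →
      (ord w g : ℝ) = ∑ i ∈ s0, (ord (Q i) g : ℝ) * ord w (γ i) := fun g g0 hg => by
    rw [(hfac g g0).2 w hw.1, finsum_eq_sum_of_support_subset _ fun i hi => hg (left_ne_zero_of_mul hi)]
    push_cast
    rfl
  have b1 := hs h h0 fun i hi => by simp only [s0, Set.Finite.coe_toFinset]; exact Or.inr (Or.inl hi)
  have b2 := hs _ j0 fun i hi => by
    simp only [s0, Set.Finite.coe_toFinset]; exact Or.inr (Or.inr (Or.inl hi))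
  have b3 : ∀ j, (n : ℝ) * ord E (f j) = ∑ i ∈ s0, (ord (P i) (f j) : ℝ) * ord w (γ i) := fun j => by
    have := hs _ (hne (f0 j)) fun i hi => by
      simp only [s0, Set.Finite.coe_toFinset]; exact Or.inr (Or.inr (Or.inr (Set.mem_iUnion.mpr ⟨j, hi⟩)))
    simpa only [hE.2, (hO _).2, one_mul, Int.cast_mul] using this
  have b4 : ∀ i, ∑ j, c j * (ord (P i) (f j) : ℝ) = -t * ord (Q i) h - (1 - t) * ord (Q i) (J τ0 τ1 x y) +
      coef t (B (P i)) (eps δ (P i)) := fun i => by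
    refine (hrep (P i) (hP i) fun u hu h1 => ?_).symm.trans ?_
    swap
    · beta_reduce
      rw [(hcan i).1, (hcan i).2]
      push_cast; ring
    · obtain ⟨r, r1, r2⟩ := (hQ i).dvd _ (G.sub u hu) ((hO i).ge1.mp (ge1_iff.mpr h1))
      exact ge1_iff.mp (hE.ge1.mpr (hw.2 _ (by rw [r2, mul_comm]; exact Mx_mul r1 (hQ i).M)))
  have b5 : (n : ℝ) * ∑ j, c j * ord E (f j) = -t * ord w h - (1 - t) * ord w (J τ0 τ1 x y) +
      ∑ i ∈ hfin.toFinset, coef t (B (P i)) (eps δ (P i)) * ord w (γ i) := by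
    rw [Finset.sum_subset (s₂ := s0) (fun i hi => by
      simp only [s0, Set.Finite.mem_toFinset] at hi ⊢; exact Or.inl hi) fun i _ hi => by
        rw [of_not_not (mt hfin.mem_toFinset.mpr hi)]; simp [coef], b1, b2]
    simp only [Finset.mul_sum, mul_left_comm (n : ℝ), b3]
    rw [Finset.sum_comm, ← Finset.sum_sub_distrib, ← Finset.sum_add_distrib]
    refine Finset.sum_congr rfl fun i _ => ?_
    simp only [← mul_assoc, ← Finset.sum_mul, b4]
    ring
  rw [List.map_map, Finset.sum_map_toList, e1, ord_inv]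
  have a4 : (ord w (J τ0 τ1 x y) : ℝ) + (n * 1 + -a) = n * -can τ E := by exact_mod_cast a3
  simp only [Function.comp_apply]
  push_cast
  linear_combination (1 - t) * a4 - b5

omit ht [Algebra.EssFiniteType ℂ K] [IsNoetherianRing R] in
lemma Chart.reg_mono (C : Chart R x y X Y) (ht : Algebra.trdeg ℂ L = 2) {a b p q : ℕ} (W : Wt a b p q)
    {w : Val L} (hx : ord w x = a) (hy : ord w y = b) (hs : RT w (y ^ a / x ^ b)) {v : Derivation ℂ L L}
    {n : ℤ} (h1 : Ge w n (y * v x)) (h2 : Ge w n (x * v y)) : Reg w (n - (a + b)) v := by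
  have hx0 := C.x0
  have hy0 := C.y0
  obtain ⟨o1, o2⟩ := ord_es C W (g := 1) (by rw [hx, mul_one]) (by rw [hy, mul_one])
  have k : Ge w (-(a + b)) (x * y)⁻¹ := fun _ => by rw [ord_inv, ord_mul hx0 hy0, hx, hy]
  have a1 : Ge w (n - (a + b)) (v x / x) :=
    (show (x * y)⁻¹ * (y * v x) = v x / x by field_simp) ▸ (k.mul h1).mono (by omega)
  have a2 : Ge w (n - (a + b)) (v y / y) :=
    (show (x * y)⁻¹ * (x * v y) = v y / y by field_simp) ▸ (k.mul h2).mono (by omega)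
  refine Frame.reg ⟨div_ne_zero (pow_ne_zero q hx0) (pow_ne_zero p hy0), o1 ▸ one_pos, hs⟩ ht ?_ ?_
  · rw [logd hx0 hy0]
    exact (Ge.self _).mul (((hs.triv.natge _).mul0 a1).sub ((hs.triv.natge _).mul0 a2))
  · rw [logd hy0 hx0]
    exact hs.un.ge.mul0 (((hs.triv.natge _).mul0 a2).sub ((hs.triv.natge _).mul0 a1))

lemma prof_of_germ [Algebra.FormallySmooth ℂ R] [Algebra.EssFiniteType ℂ R] [IsFractionRing R L]
    (G : Germ A m R) {Γ : Set ℝ} (hΓ : Γ ⊆ Set.Icc 0 1) {U : Set (Subalgebra ℂ K)} (hA : A ∈ U)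
    {δ : Fin 1 → Derivation ℂ K K} {τ : Fin 2 → Derivation ℂ K K} (hδ : LinearIndependent K δ)
    (hτ : LinearIndependent K τ) {B : Val K →₀ ℝ} (hB : ∀ P ∈ B.support, B P ∈ Γ) {E : Val K}
    (hE : Div A Set.univ E) (hm : ∀ a : A, Ge E 1 a ↔ a ∈ m) {t' z : ℝ} (ht' : t' ∈ Set.Icc (0 : ℝ) 1)
    (hz : Pull A (fun P => t' * can δ P + (1 - t') * can τ P + coef t' (B P) (eps δ P)) E z)
    (hv : t' * eps δ E + (1 - t') < z - (t' * can δ E + (1 - t') * can τ E)) :
    ∃ pr, Good Γ pr ∧ (∃ a b p q, Wt a b p q ∧ Phi pr a b t' < 0) ∧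
      ∀ t ∈ {t ∈ Set.Icc (0 : ℝ) 1 | LC U δ τ B t}, ∀ a b p q, Wt a b p q → 0 ≤ Phi pr a b t := by
  obtain ⟨w, n, hO, hw⟩ := G.up E hE hm
  obtain ⟨e, s, F, -⟩ := hE.frame
  obtain ⟨τ0, hτ0⟩ := G.der (τ 0)
  obtain ⟨τ1, hτ1⟩ := G.der (τ 1)
  obtain ⟨x, y, X, Y, C⟩ := exists_chart R G.res
    (hτ0.J hτ1 e s ▸ (_root_.map_ne_zero _).mpr (F.J_ne ht hτ)) fun _ _ _ => (hO.frame F).rank_le G.tr
  obtain ⟨x, y, X, Y, a, b, p, q, a', C, W, hA', a0, hD⟩ := C.core G.tr hw (hO.frame F).rt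
  obtain ⟨v, l, v0, vx, vy, hl, hbr⟩ := bridge ht G C hδ hτ B hE
  have hl1 : ∀ c ∈ l, c.1 ∈ Γ := fun c hc => by
    obtain ⟨⟨P, h1, h2⟩, -⟩ := hl c hc
    exact h2 ▸ hB P h1
  refine ⟨(Nw R X Y (y * v x) ∪ Nw R X Y (x * v y), l.map fun c => (c.1, c.2.1, Nw R X Y c.2.2)),
    ⟨(C.vf_init W v0 vx vy rfl).1, fun c hc => ?_⟩, ⟨a, b, p, q, W, ?_⟩, fun t h1 a b p q W => ?_⟩
  · obtain ⟨c', hc', rfl⟩ := List.mem_map.mp hc
    exact ⟨hl1 c' hc', (hl c' hc').2.1, (C.spec W (hl c' hc').2.2.1 (hl c' hc').2.2.2).1⟩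
  · obtain ⟨k, k1, k2⟩ := hbr E w n hO hw hE t' z hz a' hA'
    have h1 : ((a : ℝ) + b) * (k + a') ≤ oN a b (Nw R X Y (y * v x) ∪ Nw R X Y (x * v y)) * a' := by
      exact_mod_cast hD.2 v v0 vx vy k k1.1
    have h2 : ((a : ℝ) + b) * (l.map fun c => coef t' c.1 c.2.1 * ord w c.2.2).sum ≤
        (l.map fun c => coef t' c.1 c.2.1 * oN a b (Nw R X Y c.2.2)).sum * a' := by
      rw [← List.sum_map_mul_left, ← List.sum_map_mul_right]
      refine List.sum_le_sum fun c hc => ?_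
      rw [mul_left_comm, mul_assoc]
      refine mul_le_mul_of_nonneg_left (by exact_mod_cast hD.1 _ (hl c hc).2.2.1 (hl c hc).2.2.2) ?_
      rw [coef_mul]
      exact mul_nonneg (coef_nonneg ht'.2 (hl c hc).2.1) (hΓ (hl1 c hc)).1
    have h3 : (0 : ℝ) < a + b := by have := W.a0; positivity
    have h4 := mul_neg_of_pos_of_neg h3
      (k2 ▸ mul_neg_of_pos_of_neg (Int.cast_pos.mpr hO.1) (sub_neg.mpr hv))
    have h5 := mul_le_mul_of_nonneg_left h1 ht'.1
    refine neg_of_mul_neg_right (a := (a' : ℝ)) ?_ (Int.cast_nonneg a0.le)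
    simp only [Phi, List.map_map, Function.comp_def]
    linarith
  · obtain ⟨μ, m1, m2, m3, m4⟩ := C.exists_mono W G.frac
    have g0 : ∀ r ∈ R, Ge μ 0 r := fun r hr h => by rw [m1 r hr h]; positivity
    have hμ : Cen μ R := ⟨g0, fun r hr => by
      obtain ⟨r, h, rfl⟩ := hr
      obtain ⟨u, u', rfl⟩ := C.max_eq h
      exact ((g0 _ u.2).mul0 fun _ => m2 ▸ Int.natCast_pos.mpr W.a0).add
        ((g0 _ u'.2).mul0 fun _ => m3 ▸ Int.natCast_pos.mpr W.b0)⟩
    obtain ⟨E', n', hO', hE'⟩ := G.down μ hμ _ m4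
    obtain ⟨z', z1, z2⟩ := h1.2 A hA E' hE'
    obtain ⟨a', hA'⟩ := C.exists_lo2 G.tr ⟨C.x0, m2 ▸ Int.natCast_pos.mpr W.a0, m4⟩
    obtain ⟨k, k1, k2⟩ := hbr E' μ n' hO' hμ hE' t z' z1 a' hA'
    have e1 := C.lo2_mono G.tr W one_pos (by rw [m2, mul_one]) (by rw [m3, mul_one]) m4 hA'
    have key : ∀ f ∈ R, Nw R X Y f ⊆ Nw R X Y (y * v x) ∪ Nw R X Y (x * v y) →
        Ge μ (oN a b (Nw R X Y (y * v x) ∪ Nw R X Y (x * v y))) f := fun f hf h f0 => by
      obtain ⟨d, d1, d2⟩ := oN_mem (a := a) (b := b) (C.spec W hf f0).1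
      rw [m1 f hf f0, ← d2]
      exact_mod_cast oN_le (h d1)
    have e2 := k1.le (C.reg_mono G.tr W m2 m3 m4 (key _ (R.mul_mem C.yR vx) Set.subset_union_left)
      (key _ (R.mul_mem C.xR vy) Set.subset_union_right))
    have e3 : (l.map fun c => coef t c.1 c.2.1 * ord μ c.2.2) =
        l.map fun c => coef t c.1 c.2.1 * oN a b (Nw R X Y c.2.2) := List.map_congr_left fun c hc => by
      rw [m1 _ (hl c hc).2.2.1 (hl c hc).2.2.2, Int.cast_natCast]
    have e4 := k2 ▸ mul_nonneg (Int.cast_nonneg hO'.1.le) (sub_nonneg.mpr z2)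
    have e5 : (oN a b (Nw R X Y (y * v x) ∪ Nw R X Y (x * v y)) : ℝ) ≤ k + (a + b) := by
      exact_mod_cast sub_le_iff_le_add.mp e2
    have e6 := mul_le_mul_of_nonneg_left e5 h1.1.1
    rw [e3, e1] at e4
    simp only [Phi, List.map_map, Function.comp_def]
    push_cast at e4
    linarith

omit [Algebra.EssFiniteType ℂ K] in
theorem exists_prof {Γ : Set ℝ} (hΓ : Γ ⊆ Set.Icc 0 1) {U : Set (Subalgebra ℂ K)}
    (hU : ∀ A ∈ U, A.FG ∧ IsFractionRing A K ∧ IsIntegrallyClosed A ∧ QuotSing A) {r : ℕ}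
    {δ : Fin r → Derivation ℂ K K} {τ : Fin 2 → Derivation ℂ K K} (hδ : LinearIndependent K δ)
    (hτ : LinearIndependent K τ) {B : Val K →₀ ℝ} (hB : ∀ P ∈ B.support, B P ∈ Γ)
    (h1 : Cartier U fun P => can τ P + B P) (h2 : Cartier U fun P => can δ P + eps δ P * B P)
    {t0 : ℝ} (h3 : LC U δ τ B t0) (h4 : ¬ LC U δ τ B 1) {t' : ℝ} (ht' : t' ∈ Set.Icc (0 : ℝ) 1)
    (h5 : ¬ LC U δ τ B t') :
    ∃ pr, Good Γ pr ∧ (∃ a b p q, Wt a b p q ∧ Phi pr a b t' < 0) ∧
      ∀ t ∈ {t ∈ Set.Icc (0 : ℝ) 1 | LC U δ τ B t}, ∀ a b p q, Wt a b p q → 0 ≤ Phi pr a b t := by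
  unfold LC at h5
  push Not at h5
  obtain ⟨A, hA, E, hE, hv⟩ := h5
  obtain ⟨a1, a2, -⟩ := hU A hA
  have : Algebra.FiniteType ℂ A := A.fg_iff_finiteType.mp a1
  have : Algebra.EssFiniteType A K := .of_isLocalization K (nonZeroDivisors A)
  have : Algebra.EssFiniteType ℂ K := .comp ℂ A K
  obtain ⟨e, s, F, o⟩ := hE.frame
  have hr : r ≤ 2 := by simpa using F.rank_le ht hδ
  interval_cases r
  · exact absurd (lc_zero U δ τ B) h4
  swap
  · exact absurd (lc_two ht hδ hτ h3) h4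
  obtain ⟨x1, p1⟩ := h1 A hA E hE
  obtain ⟨x2, p2⟩ := h2 A hA E hE
  have hz := p2.comb p1 t' (1 - t')
    (D := fun P => t' * can δ P + (1 - t') * can τ P + coef t' (B P) (eps δ P)) fun P _ => by
      unfold coef; ring
  replace hv := hv _ hz
  obtain ⟨hπ, g0, -⟩ := div_iff.mp hE
  by_cases hs : ∃ s ∈ (A : Set K), RT E s
  · exfalso
    obtain ⟨n, c, f, -, b1, b2⟩ := hz
    have b3 : B E ≤ 1 := by
      by_cases h : E ∈ B.support
      · exact (hΓ (hB E h)).2
      · rw [Finsupp.notMem_support_iff.mp h]; exact zero_le_one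
    rw [b2, ← b1 E (div_iff.mpr ⟨hπ, g0, hs⟩) fun _ _ h => h] at hv
    beta_reduce at hv
    rw [coef_mul] at hv
    have := mul_le_mul_of_nonneg_left b3 (coef_nonneg ht'.2 (eps_cases δ E))
    linarith
  have hm := cenI_max A.val (fun a => g0 a a.2) F.rt.triv fun a h => hs ⟨a, a.2, h⟩
  obtain ⟨u, u', hu', rfl⟩ := IsFractionRing.div_surjective A e
  have u0 : (u : K) ≠ 0 := (div_ne_zero_iff.mp F.ne).1
  have u1 : (u' : K) ≠ 0 := (div_ne_zero_iff.mp F.ne).2
  obtain ⟨L, _, _, _, _, _, R, _, _, _, _, _, G⟩ := exists_germ (hU A hA) ht hm (a0 := u)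
    (fun _ => by
      have b1 := g0 u' u'.2 u1
      have b2 : (1 : ℤ) = ord E (u : K) - ord E (u' : K) := o.symm.trans (ord_div u0 u1)
      change 1 ≤ ord E (u : K)
      omega) fun h => u0 (congrArg Subtype.val h)
  exact prof_of_germ ht G hΓ hA hδ hτ hB hE (fun _ => Iff.rfl) ht' hz hv

end Pool.Agent.MP_c54dba_ag

end
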