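import Pool.Agent.MP_c54dba_ag.Defs

-- part MP_c54dba_ag.Val
section

/-! Orders of functions and derivations along a discrete valuation. -/

set_option autoImplicit false

namespace Pool.Agent.MP_c54dba_ag

open Polynomial

section Basic

variable {L : Type} [Field L] {w : Val L}

/-- the order is at least `n` -/
def Ge (w : Val L) (n : ℤ) (f : L) : Prop := f ≠ 0 → n ≤ ord w f

lemma val_eq {f : L} (hf : f ≠ 0) : w f = ord w f := by
  obtain ⟨n, hn⟩ := WithTop.ne_top_iff_exists.mp (w.ne_top_iff.mpr hf)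
  rw [ord, ← hn, WithTop.untopD_coe]

lemma val_eq_iff {f : L} {n : ℤ} : w f = n ↔ f ≠ 0 ∧ ord w f = n := by
  constructor
  · intro h
    have hf : f ≠ 0 := w.ne_top_iff.mp (h ▸ WithTop.coe_ne_top)
    exact ⟨hf, by rw [ord, h, WithTop.untopD_coe]⟩
  · rintro ⟨hf, rfl⟩
    exact val_eq hf

lemma ge_iff {f : L} {n : ℤ} : Ge w n f ↔ (n : WithTop ℤ) ≤ w f := by
  by_cases hf : f = 0
  · simp [Ge, hf]
  · rw [val_eq hf, WithTop.coe_le_coe]
    exact ⟨fun h => h hf, fun h _ => h⟩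

lemma ge0_iff {f : L} : Ge w 0 f ↔ 0 ≤ w f := ge_iff

lemma ge1_iff {f : L} : Ge w 1 f ↔ 0 < w f := by
  by_cases hf : f = 0
  · simp [Ge, hf]
  · rw [val_eq hf, ← WithTop.coe_zero, WithTop.coe_lt_coe]
    exact ⟨fun h => h hf, fun h _ => h⟩

lemma ord_zero : ord w 0 = 0 := by simp [ord]

lemma ord_one : ord w 1 = 0 := by simp [ord]

lemma ord_neg (f : L) : ord w (-f) = ord w f := by simp [ord]

lemma ord_mul {f g : L} (hf : f ≠ 0) (hg : g ≠ 0) : ord w (f * g) = ord w f + ord w g := by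
  have := w.map_mul f g
  rw [val_eq hf, val_eq hg, val_eq (mul_ne_zero hf hg)] at this
  exact_mod_cast this

lemma ord_inv (f : L) : ord w f⁻¹ = -ord w f := by
  by_cases hf : f = 0
  · simp [hf, ord_zero]
  have := ord_mul (w := w) hf (inv_ne_zero hf)
  rw [mul_inv_cancel₀ hf, ord_one] at this
  omega

lemma ord_div {f g : L} (hf : f ≠ 0) (hg : g ≠ 0) : ord w (f / g) = ord w f - ord w g := by
  rw [div_eq_mul_inv, ord_mul hf (inv_ne_zero hg), ord_inv]; ring

lemma ord_pow (f : L) (n : ℕ) : ord w (f ^ n) = n * ord w f := by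
  by_cases hf : f = 0
  · rcases n with _ | n <;> simp [hf, ord_zero, ord_one]
  induction n with
  | zero => simp [ord_one]
  | succ n ih => rw [pow_succ, ord_mul (pow_ne_zero _ hf) hf, ih]; push_cast; ring

lemma ord_zpow (f : L) (n : ℤ) : ord w (f ^ n) = n * ord w f := by
  rcases n with n | n
  · simp [ord_pow]
  · rw [zpow_negSucc, ord_inv, ord_pow, Int.negSucc_eq]; push_cast; ring

lemma Ge.self (f : L) : Ge w (ord w f) f := fun _ => le_rfl

lemma Ge.zero (n : ℤ) : Ge w n 0 := fun h => absurd rfl h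

lemma Ge.one : Ge w 0 1 := fun _ => ord_one.ge

lemma Ge.mono {m n : ℤ} {f : L} (h : Ge w n f) (hm : m ≤ n) : Ge w m f := fun hf => hm.trans (h hf)

lemma Ge.add {n : ℤ} {f g : L} (hf : Ge w n f) (hg : Ge w n g) : Ge w n (f + g) :=
  ge_iff.mpr (w.map_le_add (ge_iff.mp hf) (ge_iff.mp hg))

lemma Ge.neg {n : ℤ} {f : L} (hf : Ge w n f) : Ge w n (-f) := fun h => by
  rw [ord_neg]; exact hf (neg_ne_zero.mp h)

lemma Ge.sub {n : ℤ} {f g : L} (hf : Ge w n f) (hg : Ge w n g) : Ge w n (f - g) := by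
  rw [sub_eq_add_neg]; exact hf.add hg.neg

lemma Ge.mul {m n : ℤ} {f g : L} (hf : Ge w m f) (hg : Ge w n g) : Ge w (m + n) (f * g) := fun h => by
  rw [ord_mul (left_ne_zero_of_mul h) (right_ne_zero_of_mul h)]
  exact add_le_add (hf (left_ne_zero_of_mul h)) (hg (right_ne_zero_of_mul h))

lemma Ge.mul0 {n : ℤ} {f g : L} (hf : Ge w 0 f) (hg : Ge w n g) : Ge w n (f * g) :=
  (hf.mul hg).mono (by omega)

lemma Ge.pow {f : L} (hf : Ge w 0 f) (n : ℕ) : Ge w 0 (f ^ n) := by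
  induction n with
  | zero => rw [pow_zero]; exact Ge.one
  | succ n ih => rw [pow_succ]; exact ih.mul0 hf

lemma Ge.sum {ι : Type*} {s : Finset ι} {f : ι → L} {n : ℤ} (h : ∀ i ∈ s, Ge w n (f i)) :
    Ge w n (∑ i ∈ s, f i) :=
  ge_iff.mpr (w.map_le_sum fun i hi => ge_iff.mp (h i hi))

lemma Ge.of_mul {n : ℤ} {f g : L} (hf : f ≠ 0) (h : Ge w (ord w f + n) (f * g)) : Ge w n g := fun hg => by
  have := h (mul_ne_zero hf hg)
  rw [ord_mul hf hg] at this
  omega

lemma Ge.of_all {f : L} (h : ∀ n, Ge w n f) : f = 0 := by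
  by_contra hf
  have := h (ord w f + 1) hf
  omega

lemma not_ge {n : ℤ} {f : L} : ¬ Ge w n f ↔ f ≠ 0 ∧ ord w f < n := by
  simp [Ge]

lemma ord_add {f g : L} (hf : f ≠ 0) (hg : Ge w (ord w f + 1) g) :
    f + g ≠ 0 ∧ ord w (f + g) = ord w f := by
  have h : ¬ Ge w (ord w f + 1) (f + g) := fun h => by
    have := h.sub hg
    rw [add_sub_cancel_right] at this
    have := this hf
    omega
  obtain ⟨h1, h2⟩ := not_ge.mp h
  have := ((Ge.self f).add (hg.mono (by omega))) h1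
  exact ⟨h1, by omega⟩

/-- units of the valuation ring -/
def Un (w : Val L) (f : L) : Prop := f ≠ 0 ∧ ord w f = 0

lemma un_iff {f : L} : Un w f ↔ w f = 0 := (val_eq_iff (n := 0)).symm

lemma Un.ge {f : L} (h : Un w f) : Ge w 0 f := fun _ => h.2.ge

lemma Un.not_ge {f : L} (h : Un w f) : ¬ Ge w 1 f := fun h' => by
  have := h' h.1
  have := h.2
  omega

lemma Ge.un {f : L} (h : Ge w 0 f) (h' : ¬ Ge w 1 f) : Un w f := by
  obtain ⟨h1, h2⟩ := not_ge.mp h'
  have := h h1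
  exact ⟨h1, by omega⟩

lemma Un.add {f g : L} (h : Un w f) (hg : Ge w 1 g) : Un w (f + g) := by
  obtain ⟨h1, h2⟩ := ord_add (w := w) h.1 (g := g) (by rw [h.2]; exact hg)
  exact ⟨h1, h2.trans h.2⟩

lemma Un.mul {f g : L} (h : Un w f) (hg : Un w g) : Un w (f * g) :=
  ⟨mul_ne_zero h.1 hg.1, by rw [ord_mul h.1 hg.1, h.2, hg.2, add_zero]⟩

lemma Un.inv {f : L} (h : Un w f) : Un w f⁻¹ := ⟨inv_ne_zero h.1, by rw [ord_inv, h.2, neg_zero]⟩

lemma Un.cancel {n : ℤ} {f g : L} (h : Un w f) (hg : Ge w n (f * g)) : Ge w n g :=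
  Ge.of_mul h.1 (by rw [h.2, zero_add]; exact hg)

lemma exists_val (o : L → ℤ) (hm : ∀ f g, f ≠ 0 → g ≠ 0 → o (f * g) = o f + o g)
    (ha : ∀ f g, f ≠ 0 → g ≠ 0 → f + g ≠ 0 → min (o f) (o g) ≤ o (f + g)) :
    ∃ w : Val L, ∀ f, f ≠ 0 → ord w f = o f := by
  classical
  have h1 : o 1 = 0 := by have := hm 1 1 one_ne_zero one_ne_zero; rw [mul_one] at this; omega
  refine ⟨AddValuation.of (fun f => if f = 0 then ⊤ else (o f : WithTop ℤ)) (by simp) (by simp [h1])
    (fun f g => ?_) (fun f g => ?_), fun f hf => by simp [ord, hf]⟩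
  · by_cases hf : f = 0
    · simp [hf]
    by_cases hg : g = 0
    · simp [hg]
    by_cases hfg : f + g = 0
    · simp [hfg]
    simp only [hf, hg, hfg, if_false]
    exact_mod_cast ha f g hf hg hfg
  · by_cases hf : f = 0
    · simp [hf]
    by_cases hg : g = 0
    · simp [hg]
    simp only [hf, hg, mul_ne_zero hf hg, if_false]
    exact_mod_cast hm f g hf hg

lemma exists_val_frac (R : Subring L) (hR : ∀ z : L, ∃ a ∈ R, ∃ b ∈ R, b ≠ 0 ∧ z = a / b) (o : L → ℤ)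
    (hm : ∀ f ∈ R, ∀ g ∈ R, f ≠ 0 → g ≠ 0 → o (f * g) = o f + o g)
    (ha : ∀ f ∈ R, ∀ g ∈ R, f ≠ 0 → g ≠ 0 → f + g ≠ 0 → min (o f) (o g) ≤ o (f + g)) :
    ∃ w : Val L, ∀ f ∈ R, f ≠ 0 → ord w f = o f := by
  choose a haR b hbR hb e using hR
  have ha0 : ∀ z, z ≠ 0 → a z ≠ 0 := fun z hz h => hz (by rw [e z, h, zero_div])
  have key : ∀ p ∈ R, ∀ q ∈ R, p ≠ 0 → q ≠ 0 → o (a (p / q)) - o (b (p / q)) = o p - o q := by
    intro p hp q hq hp0 hq0
    have h1 := e (p / q)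
    rw [div_eq_div_iff hq0 (hb _)] at h1
    have h2 := hm p hp _ (hbR (p / q)) hp0 (hb _)
    have h3 := hm _ (haR (p / q)) q hq (ha0 _ (div_ne_zero hp0 hq0)) hq0
    rw [h1] at h2
    omega
  obtain ⟨w, hw⟩ := exists_val (fun z => o (a z) - o (b z)) (fun f g hf hg => by
    have h1 : f * g = (a f * a g) / (b f * b g) := by rw [← div_mul_div_comm, ← e, ← e]
    rw [h1, key _ (R.mul_mem (haR f) (haR g)) _ (R.mul_mem (hbR f) (hbR g))
      (mul_ne_zero (ha0 f hf) (ha0 g hg)) (mul_ne_zero (hb f) (hb g)),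
      hm _ (haR f) _ (haR g) (ha0 f hf) (ha0 g hg), hm _ (hbR f) _ (hbR g) (hb f) (hb g)]
    ring) (fun f g hf hg hfg => by
    have h1 : f + g = (a f * b g + b f * a g) / (b f * b g) := by
      rw [← div_add_div _ _ (hb f) (hb g), ← e, ← e]
    have h2 : a f * b g + b f * a g ≠ 0 := fun h => hfg (by rw [h1, h, zero_div])
    have h3 := ha _ (R.mul_mem (haR f) (hbR g)) _ (R.mul_mem (hbR f) (haR g))
      (mul_ne_zero (ha0 f hf) (hb g)) (mul_ne_zero (hb f) (ha0 g hg)) h2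
    rw [hm _ (haR f) _ (hbR g) (ha0 f hf) (hb g), hm _ (hbR f) _ (haR g) (hb f) (ha0 g hg)] at h3
    rw [h1, key _ (R.add_mem (R.mul_mem (haR f) (hbR g)) (R.mul_mem (hbR f) (haR g))) _
      (R.mul_mem (hbR f) (hbR g)) h2 (mul_ne_zero (hb f) (hb g)),
      hm _ (hbR f) _ (hbR g) (hb f) (hb g)]
    omega)
  refine ⟨w, fun f hf hf0 => ?_⟩
  have h1 := key f hf 1 R.one_mem hf0 one_ne_zero
  have h2 := hm 1 R.one_mem 1 R.one_mem one_ne_zero one_ne_zero
  rw [div_one] at h1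
  rw [mul_one] at h2
  rw [hw f hf0]
  omega

lemma ge_of_integral {B : Type} [CommRing B] [Algebra B L] (hB : ∀ b, Ge w 0 (algebraMap B L b))
    {z : L} (hz : IsIntegral B z) : Ge w 0 z := by
  obtain ⟨p, hp, hz⟩ := hz
  intro hz0
  by_contra hlt
  rw [hp.as_sum, eval₂_add, eval₂_X_pow, eval₂_finsetSum, add_eq_zero_iff_eq_neg] at hz
  have h1 : Ge w (p.natDegree * ord w z + 1) (z ^ p.natDegree) := by
    rw [hz]
    refine (Ge.sum fun i hi => ?_).neg
    rw [eval₂_mul, eval₂_C, eval₂_X_pow]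
    refine (hB _).mul0 fun _ => ?_
    rw [ord_pow]
    have := Finset.mem_range.mp hi
    nlinarith
  have := h1 (pow_ne_zero _ hz0)
  rw [ord_pow] at this
  omega

end Basic

section Frame

variable {L : Type} [Field L] [Algebra ℂ L] {w : Val L}

/-- the residue of `s` is transcendental -/
def RT (w : Val L) (s : L) : Prop := ∀ p : ℂ[X], p ≠ 0 → Un w (aeval s p)

/-- the valuation is trivial on the constants -/
def Triv (w : Val L) : Prop := ∀ c : ℂ, c ≠ 0 → Un w (algebraMap ℂ L c)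

lemma RT.triv {s : L} (h : RT w s) : Triv w := fun c hc => by
  simpa using h (C c) (C_ne_zero.mpr hc)

lemma RT.un {s : L} (h : RT w s) : Un w s := by simpa using h X X_ne_zero

lemma Triv.ge (h : Triv w) (c : ℂ) : Ge w 0 (algebraMap ℂ L c) := fun hc =>
  (h c fun e => hc (by rw [e, map_zero])).2.ge

lemma Triv.int (h : Triv w) {n : ℤ} (hn : n ≠ 0) : Un w (n : L) := by
  simpa using h n (Int.cast_ne_zero.mpr hn)

lemma Triv.intge (h : Triv w) (n : ℤ) : Ge w 0 (n : L) := by simpa using h.ge n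

lemma Triv.natge (h : Triv w) (n : ℕ) : Ge w 0 (n : L) := by simpa using h.ge n

lemma Triv.aeval (h : Triv w) {z : L} (hz : Ge w 0 z) (p : ℂ[X]) : Ge w 0 (aeval z p) := by
  induction p using Polynomial.induction_on' with
  | add p q hp hq => rw [map_add]; exact hp.add hq
  | monomial n a => rw [aeval_monomial]; exact (h.ge a).mul0 (hz.pow n)

/-- evaluation of a polynomial in two variables -/
noncomputable def ev2 (s h : L) : ℂ[X][X] →+* L :=
  eval₂RingHom (aeval s : ℂ[X] →ₐ[ℂ] L).toRingHom h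

lemma ev2_C (s h : L) (p : ℂ[X]) : ev2 s h (C p) = aeval s p := by simp [ev2]

lemma ev2_X (s h : L) : ev2 s h X = h := by simp [ev2]

lemma ev2_monomial (s h : L) (n : ℕ) (p : ℂ[X]) : ev2 s h (monomial n p) = aeval s p * h ^ n := by
  simp [ev2]

lemma Triv.ev2 (h : Triv w) {s z : L} (hs : Ge w 0 s) (hz : Ge w 0 z) (P : ℂ[X][X]) :
    Ge w 0 (ev2 s z P) := by
  induction P using Polynomial.induction_on' with
  | add p q hp hq => rw [map_add]; exact hp.add hq
  | monomial n a => rw [ev2_monomial]; exact (h.aeval hs a).mul0 (hz.pow n)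

lemma ev2_split (s e : L) (P : ℂ[X][X]) :
    ev2 s e P = aeval s (P.coeff 0) + e * ev2 s e P.divX := by
  conv_lhs => rw [← P.divX_mul_X_add]
  rw [map_add, map_mul, ev2_X, ev2_C]; ring

lemma deriv_ev2 (ht : Triv w) {s h : L} (hs : Ge w 0 s) (hh : Ge w 0 h) (D : Derivation ℂ L L)
    (P : ℂ[X][X]) : ∃ Q, Ge w 0 Q ∧ D (ev2 s h P) = Q * D s + ev2 s h (derivative P) * D h := by
  induction P using Polynomial.induction_on' with
  | add p q hp hq =>
    obtain ⟨Q1, a1, b1⟩ := hp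
    obtain ⟨Q2, a2, b2⟩ := hq
    exact ⟨Q1 + Q2, a1.add a2, by simp only [map_add, b1, b2]; ring⟩
  | monomial n a =>
    refine ⟨aeval s (derivative a) * h ^ n, (ht.aeval hs _).mul0 (hh.pow n), ?_⟩
    rw [derivative_monomial, ev2_monomial, ev2_monomial, D.leibniz, D.comp_aeval_eq, D.leibniz_pow]
    simp only [smul_eq_mul, nsmul_eq_mul, map_mul, map_natCast]
    ring

/-- a function of positive order and a function with transcendental residue -/
structure Frame (w : Val L) (e s : L) : Prop where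
  ne : e ≠ 0
  pos : 0 < ord w e
  rt : RT w s

variable {e s : L}

lemma Frame.ge1 (F : Frame w e s) : Ge w 1 e := fun _ => F.pos

lemma Frame.ev_ge (F : Frame w e s) (P : ℂ[X][X]) : Ge w 0 (ev2 s e P) :=
  F.rt.triv.ev2 F.rt.un.ge (F.ge1.mono zero_le_one) P

lemma Frame.ev_un (F : Frame w e s) {P : ℂ[X][X]} (h : P.coeff 0 ≠ 0) : Un w (ev2 s e P) := by
  rw [ev2_split]
  exact (F.rt _ h).add (F.ge1.mul (F.ev_ge _))

lemma Frame.ev_ge1 (F : Frame w e s) {P : ℂ[X][X]} (h : P.coeff 0 = 0) : Ge w 1 (ev2 s e P) := by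
  rw [ev2_split, h, map_zero, zero_add]
  exact F.ge1.mul (F.ev_ge _)

lemma Frame.inj (F : Frame w e s) : Function.Injective (ev2 s e) := by
  refine (injective_iff_map_eq_zero _).mpr fun P hP => by_contra fun h0 => ?_
  obtain ⟨n, Q, hQ, rfl⟩ := WfDvdMonoid.max_power_factor' h0 (not_isUnit_X (R := ℂ[X]))
  rw [map_mul, map_pow, ev2_X] at hP
  exact mul_ne_zero (pow_ne_zero _ F.ne) (F.ev_un (mt X_dvd_iff.mpr hQ)).1 hP

lemma Frame.alg (F : Frame w e s) (ht : Algebra.trdeg ℂ L = 2) :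
    letI := (ev2 s e).toAlgebra
    Algebra.IsAlgebraic ℂ[X][X] L := by
  letI := (ev2 s e).toAlgebra
  have : IsScalarTower ℂ ℂ[X][X] L := .of_algebraMap_eq fun c => by
    simp [RingHom.algebraMap_toAlgebra, ev2]
  have : FaithfulSMul ℂ[X][X] L := (faithfulSMul_iff_algebraMap_injective _ _).mpr F.inj
  have h1 := trdeg_add_eq ℂ ℂ[X] (A := ℂ[X][X])
  have h2 := trdeg_add_eq ℂ ℂ[X][X] (A := L)
  rw [Polynomial.trdeg_of_isDomain, Polynomial.trdeg_of_isDomain] at h1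
  rw [← h1, ht, one_add_one_eq_two] at h2
  refine trdeg_eq_zero_iff.mp ?_
  have h3 : Algebra.trdeg ℂ[X][X] L + (2 : ℕ) = 0 + (2 : ℕ) := by
    rw [add_comm, zero_add]; exact_mod_cast h2
  exact (Cardinal.add_nat_inj _).mp h3

lemma Frame.rel (F : Frame w e s) (ht : Algebra.trdeg ℂ L = 2) (z : L) :
    ∃ q : ℂ[X][X][X], (∃ i, (q.coeff i).coeff 0 ≠ 0) ∧ q.eval₂ (ev2 s e) z = 0 := by
  letI := (ev2 s e).toAlgebra
  obtain ⟨q, hq, hz⟩ := (F.alg ht).isAlgebraic z
  obtain ⟨n, Q, hQ, rfl⟩ := WfDvdMonoid.max_power_factor' (α := ℂ[X][X][X]) hq (x := C X)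
    (fun h => not_isUnit_X (R := ℂ[X]) (isUnit_C.mp h))
  refine ⟨Q, ?_, ?_⟩
  · rw [C_dvd_iff_dvd_coeff] at hQ
    push Not at hQ
    obtain ⟨i, hi⟩ := hQ
    exact ⟨i, mt X_dvd_iff.mpr hi⟩
  · rw [map_mul, map_pow, aeval_C, RingHom.algebraMap_toAlgebra, ev2_X] at hz
    exact (mul_eq_zero.mp hz).resolve_left (pow_ne_zero _ F.ne)

lemma Frame.res (F : Frame w e s) (ht : Algebra.trdeg ℂ L = 2) {z : L} (hz : Ge w 0 z) :
    ∃ P : ℂ[X][X], P ≠ 0 ∧ Ge w 1 (ev2 s z P) := by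
  obtain ⟨q, ⟨i, hi⟩, hq⟩ := F.rel ht z
  refine ⟨q.map constantCoeff, fun h => hi ?_, ?_⟩
  · simpa using congrArg (fun P => P.coeff i) h
  · have key : ∀ q : ℂ[X][X][X], Ge w 1 (q.eval₂ (ev2 s e) z - ev2 s z (q.map constantCoeff)) := by
      intro q
      induction q using Polynomial.induction_on' with
      | add p q hp hq =>
        rw [eval₂_add, Polynomial.map_add, map_add, add_sub_add_comm]
        exact hp.add hq
      | monomial n a =>
        rw [eval₂_monomial, map_monomial, ev2_monomial, ← sub_mul, ev2_split, constantCoeff_apply,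
          add_sub_cancel_left]
        exact (F.ge1.mul (F.ev_ge _)).mul (hz.pow n)
    have := (key q).neg
    rwa [hq, zero_sub, neg_neg] at this

lemma Frame.horner (F : Frame w e s) (ht : Algebra.trdeg ℂ L = 2) {z : L} (hz : Ge w 0 z) :
    ∃ c, Un w c ∧ ∀ V : ValuationSubring L, (∀ P, ev2 s e P ∈ V) → c ∈ V ∧ c * z ∈ V := by
  classical
  obtain ⟨q, ⟨i, hi⟩, hq⟩ := F.rel ht z
  let c : ℕ → L := fun j => (divX^[j] q).eval₂ (ev2 s e) z
  have hco : ∀ j k, (divX^[j] q).coeff k = q.coeff (k + j) := by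
    intro j
    induction j with
    | zero => intro k; rfl
    | succ j ih => intro k; rw [Function.iterate_succ_apply', coeff_divX, ih]; congr 1; ring
  have hrec : ∀ j, c j = c (j + 1) * z + ev2 s e (q.coeff j) := by
    intro j
    simp only [c]
    conv_lhs => rw [← (divX^[j] q).divX_mul_X_add]
    rw [eval₂_add, eval₂_mul_X, eval₂_C, Function.iterate_succ_apply', hco, zero_add]
  have hV : ∀ V : ValuationSubring L, (∀ P, ev2 s e P ∈ V) → ∀ j, c j ∈ V := by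
    intro V hV j
    by_cases hzV : z ∈ V
    · simp only [c, eval₂_eq_sum_range]
      exact sum_mem fun k _ => mul_mem (hV _) (pow_mem hzV _)
    · have hz0 : z ≠ 0 := fun h => hzV (h ▸ V.zero_mem)
      induction j with
      | zero => exact (show c 0 = 0 from hq) ▸ V.zero_mem
      | succ j ih =>
        have : c (j + 1) = (c j - ev2 s e (q.coeff j)) * z⁻¹ := by rw [hrec j]; field_simp; ring
        rw [this]
        exact mul_mem (sub_mem ih (hV _)) ((V.mem_or_inv_mem z).resolve_left hzV)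
  have hile : i ≤ q.natDegree := le_natDegree_of_ne_zero fun h => hi (by rw [h, coeff_zero])
  let j := Nat.findGreatest (fun k => (q.coeff k).coeff 0 ≠ 0) q.natDegree
  have hj : (q.coeff j).coeff 0 ≠ 0 := Nat.findGreatest_spec (P := fun k => (q.coeff k).coeff 0 ≠ 0) hile hi
  have hj' : ∀ k, j < k → (q.coeff k).coeff 0 = 0 := by
    intro k hk
    by_cases hkn : k ≤ q.natDegree
    · exact of_not_not (Nat.findGreatest_is_greatest hk hkn)
    · rw [coeff_eq_zero_of_natDegree_lt (not_le.mp hkn), coeff_zero]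
  have hun : Un w (c j) := by
    rw [hrec, add_comm]
    refine (F.ev_un hj).add (Ge.mul (m := 1) ?_ hz)
    simp only [c, eval₂_eq_sum_range]
    exact Ge.sum fun k _ => (F.ev_ge1 (by rw [hco]; exact hj' _ (by omega))).mul (hz.pow k)
  obtain ⟨k, hk⟩ : ∃ k, j = k + 1 :=
    Nat.exists_eq_succ_of_ne_zero fun h => hun.1 (by rw [h]; exact hq)
  refine ⟨c j, hun, fun V h => ⟨hV V h j, ?_⟩⟩
  rw [hk, ← sub_eq_iff_eq_add.mpr (hrec k)]
  exact sub_mem (hV V h k) (h _)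

lemma Frame.bdd [Algebra.EssFiniteType ℂ L] (F : Frame w e s) (ht : Algebra.trdeg ℂ L = 2)
    (D : Derivation ℂ L L) : ∃ N : ℤ, ∀ z, Ge w 0 z → Ge w N (D z) := by
  classical
  letI := (ev2 s e).toAlgebra
  have : IsScalarTower ℂ ℂ[X][X] L := .of_algebraMap_eq fun c => by
    simp [RingHom.algebraMap_toAlgebra, ev2]
  have : FaithfulSMul ℂ[X][X] L := (faithfulSMul_iff_algebraMap_injective _ _).mpr F.inj
  have := F.alg ht
  letI := FractionRing.liftAlgebra ℂ[X][X] L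
  have := FractionRing.isScalarTower_liftAlgebra ℂ[X][X] L
  have : Algebra.EssFiniteType ℂ[X][X] L := .of_comp ℂ _ _
  have : Algebra.EssFiniteType (FractionRing ℂ[X][X]) L := .of_comp ℂ[X][X] _ _
  have : Algebra.IsAlgebraic (FractionRing ℂ[X][X]) L :=
    (IsFractionRing.comap_isAlgebraic_iff (A := ℂ[X][X])).mp ‹_›
  have : Module.Finite (FractionRing ℂ[X][X]) L := Algebra.finite_of_essFiniteType_of_isAlgebraic
  have := IsIntegralClosure.finite ℂ[X][X] (FractionRing ℂ[X][X]) L (integralClosure ℂ[X][X] L)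
  have : Algebra.FiniteType ℂ (integralClosure ℂ[X][X] L) :=
    .trans (S := ℂ[X][X]) (.trans (S := ℂ[X]) inferInstance inferInstance) inferInstance
  obtain ⟨t, ht'⟩ := Algebra.FiniteType.out (R := ℂ) (A := integralClosure ℂ[X][X] L)
  have h0 : ∀ y : integralClosure ℂ[X][X] L, Ge w 0 (y : L) := fun y => ge_of_integral F.ev_ge y.2
  obtain ⟨N, hN⟩ := (t.image fun y : integralClosure ℂ[X][X] L => ord w (D y)).bddBelow
  have h1 : ∀ y : integralClosure ℂ[X][X] L, Ge w N (D y) := by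
    intro y
    have hy : y ∈ Algebra.adjoin ℂ (t : Set (integralClosure ℂ[X][X] L)) := ht' ▸ Algebra.mem_top
    induction hy using Algebra.adjoin_induction with
    | mem x hx => exact fun _ => hN (Finset.mem_coe.mpr (Finset.mem_image_of_mem _ hx))
    | algebraMap r =>
      have : ((algebraMap ℂ (integralClosure ℂ[X][X] L) r : integralClosure ℂ[X][X] L) : L) =
          algebraMap ℂ L r := (IsScalarTower.algebraMap_apply ℂ _ L r).symm
      rw [this, D.map_algebraMap]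
      exact Ge.zero _
    | add x y _ _ hx hy => rw [Subalgebra.coe_add, map_add]; exact hx.add hy
    | mul x y _ _ hx hy =>
      rw [Subalgebra.coe_mul, D.leibniz]
      exact ((h0 x).mul0 hy).add ((h0 y).mul0 hx)
  have : IsIntegrallyClosedIn (integralClosure ℂ[X][X] L).toSubring L :=
    inferInstanceAs (IsIntegrallyClosedIn (integralClosure ℂ[X][X] L) L)
  refine ⟨N, fun z hz => ?_⟩
  obtain ⟨c, hc, hV⟩ := F.horner ht hz
  have hmem : ∀ y, (∀ V : ValuationSubring L, (∀ P, ev2 s e P ∈ V) → y ∈ V) →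
      y ∈ integralClosure ℂ[X][X] L := by
    intro y hy
    by_contra hn
    obtain ⟨V, h2, h3⟩ := Subring.exists_le_valuationSubring_of_isIntegrallyClosedIn
      (R := (integralClosure ℂ[X][X] L).toSubring) hn
    exact h3 (hy V fun P => h2 ((integralClosure ℂ[X][X] L).algebraMap_mem P))
  have a1 := h1 ⟨c, hmem _ fun V h => (hV V h).1⟩
  have a2 := h1 ⟨c * z, hmem _ fun V h => (hV V h).2⟩
  refine hc.cancel ?_
  have e1 : c * D z = D (c * z) - z * D c := by rw [D.leibniz]; simp only [smul_eq_mul]; ring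
  rw [e1]
  exact a2.sub (hz.mul0 a1)

/-- the logarithmic order of `D` is at least `k` -/
def Reg (w : Val L) (k : ℤ) (D : Derivation ℂ L L) : Prop := ∀ g, Ge w (ord w g + k) (D g)

lemma Reg.mono {j k : ℤ} {D : Derivation ℂ L L} (h : Reg w k D) (hj : j ≤ k) : Reg w j D :=
  fun g => (h g).mono (by omega)

lemma Reg.ge {k n : ℤ} {D : Derivation ℂ L L} (h : Reg w k D) {g : L} (hg : Ge w n g) :
    Ge w (n + k) (D g) := by
  by_cases h0 : g = 0
  · rw [h0, map_zero]; exact Ge.zero _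
  · exact (h g).mono (by have := hg h0; omega)

lemma Frame.preg (F : Frame w e s) (ht : Algebra.trdeg ℂ L = 2) {D : Derivation ℂ L L} {k : ℤ}
    (hD : Reg w (k - 1) D) (hs : Ge w k (D s)) {h : L} (hh : Ge w 0 h) : Ge w k (D h) := by
  obtain ⟨P, hP0, hP⟩ := F.res ht hh
  induction hn : P.natDegree using Nat.strong_induction_on generalizing P with
  | _ n ih =>
    by_cases hd : P.natDegree = 0
    · rw [eq_C_of_natDegree_eq_zero hd, ev2_C] at hP
      refine absurd hP (F.rt _ fun h0 => hP0 ?_).not_ge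
      rw [eq_C_of_natDegree_eq_zero hd, h0, C_0]
    by_cases h1 : Ge w 1 (ev2 s h (derivative P))
    · exact ih _ (hn ▸ natDegree_derivative_lt hd) _
        (fun h0 => hd (derivative_eq_zero.mp h0)) h1 rfl
    obtain ⟨Q, hQ, eQ⟩ := deriv_ev2 F.rt.triv F.rt.un.ge hh D P
    refine ((F.rt.triv.ev2 F.rt.un.ge hh _).un h1).cancel ?_
    rw [← sub_eq_iff_eq_add'.mpr eQ]
    exact ((hD.ge hP).mono (by omega)).sub (hQ.mul0 hs)

lemma Frame.reg_of_units (F : Frame w e s) {D : Derivation ℂ L L} {j : ℤ}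
    (he : Ge w (ord w e + j) (D e)) (hu : ∀ u, Un w u → Ge w j (D u)) : Reg w j D := by
  intro g
  by_cases hg : g = 0
  · rw [hg, map_zero]; exact Ge.zero _
  have hun : Un w (g ^ ord w e * e ^ (-ord w g)) :=
    ⟨mul_ne_zero (zpow_ne_zero _ hg) (zpow_ne_zero _ F.ne), by
      rw [ord_mul (zpow_ne_zero _ hg) (zpow_ne_zero _ F.ne), ord_zpow, ord_zpow]; ring⟩
  have h1 := hun.inv.ge.mul0 (hu _ hun)
  have e1 : (g ^ ord w e * e ^ (-ord w g))⁻¹ * D (g ^ ord w e * e ^ (-ord w g)) =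
      (ord w e : L) * (g⁻¹ * D g) - (ord w g : L) * (e⁻¹ * D e) := by
    rw [D.leibniz, D.leibniz_zpow, D.leibniz_zpow, zpow_sub_one₀ hg, zpow_sub_one₀ F.ne]
    have := zpow_ne_zero (ord w e) hg
    have := zpow_ne_zero (-ord w g) F.ne
    simp only [smul_eq_mul, zsmul_eq_mul, Int.cast_neg]
    field_simp
    ring
  have h2 : Ge w j (e⁻¹ * D e) := ((Ge.self e⁻¹).mul he).mono (by rw [ord_inv]; omega)
  rw [e1] at h1
  have h3 := h1.add ((F.rt.triv.intge (ord w g)).mul0 h2)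
  rw [sub_add_cancel] at h3
  have h4 := (Ge.self g).mul ((F.rt.triv.int F.pos.ne').cancel h3)
  rwa [mul_inv_cancel_left₀ hg] at h4

lemma Frame.reg [Algebra.EssFiniteType ℂ L] (F : Frame w e s) (ht : Algebra.trdeg ℂ L = 2)
    {D : Derivation ℂ L L} {k : ℤ} (he : Ge w (ord w e + k) (D e)) (hs : Ge w k (D s)) :
    Reg w k D := by
  obtain ⟨N, hN⟩ := F.bdd ht D
  have h0 : Reg w (min N k) D :=
    F.reg_of_units (he.mono (by omega)) fun u hu => (hN u hu.ge).mono (min_le_left _ _)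
  have : ∀ j, min N k ≤ j → j ≤ k → Reg w j D := by
    intro j hj
    induction j, hj using Int.leInduction with
    | base => exact fun _ => h0
    | succ j _ ih =>
      intro hjk
      exact F.reg_of_units (he.mono (by omega)) fun u hu =>
        F.preg ht (by simpa using ih (by omega)) (hs.mono hjk) hu.ge
  exact this k (min_le_right _ _) le_rfl

end Frame

end Pool.Agent.MP_c54dba_ag

end

-- part MP_c54dba_ag.Lo
section

/-! Logarithmic orders of vector fields and bivectors; the functions `can` and `eps`. -/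

set_option autoImplicit false

namespace Pool.Agent.MP_c54dba_ag

open Polynomial

section Lo

variable {L : Type} [Field L] [Algebra ℂ L] {w : Val L} {e s : L} {D D1 D2 : Derivation ℂ L L}

/-- the bivector `D1 ∧ D2` on `df ∧ dg` -/
def J (D1 D2 : Derivation ℂ L L) (f g : L) : L := D1 f * D2 g - D1 g * D2 f

/-- `J D1 D2 f` as a derivation -/
noncomputable def JD (D1 D2 : Derivation ℂ L L) (f : L) : Derivation ℂ L L := D1 f • D2 - D2 f • D1

lemma JD_apply (f g : L) : JD D1 D2 f g = J D1 D2 f g := by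
  simp only [JD, J, Derivation.coe_sub, Derivation.coe_smul, Pi.sub_apply, Pi.smul_apply, smul_eq_mul]
  ring

lemma J_swap (f g : L) : J D1 D2 f g = -J D1 D2 g f := by simp only [J]; ring

lemma J_self (f : L) : J D1 D2 f f = 0 := by simp only [J]; ring

/-- logarithmic order of a bivector, lower bound -/
def Reg2 (w : Val L) (k : ℤ) (D1 D2 : Derivation ℂ L L) : Prop :=
  ∀ f g, Ge w (ord w f + ord w g + k) (J D1 D2 f g)

/-- logarithmic order of a vector field -/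
def IsLo (w : Val L) (D : Derivation ℂ L L) (k : ℤ) : Prop :=
  Reg w k D ∧ ∃ g, D g ≠ 0 ∧ ord w (D g) = ord w g + k

/-- order of a vector field -/
def IsPo (w : Val L) (D : Derivation ℂ L L) (k : ℤ) : Prop :=
  (∀ f, Ge w 0 f → Ge w k (D f)) ∧ ∃ g, Ge w 0 g ∧ D g ≠ 0 ∧ ord w (D g) = k

lemma IsLo.le {k j : ℤ} (h : IsLo w D k) (hj : Reg w j D) : j ≤ k := by
  obtain ⟨g, h1, h2⟩ := h.2
  have := hj g h1
  omega

lemma IsPo.unique {k j : ℤ} (h : IsPo w D k) (h' : IsPo w D j) : k = j := by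
  obtain ⟨g, h1, h2, h3⟩ := h.2
  obtain ⟨g', h1', h2', h3'⟩ := h'.2
  have := h.1 g' h1' h2'
  have := h'.1 g h1 h2
  omega

lemma Reg.smul {k n : ℤ} (h : Reg w k D) {c : L} (hc : Ge w n c) : Reg w (n + k) (c • D) := fun g =>
  (hc.mul (h g)).mono (by omega)

lemma IsLo.smul {k : ℤ} (h : IsLo w D k) {c : L} (hc : c ≠ 0) : IsLo w (c • D) (ord w c + k) := by
  obtain ⟨g, h1, h2⟩ := h.2
  refine ⟨h.1.smul (Ge.self c), g, mul_ne_zero hc h1, ?_⟩
  rw [Derivation.smul_apply, smul_eq_mul, ord_mul hc h1, h2]; ring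

lemma Reg.comm {k j : ℤ} (h1 : Reg w k D1) (h2 : Reg w j D2) : Reg w (k + j) ⁅D1, D2⁆ := fun g => by
  rw [Derivation.commutator_apply]
  exact ((h1.ge (h2 g)).mono (by omega)).sub ((h2.ge (h1 g)).mono (by omega))

variable [Algebra.EssFiniteType ℂ L] (F : Frame w e s) (ht : Algebra.trdeg ℂ L = 2)
include F ht

lemma Frame.ext (he : D e = 0) (hs : D s = 0) : D = 0 := by
  ext g
  refine Ge.of_all (w := w) fun n => ?_
  have := F.reg ht (D := D) (k := n - ord w g) (he ▸ Ge.zero _) (hs ▸ Ge.zero _) g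
  rwa [add_sub_cancel] at this

lemma Frame.reg2 {k : ℤ} (h : Ge w (ord w e + k) (J D1 D2 e s)) : Reg2 w k D1 D2 := by
  have h1 : Reg w (ord w e + k) (JD D1 D2 e) :=
    F.reg ht (by rw [JD_apply, J_self]; exact Ge.zero _) (by rwa [JD_apply])
  have h2 : Reg w k (JD D1 D2 s) :=
    F.reg ht (by rw [JD_apply, J_swap]; exact h.neg) (by rw [JD_apply, J_self]; exact Ge.zero _)
  intro f g
  have h3 : Reg w (ord w f + k) (JD D1 D2 f) := F.reg ht
    (by rw [JD_apply, J_swap, ← JD_apply]; exact ((h1 f).mono (by omega)).neg)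
    (by rw [JD_apply, J_swap, ← JD_apply]; exact (h2 f).neg)
  rw [← JD_apply]
  exact (h3 g).mono (by omega)

lemma Frame.po (h1 : ord w e = 1) {k : ℤ} (he : Ge w k (D e)) (hs : Ge w k (D s)) {f : L}
    (hf : Ge w 0 f) : Ge w k (D f) :=
  F.preg ht (F.reg ht (he.mono (by omega)) (hs.mono (by omega))) hs hf

lemma Frame.po2 (h1 : ord w e = 1) {k : ℤ} (h : Ge w k (J D1 D2 e s)) {f g : L} (hf : Ge w 0 f)
    (hg : Ge w 0 g) : Ge w k (J D1 D2 f g) := by
  rw [← JD_apply]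
  refine F.po ht h1 ?_ ?_ hg
  · rw [JD_apply, J_swap, ← JD_apply]
    exact (F.po ht h1 (by rw [JD_apply, J_self]; exact Ge.zero _) (by rwa [JD_apply]) hf).neg
  · rw [JD_apply, J_swap, ← JD_apply]
    exact (F.po ht h1 (by rw [JD_apply, J_swap]; exact h.neg)
      (by rw [JD_apply, J_self]; exact Ge.zero _) hf).neg

lemma Frame.J_ne {τ : Fin 2 → Derivation ℂ L L} (h : LinearIndependent L τ) :
    J (τ 0) (τ 1) e s ≠ 0 := by
  intro h0
  have key : ∀ f, JD (τ 0) (τ 1) f = 0 → τ 0 f = 0 := by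
    intro f hf
    have := Fintype.linearIndependent_iff.mp h ![-τ 1 f, τ 0 f] (by
      rw [Fin.sum_univ_two, ← hf, JD]; simp [sub_eq_neg_add]) 1
    simpa using this
  refine h.ne_zero 0 (F.ext ht (key e (F.ext ht ?_ ?_)) (key s (F.ext ht ?_ ?_)))
  · rw [JD_apply, J_self]
  · rw [JD_apply, h0]
  · rw [JD_apply, J_swap, h0, neg_zero]
  · rw [JD_apply, J_self]

lemma Frame.rank_le {κ : Type} [Fintype κ] {δ : κ → Derivation ℂ L L} (h : LinearIndependent L δ) :
    Fintype.card κ ≤ 2 := by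
  let φ : Derivation ℂ L L →ₗ[L] L × L :=
    { toFun := fun D => (D e, D s), map_add' := fun _ _ => rfl, map_smul' := fun _ _ => rfl }
  have := (h.map' φ (LinearMap.ker_eq_bot'.mpr fun D hD =>
    F.ext ht (congrArg Prod.fst hD) (congrArg Prod.snd hD))).fintype_card_le_finrank
  simpa using this

omit F ht in
lemma can_eq {r : ℕ} {δ : Fin r → Derivation ℂ L L} {k : ℤ}
    (h1 : ∀ f : Fin r → L, (∀ j, Ge w 0 (f j)) → Ge w k (Matrix.det (Matrix.of fun i j => δ i (f j))))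
    (f : Fin r → L) (h2 : ∀ j, Ge w 0 (f j)) (h3 : Matrix.det (Matrix.of fun i j => δ i (f j)) ≠ 0)
    (h4 : ord w (Matrix.det (Matrix.of fun i j => δ i (f j))) = k) : can δ w = -k := by
  unfold can
  congr 1
  refine IsLeast.csInf_eq ⟨⟨f, fun j => ge0_iff.mp (h2 j), val_eq_iff.mpr ⟨h3, h4⟩⟩, ?_⟩
  rintro n ⟨g, a1, a2⟩
  obtain ⟨b1, rfl⟩ := val_eq_iff.mp a2
  exact h1 g (fun j => ge0_iff.mpr (a1 j)) b1

lemma Frame.can_two (h1 : ord w e = 1) {τ : Fin 2 → Derivation ℂ L L} (h : LinearIndependent L τ) :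
    can τ w = -ord w (J (τ 0) (τ 1) e s) := by
  have e1 : ∀ f : Fin 2 → L, Matrix.det (Matrix.of fun i j => τ i (f j)) = J (τ 0) (τ 1) (f 0) (f 1) :=
    fun f => by rw [Matrix.det_fin_two]; rfl
  refine can_eq (fun f hf => ?_) ![e, s] (fun j => ?_) (by rw [e1]; exact F.J_ne ht h) (by rw [e1]; rfl)
  · rw [e1]; exact F.po2 ht h1 (Ge.self _) (hf 0) (hf 1)
  · fin_cases j
    · exact F.ge1.mono zero_le_one
    · exact F.rt.un.ge

lemma Frame.can_one (h1 : ord w e = 1) {δ : Fin 1 → Derivation ℂ L L} (h : LinearIndependent L δ) :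
    IsPo w (δ 0) (-can δ w) ∧ ∃ ε : ℤ, (ε = 0 ∨ ε = 1) ∧ eps δ w = ε ∧
      IsLo w (δ 0) (-can δ w - ε) := by
  have he0 := F.ge1.mono zero_le_one
  obtain ⟨k, a1, a2, a3⟩ : ∃ k, Ge w k (δ 0 e) ∧ Ge w k (δ 0 s) ∧
      ((δ 0 e ≠ 0 ∧ ord w (δ 0 e) = k) ∨ (Ge w (k + 1) (δ 0 e) ∧ δ 0 s ≠ 0 ∧ ord w (δ 0 s) = k)) := by
    by_cases hs : δ 0 s = 0
    · exact ⟨_, Ge.self _, hs ▸ Ge.zero _, Or.inl ⟨fun h0 => h.ne_zero 0 (F.ext ht h0 hs), rfl⟩⟩
    by_cases hc : Ge w (ord w (δ 0 s) + 1) (δ 0 e)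
    · exact ⟨_, hc.mono (by omega), Ge.self _, Or.inr ⟨hc, hs, rfl⟩⟩
    · obtain ⟨b1, b2⟩ := not_ge.mp hc
      exact ⟨_, Ge.self _, fun _ => by omega, Or.inl ⟨b1, rfl⟩⟩
  have hpo : IsPo w (δ 0) k := ⟨fun f hf => F.po ht h1 a1 a2 hf, a3.elim
    (fun b => ⟨e, he0, b⟩) (fun b => ⟨s, F.rt.un.ge, b.2⟩)⟩
  have hcan : can δ w = -k := by
    obtain ⟨g, b1, b2, b3⟩ := hpo.2
    exact can_eq (fun f hf => by rw [Matrix.det_fin_one]; exact hpo.1 _ (hf 0)) ![g]
      (fun j => by fin_cases j; exact b1) (by rw [Matrix.det_fin_one]; exact b2)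
      (by rw [Matrix.det_fin_one]; exact b3)
  rw [hcan, neg_neg]
  refine ⟨hpo, ?_⟩
  rcases a3 with ⟨b1, b2⟩ | ⟨b1, b2, b3⟩
  · refine ⟨1, Or.inr rfl, ?_, F.reg ht (a1.mono (by omega)) (a2.mono (by omega)), e, b1, by omega⟩
    rw [eps, if_neg, Int.cast_one]
    intro hinv
    have := hinv ((δ 0 e)⁻¹ • δ 0) (Submodule.smul_mem _ _ (Submodule.subset_span ⟨0, rfl⟩))
      (fun f hf => ge0_iff.mp (((Ge.self _).mul (hpo.1 f (ge0_iff.mpr hf))).mono (by
        rw [ord_inv]; omega))) e (ge1_iff.mp F.ge1)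
    rw [Derivation.smul_apply, smul_eq_mul, inv_mul_cancel₀ b1, w.map_one] at this
    exact lt_irrefl _ this
  · have hreg : Reg w k (δ 0) := F.reg ht (b1.mono (by omega)) a2
    refine ⟨0, Or.inl rfl, ?_, by rwa [sub_zero], s, b2, by rw [F.rt.un.2]; omega⟩
    rw [eps, if_pos, Int.cast_zero]
    intro θ hθ h0 f hf
    rw [Set.range_unique, Submodule.mem_span_singleton] at hθ
    obtain ⟨c, rfl⟩ := hθ
    have hc : Ge w (-k) c := Ge.of_mul b2 (by
      rw [mul_comm, b3, add_neg_cancel]; exact ge0_iff.mpr (h0 s (ge0_iff.mp F.rt.un.ge)))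
    exact ge1_iff.mp ((hc.mul (hreg.ge (ge1_iff.mpr hf))).mono (by omega))

lemma Frame.eps_two (h1 : ord w e = 1) {δ : Fin 2 → Derivation ℂ L L} (h : LinearIndependent L δ) :
    eps δ w = 1 := by
  have hJ := F.J_ne ht h
  rw [eps, if_neg]
  intro hinv
  have a1 : ((-J (δ 0) (δ 1) e s)⁻¹ • JD (δ 0) (δ 1) s) e = 1 := by
    rw [Derivation.smul_apply, smul_eq_mul, JD_apply, J_swap s e, inv_mul_cancel₀ (neg_ne_zero.mpr hJ)]
  have a2 : ((-J (δ 0) (δ 1) e s)⁻¹ • JD (δ 0) (δ 1) s) s = 0 := by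
    rw [Derivation.smul_apply, smul_eq_mul, JD_apply, J_self, mul_zero]
  have := hinv ((-J (δ 0) (δ 1) e s)⁻¹ • JD (δ 0) (δ 1) s) (Submodule.smul_mem _ _ (Submodule.sub_mem _
    (Submodule.smul_mem _ _ (Submodule.subset_span ⟨1, rfl⟩))
    (Submodule.smul_mem _ _ (Submodule.subset_span ⟨0, rfl⟩))))
    (fun f hf => ge0_iff.mp (F.po ht h1 (a1 ▸ Ge.one) (a2 ▸ Ge.zero _) (ge0_iff.mpr hf))) e
    (ge1_iff.mp F.ge1)
  rw [a1, w.map_one] at this
  exact lt_irrefl _ this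

end Lo

section Over

variable {K L : Type} [Field K] [Field L] [Algebra ℂ K] [Algebra ℂ L] [Algebra K L] [IsScalarTower ℂ K L]
  {E : Val K} {w : Val L} {l : ℤ}

/-- `w` extends `l * E` -/
def Ov (E : Val K) (w : Val L) (l : ℤ) : Prop :=
  0 < l ∧ ∀ f : K, ord w (algebraMap K L f) = l * ord E f

omit [Algebra ℂ K] [Algebra ℂ L] [IsScalarTower ℂ K L] in
lemma Ov.ge (h : Ov E w l) {n : ℤ} {f : K} (hf : Ge E n f) : Ge w (l * n) (algebraMap K L f) := fun h0 => by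
  rw [h.2]
  exact mul_le_mul_of_nonneg_left (hf fun e => h0 (by rw [e, map_zero])) h.1.le

omit [Algebra ℂ K] [Algebra ℂ L] [IsScalarTower ℂ K L] in
lemma Ov.ge0 (h : Ov E w l) {f : K} : Ge E 0 f ↔ Ge w 0 (algebraMap K L f) := by
  simp only [Ge, ne_eq, map_eq_zero, h.2, mul_nonneg_iff_of_pos_left h.1]

omit [Algebra ℂ K] [Algebra ℂ L] [IsScalarTower ℂ K L] in
lemma Ov.ge1 (h : Ov E w l) {f : K} : Ge E 1 f ↔ Ge w 1 (algebraMap K L f) := by
  have e : ∀ n : ℤ, 1 ≤ n ↔ 0 < n := fun n => Iff.rfl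
  simp only [Ge, ne_eq, map_eq_zero, h.2, e, mul_pos_iff_of_pos_left h.1]

lemma Ov.rt (h : Ov E w l) {s : K} : RT E s ↔ RT w (algebraMap K L s) := by
  simp only [RT, Un, aeval_algebraMap_apply, ne_eq, map_eq_zero, h.2, mul_eq_zero, h.1.ne', false_or]

lemma Ov.frame (h : Ov E w l) {e s : K} (F : Frame E e s) :
    Frame w (algebraMap K L e) (algebraMap K L s) :=
  ⟨(_root_.map_ne_zero _).mpr F.ne, by rw [h.2]; exact mul_pos h.1 F.pos, h.rt.mp F.rt⟩

/-- `D'` extends `D` -/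
def Ext (D : Derivation ℂ K K) (D' : Derivation ℂ L L) : Prop :=
  ∀ f, D' (algebraMap K L f) = algebraMap K L (D f)

omit [IsScalarTower ℂ K L] in
lemma Ext.J {D1 D2 : Derivation ℂ K K} {D1' D2' : Derivation ℂ L L} (h1 : Ext D1 D1') (h2 : Ext D2 D2')
    (f g : K) : J D1' D2' (algebraMap K L f) (algebraMap K L g) = algebraMap K L (J D1 D2 f g) := by
  simp only [MP_c54dba_ag.J, h1 _, h2 _, map_sub, map_mul]

variable [Algebra.EssFiniteType ℂ L] (ht : Algebra.trdeg ℂ L = 2)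
  {D : Derivation ℂ K K} {D' : Derivation ℂ L L} {e s : K}
include ht

lemma Ov.isLo (h : Ov E w l) (F : Frame E e s) (hD : Ext D D') {k : ℤ} (hk : IsLo E D k) :
    IsLo w D' (l * k) := by
  obtain ⟨g, h1, h2⟩ := hk.2
  refine ⟨(h.frame F).reg ht ?_ ?_, algebraMap K L g, ?_, ?_⟩
  · rw [hD, h.2, ← mul_add]; exact h.ge (hk.1 e)
  · rw [hD]; exact h.ge (by simpa using hk.1.ge F.rt.un.ge)
  · rw [hD]; exact (_root_.map_ne_zero _).mpr h1
  · rw [hD, h.2, h.2, h2, mul_add]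

lemma Ov.isPo (h : Ov E w 1) (F : Frame E e s) (h1 : ord E e = 1) (hD : Ext D D') {k : ℤ}
    (hk : IsPo E D k) : IsPo w D' k := by
  obtain ⟨g, a1, a2, a3⟩ := hk.2
  refine ⟨fun f hf => (h.frame F).po ht (by rw [h.2, h1, one_mul]) ?_ ?_ hf, algebraMap K L g,
    h.ge0.mp a1, ?_, ?_⟩
  · rw [hD]; simpa using h.ge (hk.1 e (F.ge1.mono zero_le_one))
  · rw [hD]; simpa using h.ge (hk.1 s F.rt.un.ge)
  · rw [hD]; exact (_root_.map_ne_zero _).mpr a2
  · rw [hD, h.2, a3, one_mul]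

end Over

end Pool.Agent.MP_c54dba_ag

end

-- part MP_c54dba_ag.Chart
section

/-! Coordinates on a smooth surface germ, Newton sets, initial forms and monomial valuations. -/

set_option autoImplicit false

namespace Pool.Agent.MP_c54dba_ag

open Polynomial IsLocalRing

variable {L : Type} [Field L] [Algebra ℂ L] {R : Subalgebra ℂ L} [IsLocalRing R]

/-- the maximal ideal as a subset of the function field -/
def Mx (R : Subalgebra ℂ L) [IsLocalRing R] : AddSubgroup L :=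
  (maximalIdeal R).toAddSubgroup.map (R.val : R →+ L)

lemma mem_Mx {z : L} : z ∈ Mx R ↔ ∃ r : R, r ∈ maximalIdeal R ∧ (r : L) = z := Iff.rfl

lemma coe_mem_Mx {r : R} : (r : L) ∈ Mx R ↔ r ∈ maximalIdeal R :=
  ⟨fun ⟨_, h, e⟩ => Subtype.ext e ▸ h, fun h => ⟨r, h, rfl⟩⟩

lemma Mx_sub {z : L} (h : z ∈ Mx R) : z ∈ R := by
  obtain ⟨r, -, rfl⟩ := h
  exact r.2

lemma Mx_mul {r z : L} (hr : r ∈ R) (h : z ∈ Mx R) : r * z ∈ Mx R := by
  obtain ⟨u, hu, rfl⟩ := h
  exact ⟨⟨r, hr⟩ * u, Ideal.mul_mem_left _ _ hu, rfl⟩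

lemma one_not_Mx : (1 : L) ∉ Mx R := fun h =>
  (maximalIdeal.isMaximal R).ne_top ((Ideal.eq_top_iff_one _).mpr (coe_mem_Mx.mp h))

lemma inv_of_not_Mx {r : L} (hr : r ∈ R) (h : r ∉ Mx R) : r ≠ 0 ∧ r⁻¹ ∈ R := by
  have : IsUnit (⟨r, hr⟩ : R) := of_not_not fun hu => h (coe_mem_Mx.mpr hu)
  obtain ⟨u, hu⟩ := this.exists_right_inv
  have e : r * u = 1 := congrArg Subtype.val hu
  exact ⟨left_ne_zero_of_mul_eq_one e, (eq_inv_of_mul_eq_one_right e) ▸ u.2⟩

lemma const_not_Mx {c : ℂ} (hc : c ≠ 0) : algebraMap ℂ L c ∉ Mx R := fun h => by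
  have := Mx_mul (R.algebraMap_mem c⁻¹) h
  rw [← map_mul, inv_mul_cancel₀ hc, map_one] at this
  exact one_not_Mx this

/-- local coordinates with the dual vector fields -/
structure Chart (R : Subalgebra ℂ L) [IsLocalRing R] (x y : L) (X Y : Derivation ℂ L L) : Prop where
  xM : x ∈ Mx R
  yM : y ∈ Mx R
  res : ∀ r ∈ R, ∃ c : ℂ, ∃ u ∈ R, ∃ v ∈ R, r = algebraMap ℂ L c + (u * x + v * y)
  Xm : ∀ r ∈ R, X r ∈ R
  Ym : ∀ r ∈ R, Y r ∈ R
  Xx : X x = 1
  Xy : X y = 0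
  Yx : Y x = 0
  Yy : Y y = 1
  ext : ∀ D : Derivation ℂ L L, D x = 0 → D y = 0 → D = 0

variable {x y : L} {X Y : Derivation ℂ L L}

lemma Chart.xR (C : Chart R x y X Y) : x ∈ R := Mx_sub C.xM
lemma Chart.yR (C : Chart R x y X Y) : y ∈ R := Mx_sub C.yM
lemma Chart.x0 (C : Chart R x y X Y) : x ≠ 0 := fun h => by simpa [h] using C.Xx
lemma Chart.y0 (C : Chart R x y X Y) : y ≠ 0 := fun h => by simpa [h] using C.Yy

lemma Chart.swap (C : Chart R x y X Y) : Chart R y x Y X :=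
  ⟨C.yM, C.xM, fun r hr => by
    obtain ⟨c, u, hu, v, hv, e⟩ := C.res r hr
    exact ⟨c, v, hv, u, hu, by rw [e, add_comm (u * x)]⟩,
    C.Ym, C.Xm, C.Yy, C.Yx, C.Xy, C.Xx, fun D a b => C.ext D b a⟩

lemma Chart.shear (C : Chart R x y X Y) (c : ℂ) (b : ℕ) :
    Chart R x (y - algebraMap ℂ L c * x ^ (b + 1))
      (X + (algebraMap ℂ L c * ((b + 1 : ℕ) * x ^ b)) • Y) Y := by
  have h1 : algebraMap ℂ L c * x ^ b ∈ R := R.mul_mem (R.algebraMap_mem c) (R.pow_mem C.xR b)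
  have hD : ∀ D : Derivation ℂ L L, D (y - algebraMap ℂ L c * x ^ (b + 1)) =
      D y - algebraMap ℂ L c * ((b + 1 : ℕ) * x ^ b) * D x := fun D => by
    rw [map_sub, D.leibniz, D.map_algebraMap, D.leibniz_pow]
    simp only [smul_eq_mul, nsmul_eq_mul, Nat.add_sub_cancel]
    ring
  refine ⟨C.xM, sub_mem C.yM ?_, fun r hr => ?_, fun r hr => ?_, C.Ym, ?_, ?_, C.Yx, ?_, ?_⟩
  · rw [pow_succ, ← mul_assoc]; exact Mx_mul h1 C.xM
  · obtain ⟨c', u, hu, v, hv, e⟩ := C.res r hr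
    exact ⟨c', _, R.add_mem hu (R.mul_mem hv h1), v, hv, by rw [e]; ring⟩
  · exact R.add_mem (C.Xm r hr) (R.mul_mem (R.mul_mem (R.algebraMap_mem c)
      (R.mul_mem (R.natCast_mem _) (R.pow_mem C.xR b))) (C.Ym r hr))
  · simp [C.Xx, C.Yx]
  · rw [hD]; simp [C.Xx, C.Yx, C.Xy, C.Yy]
  · rw [hD]; simp [C.Yx, C.Yy]
  · intro D a1 a2
    rw [hD, a1, mul_zero, sub_zero] at a2
    exact C.ext D a1 a2

lemma Chart.decomp (C : Chart R x y X Y) (D : Derivation ℂ L L) (f : L) :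
    D f = D x * X f + D y * Y f := by
  have := C.ext (D - (D x • X + D y • Y)) (by simp [C.Xx, C.Yx]) (by simp [C.Xy, C.Yy])
  simpa [sub_eq_zero] using DFunLike.congr_fun this f

lemma Chart.J_eq (C : Chart R x y X Y) (D1 D2 : Derivation ℂ L L) (f g : L) :
    J D1 D2 f g = J D1 D2 x y * J X Y f g := by
  simp only [J]
  rw [C.decomp D1 f, C.decomp D1 g, C.decomp D2 f, C.decomp D2 g]
  ring

lemma Chart.J_one (C : Chart R x y X Y) : J X Y x y = 1 := by simp [J, C.Xx, C.Xy, C.Yy]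

lemma Chart.J_mem (C : Chart R x y X Y) {f g : L} (hf : f ∈ R) (hg : g ∈ R) : J X Y f g ∈ R :=
  R.sub_mem (R.mul_mem (C.Xm f hf) (C.Ym g hg)) (R.mul_mem (C.Xm g hg) (C.Ym f hf))

/-- the monomial filtration -/
def Fil (R : Subalgebra ℂ L) (x y : L) (a b n : ℕ) : AddSubgroup L :=
  AddSubgroup.closure {z | ∃ r ∈ R, ∃ i j : ℕ, n ≤ a * i + b * j ∧ z = r * (x ^ i * y ^ j)}

variable {a b p q n m : ℕ}

omit [IsLocalRing R] in
lemma Fil_gen {r : L} (hr : r ∈ R) {i j : ℕ} (h : n ≤ a * i + b * j) :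
    r * (x ^ i * y ^ j) ∈ Fil R x y a b n := AddSubgroup.subset_closure ⟨r, hr, i, j, h, rfl⟩

omit [IsLocalRing R] in
lemma Fil_ind {P : AddSubgroup L}
    (h : ∀ r ∈ R, ∀ i j : ℕ, n ≤ a * i + b * j → r * (x ^ i * y ^ j) ∈ P) : Fil R x y a b n ≤ P :=
  (AddSubgroup.closure_le _).mpr fun _ ⟨r, hr, i, j, hij, e⟩ => e ▸ h r hr i j hij

omit [IsLocalRing R] in
lemma Fil_mono (h : m ≤ n) : Fil R x y a b n ≤ Fil R x y a b m :=
  Fil_ind fun _ hr _ _ hij => Fil_gen hr (h.trans hij)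

omit [IsLocalRing R] in
lemma Fil_zero {r : L} (hr : r ∈ R) : r ∈ Fil R x y a b 0 := by
  simpa using Fil_gen (x := x) (y := y) (a := a) (b := b) hr (i := 0) (j := 0) (Nat.zero_le _)

omit [IsLocalRing R] in
lemma Fil_mul {f g : L} (hf : f ∈ Fil R x y a b n) (hg : g ∈ Fil R x y a b m) :
    f * g ∈ Fil R x y a b (n + m) := by
  refine Fil_ind (P := (Fil R x y a b (n + m)).comap (AddMonoidHom.mulRight g)) ?_ hf
  intro r hr i j hij
  refine Fil_ind (P := (Fil R x y a b (n + m)).comap (AddMonoidHom.mulLeft (r * (x ^ i * y ^ j)))) ?_ hg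
  intro r' hr' i' j' hij'
  have e : r * (x ^ i * y ^ j) * (r' * (x ^ i' * y ^ j')) = r * r' * (x ^ (i + i') * y ^ (j + j')) := by
    ring
  change r * (x ^ i * y ^ j) * (r' * (x ^ i' * y ^ j')) ∈ Fil R x y a b (n + m)
  rw [e]
  exact Fil_gen (R.mul_mem hr hr') (by rw [mul_add, mul_add]; omega)

lemma Chart.Fil_sub (C : Chart R x y X Y) {f : L} (hf : f ∈ Fil R x y a b n) : f ∈ R :=
  Fil_ind (P := R.toSubring.toAddSubgroup)
    (fun _ hr _ _ _ => R.mul_mem hr (R.mul_mem (R.pow_mem C.xR _) (R.pow_mem C.yR _))) hf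

lemma Chart.Fil_one (C : Chart R x y X Y) : Fil R x y a b 1 ≤ Mx R := Fil_ind fun r hr i j h => by
  rcases i with _ | i
  · rcases j with _ | j
    · simp at h
    · rw [pow_succ y, ← mul_assoc, ← mul_assoc]
      exact Mx_mul (R.mul_mem (R.mul_mem hr (R.pow_mem C.xR _)) (R.pow_mem C.yR _)) C.yM
  · rw [pow_succ x, mul_right_comm, ← mul_assoc]
    exact Mx_mul (R.mul_mem hr (R.mul_mem (R.pow_mem C.xR _) (R.pow_mem C.yR _))) C.xM

omit [IsLocalRing R] in
lemma Fil_swap : Fil R x y a b n ≤ Fil R y x b a n := Fil_ind fun r hr i j h => by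
  rw [mul_comm (x ^ i)]
  exact Fil_gen hr (by omega)

lemma Chart.Fil_X (C : Chart R x y X Y) {f : L} (hf : f ∈ Fil R x y a b n) :
    X f ∈ Fil R x y a b (n - a) := by
  refine Fil_ind (P := (Fil R x y a b (n - a)).comap (X : L →ₗ[ℂ] L).toAddMonoidHom) ?_ hf
  intro r hr i j h
  change X (r * (x ^ i * y ^ j)) ∈ Fil R x y a b (n - a)
  have e : X (r * (x ^ i * y ^ j)) = X r * (x ^ i * y ^ j) + r * i * (x ^ (i - 1) * y ^ j) := by
    simp only [X.leibniz, X.leibniz_pow, C.Xx, C.Xy, smul_eq_mul, nsmul_eq_mul]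
    ring
  rw [e]
  refine add_mem (Fil_gen (C.Xm r hr) (by omega)) (Fil_gen (R.mul_mem hr (R.natCast_mem _)) ?_)
  rw [Nat.mul_sub_one]
  omega

lemma Chart.Fil_Xn (C : Chart R x y X Y) {f : L} (hf : f ∈ Fil R x y a b n) (i : ℕ) :
    ((X : L →ₗ[ℂ] L) ^ i) f ∈ Fil R x y a b (n - a * i) := by
  induction i with
  | zero => exact hf
  | succ i ih =>
    rw [pow_succ', Module.End.mul_apply, mul_add, mul_one, ← Nat.sub_sub]
    exact C.Fil_X ih

lemma Chart.krull [IsNoetherianRing R] (C : Chart R x y X Y) {f : L}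
    (hf : ∀ n, f ∈ Fil R x y a b n) : f = 0 := by
  have key : ∀ n, ∃ r : R, r ∈ maximalIdeal R ^ n ∧ (r : L) = f := by
    intro n
    refine Fil_ind (P := (maximalIdeal R ^ n).toAddSubgroup.map (R.val : R →+ L)) ?_
      (hf ((a + b) * n + 1))
    intro r hr i j h
    have hn : n ≤ i + j := by
      by_contra hc
      have h1 := Nat.mul_le_mul_left a (show i ≤ n by omega)
      have h2 := Nat.mul_le_mul_left b (show j ≤ n by omega)
      rw [add_mul] at h
      omega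
    refine ⟨⟨r, hr⟩ * ((⟨x, C.xR⟩ : R) ^ i * (⟨y, C.yR⟩ : R) ^ j), Ideal.mul_mem_left _ _
      (Ideal.pow_le_pow_right hn ?_), rfl⟩
    rw [pow_add]
    exact Ideal.mul_mem_mul (Ideal.pow_mem_pow (coe_mem_Mx.mp C.xM) i)
      (Ideal.pow_mem_pow (coe_mem_Mx.mp C.yM) j)
  obtain ⟨r, -, rfl⟩ := key 0
  have : r ∈ ⨅ n, maximalIdeal R ^ n := Ideal.mem_iInf.mpr fun n => by
    obtain ⟨r', h, e⟩ := key n
    exact Subtype.ext e ▸ h
  rw [Ideal.iInf_pow_eq_bot_of_isLocalRing _ (maximalIdeal.isMaximal R).ne_top] at this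
  rw [Ideal.mem_bot.mp this]
  rfl

/-- exponents of the Taylor expansion -/
def Nw (R : Subalgebra ℂ L) [IsLocalRing R] (X Y : Derivation ℂ L L) (f : L) : Set (ℕ × ℕ) :=
  {d | ((X : L →ₗ[ℂ] L) ^ d.1) (((Y : L →ₗ[ℂ] L) ^ d.2) f) ∉ Mx R}

/-- the least weight of a set of exponents -/
noncomputable def oN (a b : ℕ) (N : Set (ℕ × ℕ)) : ℕ := sInf ((fun d => a * d.1 + b * d.2) '' N)

lemma oN_le {N : Set (ℕ × ℕ)} {d : ℕ × ℕ} (h : d ∈ N) : oN a b N ≤ a * d.1 + b * d.2 :=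
  Nat.sInf_le ⟨d, h, rfl⟩

lemma oN_mem {N : Set (ℕ × ℕ)} (h : N.Nonempty) : ∃ d ∈ N, a * d.1 + b * d.2 = oN a b N :=
  Nat.sInf_mem (h.image _)

lemma Chart.Nw_ge (C : Chart R x y X Y) {f : L} (hf : f ∈ Fil R x y a b n) {d : ℕ × ℕ}
    (hd : d ∈ Nw R X Y f) : n ≤ a * d.1 + b * d.2 := by
  by_contra h
  exact hd (C.Fil_one (Fil_mono (by omega)
    (C.Fil_Xn (Fil_swap (C.swap.Fil_Xn (Fil_swap hf) d.2)) d.1)))

omit [IsLocalRing R] in
lemma iter_mono {D : Derivation ℂ L L} {u t : L} (hu : D u = 0) (ht : D t = 1) (k j : ℕ) :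
    ((D : L →ₗ[ℂ] L) ^ j) (u * t ^ k) = u * k.descFactorial j * t ^ (k - j) := by
  induction j with
  | zero => simp
  | succ j ih =>
    rw [pow_succ', Module.End.mul_apply, ih, Nat.descFactorial_succ]
    simp only [Derivation.coeFn_coe, D.leibniz, D.leibniz_pow, hu, ht, D.map_natCast, smul_eq_mul,
      nsmul_eq_mul, Nat.cast_mul, Nat.sub_sub]
    ring

omit [IsLocalRing R] in
lemma iter_mul {D : Derivation ℂ L L} {u : L} (hu : D u = 0) (hD : ∀ r ∈ R, D r ∈ R) {r : L}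
    (hr : r ∈ R) (j : ℕ) : ∃ r' ∈ R, ((D : L →ₗ[ℂ] L) ^ j) (u * r) = u * r' := by
  induction j with
  | zero => exact ⟨r, hr, rfl⟩
  | succ j ih =>
    obtain ⟨r', h, e⟩ := ih
    exact ⟨D r', hD _ h, by rw [pow_succ', Module.End.mul_apply, e]; simp [D.leibniz, hu]⟩

lemma Chart.Nw_y (C : Chart R x y X Y) {r : L} (hr : r ∈ R) {d : ℕ × ℕ} (hd : d ∈ Nw R X Y (y * r)) :
    0 < d.2 := by
  refine Nat.pos_of_ne_zero fun h => hd ?_
  obtain ⟨r', h', e⟩ := iter_mul C.Xy C.Xm hr d.1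
  rw [h, pow_zero, Module.End.one_apply, e, mul_comm]
  exact Mx_mul h' C.yM

lemma Chart.Nw_x (C : Chart R x y X Y) {r : L} (hr : r ∈ R) {d : ℕ × ℕ} (hd : d ∈ Nw R X Y (x * r)) :
    0 < d.1 := by
  refine Nat.pos_of_ne_zero fun h => hd ?_
  obtain ⟨r', h', e⟩ := iter_mul C.Yx C.Ym hr d.2
  rw [h, pow_zero, Module.End.one_apply, e, mul_comm]
  exact Mx_mul h' C.xM

/-- coprime positive weights -/
structure Wt (a b p q : ℕ) : Prop where
  a0 : 0 < a
  b0 : 0 < b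
  det : a * q = b * p + 1

lemma exists_wt (ha : 0 < a) (hb : 0 < b) (h : a.Coprime b) : ∃ p q, Wt a b p q := by
  have h1 := Nat.ModEq.pow_totient h
  have h2 : a * a ^ (b.totient - 1) = a ^ b.totient := by
    rw [← pow_succ', Nat.sub_add_cancel (Nat.totient_pos.mpr hb)]
  obtain ⟨p, hp⟩ := (Nat.modEq_iff_dvd' (Nat.pow_pos ha)).mp h1.symm
  exact ⟨p, a ^ (b.totient - 1), ha, hb, by have := Nat.pow_pos (n := b.totient) ha; omega⟩

/-- polynomials that come from forms of weight `n` -/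
def Win (a b p q n : ℕ) (φ : ℂ[X]) : Prop := ∀ E ∈ φ.support, p * n ≤ a * E ∧ b * E ≤ q * n

/-- the forms of weight `n` -/
noncomputable def fm (x y : L) (a b p q n : ℕ) (φ : ℂ[X]) : L :=
  (x ^ q / y ^ p) ^ n * aeval (y ^ a / x ^ b) φ

lemma Wt.win (W : Wt a b p q) {E : ℕ} (h1 : p * n ≤ a * E) (h2 : b * E ≤ q * n) :
    a * (q * n - b * E) + b * (a * E - p * n) = n ∧ p * (q * n - b * E) + q * (a * E - p * n) = E := by
  have := W.det
  zify [h1, h2] at this ⊢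
  exact ⟨by linear_combination (n : ℤ) * this, by linear_combination (E : ℤ) * this⟩

lemma Chart.mono_eq (C : Chart R x y X Y) (W : Wt a b p q) (i j : ℕ) :
    x ^ i * y ^ j = (x ^ q / y ^ p) ^ (a * i + b * j) * (y ^ a / x ^ b) ^ (p * i + q * j) := by
  have hx := C.x0
  have hy := C.y0
  have h1 : q * (a * i + b * j) = i + b * (p * i + q * j) := by
    have := W.det
    zify at this ⊢
    linear_combination (i : ℤ) * this
  have h2 : a * (p * i + q * j) = j + p * (a * i + b * j) := by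
    have := W.det
    zify at this ⊢
    linear_combination (j : ℤ) * this
  rw [div_pow, div_pow, ← pow_mul, ← pow_mul, ← pow_mul, ← pow_mul, h1, h2, pow_add, pow_add]
  field_simp

lemma Chart.fm_eq (C : Chart R x y X Y) (W : Wt a b p q) {φ : ℂ[X]} (h : Win a b p q n φ) :
    fm x y a b p q n φ = ∑ E ∈ φ.support,
      algebraMap ℂ L (φ.coeff E) * (x ^ (q * n - b * E) * y ^ (a * E - p * n)) := by
  rw [fm, aeval_def, eval₂_eq_sum, Polynomial.sum_def, Finset.mul_sum]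
  refine Finset.sum_congr rfl fun E hE => ?_
  obtain ⟨h1, h2⟩ := W.win (h E hE).1 (h E hE).2
  rw [C.mono_eq W, h1, h2]
  ring

lemma Chart.fm_mem (C : Chart R x y X Y) (W : Wt a b p q) {φ : ℂ[X]} (h : Win a b p q n φ) :
    fm x y a b p q n φ ∈ Fil R x y a b n := by
  rw [C.fm_eq W h]
  exact sum_mem fun E hE => Fil_gen (R.algebraMap_mem _) (W.win (h E hE).1 (h E hE).2).1.ge

lemma Chart.init (C : Chart R x y X Y) (W : Wt a b p q) {f : L} (hf : f ∈ Fil R x y a b n) :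
    ∃ φ, Win a b p q n φ ∧ f - fm x y a b p q n φ ∈ Fil R x y a b (n + 1) := by
  induction hf using AddSubgroup.closure_induction with
  | mem z hz =>
    obtain ⟨r, hr, i, j, hij, rfl⟩ := hz
    rcases hij.lt_or_eq with hlt | rfl
    · exact ⟨0, fun E hE => by simp at hE, by simpa [fm] using Fil_gen hr hlt⟩
    obtain ⟨c, u, hu, v, hv, rfl⟩ := C.res r hr
    refine ⟨monomial (p * i + q * j) c, fun E hE => ?_, ?_⟩
    · rw [Finset.mem_singleton.mp (support_monomial_subset _ _ hE)]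
      have := W.det
      constructor <;> nlinarith
    · have e : (algebraMap ℂ L c + (u * x + v * y)) * (x ^ i * y ^ j) -
          fm x y a b p q (a * i + b * j) (monomial (p * i + q * j) c) =
          u * (x ^ (i + 1) * y ^ j) + v * (x ^ i * y ^ (j + 1)) := by
        rw [fm, aeval_monomial, mul_left_comm ((x ^ q / y ^ p) ^ _), ← C.mono_eq W]; ring
      rw [e]
      have := W.a0
      have := W.b0
      exact add_mem (Fil_gen hu (by rw [mul_add]; omega)) (Fil_gen hv (by rw [mul_add]; omega))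
  | zero => exact ⟨0, fun E hE => by simp at hE, by simp [fm]⟩
  | add f g _ _ hf hg =>
    obtain ⟨φ, a1, a2⟩ := hf
    obtain ⟨ψ, b1, b2⟩ := hg
    refine ⟨φ + ψ, fun E hE => (Finset.mem_union.mp (support_add hE)).elim (a1 E) (b1 E), ?_⟩
    rw [fm, map_add, mul_add, add_sub_add_comm]
    exact add_mem a2 b2
  | neg f _ hf =>
    obtain ⟨φ, a1, a2⟩ := hf
    refine ⟨-φ, fun E hE => a1 E (by simpa using hE), ?_⟩
    rw [fm, map_neg, mul_neg, ← neg_sub', ← fm]
    exact neg_mem a2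

lemma Chart.Nw_init (C : Chart R x y X Y) (W : Wt a b p q) {f : L} {φ : ℂ[X]} (h : Win a b p q n φ)
    (hf : f - fm x y a b p q n φ ∈ Fil R x y a b (n + 1)) {E : ℕ} (hE : E ∈ φ.support) :
    (q * n - b * E, a * E - p * n) ∈ Nw R X Y f := by
  intro hM
  obtain ⟨h1, h2⟩ := W.win (h E hE).1 (h E hE).2
  have h3 : (q * n - b * E, a * E - p * n) ∉ Nw R X Y (f - fm x y a b p q n φ) := fun h' => by
    have := C.Nw_ge hf h'
    simp only at this
    omega
  have h4 := sub_mem hM (of_not_not h3)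
  rw [← map_sub, ← map_sub, sub_sub_cancel, C.fm_eq W h, map_sum, map_sum,
    Finset.sum_eq_single_of_mem E hE] at h4
  · dsimp only at h4
    rw [← mul_assoc, iter_mono (by simp [Y.leibniz, Y.leibniz_pow, C.Yx]) C.Yy, Nat.sub_self, pow_zero,
      mul_one, mul_right_comm, iter_mono (by simp [X.leibniz]) C.Xx, Nat.sub_self, pow_zero, mul_one,
      Nat.descFactorial_self, Nat.descFactorial_self, ← map_natCast (algebraMap ℂ L),
      ← map_natCast (algebraMap ℂ L), ← map_mul, ← map_mul] at h4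
    exact const_not_Mx (mul_ne_zero (mul_ne_zero (mem_support_iff.mp hE)
      (Nat.cast_ne_zero.mpr (Nat.factorial_ne_zero _))) (Nat.cast_ne_zero.mpr (Nat.factorial_ne_zero _))) h4
  · intro E' hE' hne
    obtain ⟨h5, h6⟩ := W.win (h E' hE').1 (h E' hE').2
    dsimp only
    rw [← mul_assoc, iter_mono (by simp [Y.leibniz, Y.leibniz_pow, C.Yx]) C.Yy, mul_right_comm _ (x ^ _),
      mul_right_comm _ (x ^ _), iter_mono (by simp [X.leibniz, X.leibniz_pow, C.Xy]) C.Xx]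
    by_cases c1 : a * E' - p * n < a * E - p * n
    · simp [Nat.descFactorial_eq_zero_iff_lt.mpr c1]
    by_cases c2 : q * n - b * E' < q * n - b * E
    · simp [Nat.descFactorial_eq_zero_iff_lt.mpr c2]
    have c3 := Nat.mul_le_mul_left b (not_lt.mp c1)
    have c4 := Nat.mul_le_mul_left a (not_lt.mp c2)
    have c5 := Nat.eq_of_mul_eq_mul_left W.b0 (show b * (a * E' - p * n) = b * (a * E - p * n) by omega)
    have c6 := Nat.eq_of_mul_eq_mul_left W.a0 (show a * (q * n - b * E') = a * (q * n - b * E) by omega)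
    rw [c5, c6, h2] at h6
    exact absurd h6.symm hne

lemma Chart.oN_eq (C : Chart R x y X Y) (W : Wt a b p q) {f : L} {φ : ℂ[X]} (h : Win a b p q n φ)
    (h0 : φ ≠ 0) (hf : f - fm x y a b p q n φ ∈ Fil R x y a b (n + 1)) :
    (Nw R X Y f).Nonempty ∧ oN a b (Nw R X Y f) = n := by
  obtain ⟨E, hE⟩ := support_nonempty.mpr h0
  have h1 := C.Nw_init W h hf hE
  refine ⟨⟨_, h1⟩, le_antisymm ((oN_le h1).trans (W.win (h E hE).1 (h E hE).2).1.le) ?_⟩
  obtain ⟨d, hd, e⟩ := oN_mem (a := a) (b := b) ⟨_, h1⟩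
  rw [← e]
  refine C.Nw_ge ?_ hd
  simpa using add_mem (Fil_mono (Nat.le_succ n) hf) (C.fm_mem W h)

variable [IsNoetherianRing R]

lemma Chart.spec (C : Chart R x y X Y) (W : Wt a b p q) {f : L} (hf : f ∈ R) (h0 : f ≠ 0) :
    (Nw R X Y f).Nonempty ∧ f ∈ Fil R x y a b (oN a b (Nw R X Y f)) ∧ ∃ φ, φ ≠ 0 ∧
      Win a b p q (oN a b (Nw R X Y f)) φ ∧
      f - fm x y a b p q (oN a b (Nw R X Y f)) φ ∈ Fil R x y a b (oN a b (Nw R X Y f) + 1) := by
  classical
  have h1 : ∃ n, f ∉ Fil R x y a b n := not_forall.mp fun h => h0 (C.krull h)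
  obtain ⟨n, hn⟩ := Nat.exists_eq_succ_of_ne_zero
    (show Nat.find h1 ≠ 0 from fun h => Nat.find_spec h1 (h ▸ Fil_zero hf))
  have h2 : f ∈ Fil R x y a b n := of_not_not (Nat.find_min h1 (by omega))
  obtain ⟨φ, a1, a2⟩ := C.init W h2
  have a3 : φ ≠ 0 := fun h => Nat.find_spec h1 (by rw [hn]; simpa [h, fm] using a2)
  obtain ⟨b1, b2⟩ := C.oN_eq W a1 a3 a2
  rw [b2]
  exact ⟨b1, h2, φ, a3, a1, a2⟩

lemma Chart.mem_Fil (C : Chart R x y X Y) (W : Wt a b p q) {f : L} (hf : f ∈ R)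
    (h : ∀ d ∈ Nw R X Y f, n ≤ a * d.1 + b * d.2) : f ∈ Fil R x y a b n := by
  by_cases h0 : f = 0
  · exact h0 ▸ zero_mem _
  obtain ⟨a1, a2, -⟩ := C.spec W hf h0
  obtain ⟨d, hd, e⟩ := oN_mem (a := a) (b := b) a1
  exact Fil_mono (e ▸ h d hd) a2

omit [IsNoetherianRing R] in
lemma Win.mul {φ ψ : ℂ[X]} (h : Win a b p q n φ) (h' : Win a b p q m ψ) :
    Win a b p q (n + m) (φ * ψ) := by
  intro E hE
  rw [mem_support_iff, coeff_mul] at hE
  obtain ⟨d, hd, e⟩ := Finset.exists_ne_zero_of_sum_ne_zero hE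
  have h1 := h d.1 (mem_support_iff.mpr (left_ne_zero_of_mul e))
  have h2 := h' d.2 (mem_support_iff.mpr (right_ne_zero_of_mul e))
  rw [← Finset.HasAntidiagonal.mem_antidiagonal.mp hd]
  simp only [mul_add]
  omega

lemma Chart.exists_mono (C : Chart R x y X Y) (W : Wt a b p q)
    (hR : ∀ z : L, ∃ f ∈ R, ∃ g ∈ R, g ≠ 0 ∧ z = f / g) :
    ∃ w : Val L, (∀ f ∈ R, f ≠ 0 → ord w f = oN a b (Nw R X Y f)) ∧ ord w x = a ∧ ord w y = b ∧
      RT w (y ^ a / x ^ b) := by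
  have hx := C.x0
  have hy := C.y0
  obtain ⟨w, hw⟩ := exists_val_frac R.toSubring hR (fun f => oN a b (Nw R X Y f))
    (fun f hf g hg hf0 hg0 => by
      obtain ⟨-, a1, φ, a2, a3, a4⟩ := C.spec W hf hf0
      obtain ⟨-, b1, ψ, b2, b3, b4⟩ := C.spec W hg hg0
      refine congrArg Nat.cast (C.oN_eq W (a3.mul b3) (mul_ne_zero a2 b2) ?_).2 |>.trans (Nat.cast_add _ _)
      have e : ∀ n m, f * g - fm x y a b p q (n + m) (φ * ψ) =
          (f - fm x y a b p q n φ) * g + fm x y a b p q n φ * (g - fm x y a b p q m ψ) := by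
        intro n m
        simp only [fm, map_mul]
        ring
      rw [e]
      exact add_mem (Fil_mono (by omega) (Fil_mul a4 b1))
        (Fil_mono (by omega) (Fil_mul (C.fm_mem W a3) b4)))
    (fun f hf g hg hf0 hg0 hfg => by
      obtain ⟨d, hd, e⟩ := oN_mem (a := a) (b := b) (C.spec W (R.add_mem hf hg) hfg).1
      have := C.Nw_ge (add_mem (Fil_mono (min_le_left _ _) (C.spec W hf hf0).2.1)
        (Fil_mono (min_le_right _ _) (C.spec W hg hg0).2.1)) hd
      omega)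
  have key : ∀ n φ, φ ≠ 0 → Win a b p q n φ →
      fm x y a b p q n φ ≠ 0 ∧ ord w (fm x y a b p q n φ) = n := by
    intro n φ h0 h
    obtain ⟨⟨d, hd⟩, e⟩ := C.oN_eq W (f := fm x y a b p q n φ) h h0 (by simp)
    have h1 : fm x y a b p q n φ ≠ 0 := fun h2 => hd (by simp [h2])
    exact ⟨h1, by rw [hw _ (C.Fil_sub (C.fm_mem W h)) h1, e]⟩
  have hmono : ∀ i j, ord w (x ^ i * y ^ j) = (a * i + b * j : ℕ) := by
    intro i j
    have := (key (a * i + b * j) (monomial (p * i + q * j) 1) (by simp) fun E hE => by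
      rw [Finset.mem_singleton.mp (support_monomial_subset _ _ hE)]
      have := W.det
      constructor <;> nlinarith).2
    rwa [fm, aeval_monomial, map_one, one_mul, ← C.mono_eq W] at this
  have h1 : ord w x = a := by simpa using hmono 1 0
  have h2 : ord w y = b := by simpa using hmono 0 1
  refine ⟨w, hw, h1, h2, fun φ h0 => ?_⟩
  obtain ⟨a1, a2⟩ := key (a * b * φ.natDegree) (Polynomial.X ^ (p * b * φ.natDegree) * φ)
    (mul_ne_zero (pow_ne_zero _ X_ne_zero) h0) fun E hE => by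
      rw [mem_support_iff, coeff_X_pow_mul'] at hE
      split_ifs at hE with c
      · have c2 := le_natDegree_of_ne_zero hE
        have c3 := Nat.mul_le_mul_left a c
        have c4 := Nat.mul_le_mul_left b (show E ≤ p * b * φ.natDegree + φ.natDegree by omega)
        have := W.det
        constructor
        · linarith
        · calc b * E ≤ b * ((b * p + 1) * φ.natDegree) := by linarith
            _ = _ := by rw [← this]; ring
      · exact absurd rfl hE
  rw [fm, map_mul, map_pow, aeval_X] at a1 a2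
  have a3 := right_ne_zero_of_mul a1
  refine ⟨right_ne_zero_of_mul a3, ?_⟩
  rw [ord_mul (left_ne_zero_of_mul a1) a3, ord_mul (left_ne_zero_of_mul a3) (right_ne_zero_of_mul a3),
    ord_pow, ord_pow, ord_div (pow_ne_zero _ hx) (pow_ne_zero _ hy),
    ord_div (pow_ne_zero _ hy) (pow_ne_zero _ hx), ord_pow, ord_pow, ord_pow, ord_pow, h1, h2] at a2
  have := W.det
  zify at this
  push_cast at a2
  linear_combination a2 - (a * b * φ.natDegree : ℤ) * this

end Pool.Agent.MP_c54dba_ag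

end

-- part MP_c54dba_ag.Core
section

/-! The main inequality: a divisorial valuation centred at a smooth point is dominated, on functions
and on vector fields, by a monomial valuation in suitable coordinates. -/

set_option autoImplicit false

namespace Pool.Agent.MP_c54dba_ag

open Polynomial IsLocalRing

variable {L : Type} [Field L] [Algebra ℂ L] {w : Val L}

lemma exists_res (ht : Triv w) {s : L} (hs : Ge w 0 s) (h : ¬ RT w s) :
    ∃ c : ℂ, Ge w 1 (s - algebraMap ℂ L c) := by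
  by_contra hc
  push Not at hc
  refine h fun p hp => ?_
  have h1 : p ∈ Submonoid.closure _ := IsAlgClosed.splits p
  induction h1 using Submonoid.closure_induction with
  | mem q hq =>
    rcases hq with ⟨a, rfl⟩ | ⟨a, rfl⟩
    · simpa using ht a (C_ne_zero.mp hp)
    · simpa using (hs.sub (ht.ge (-a))).un (hc (-a))
  | one => simpa using ht 1 one_ne_zero
  | mul p q _ _ h1 h2 =>
    rw [map_mul]
    exact (h1 (left_ne_zero_of_mul hp)).mul (h2 (right_ne_zero_of_mul hp))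

lemma mult_le {φ : ℂ[X]} (h : φ ≠ 0) {c : ℂ} (hc : c ≠ 0) :
    ∃ E1 ∈ φ.support, ∃ E2 ∈ φ.support, E1 + φ.rootMultiplicity c ≤ E2 := by
  refine ⟨_, natTrailingDegree_mem_support_of_nonzero h, _, natDegree_mem_support_of_nonzero h, ?_⟩
  have h1 : (X - C 0) ^ φ.natTrailingDegree ∣ φ := by
    rw [C_0, sub_zero]
    exact X_pow_dvd_iff.mpr fun d hd => coeff_eq_zero_of_lt_natTrailingDegree hd
  have h2 := natDegree_le_of_dvd ((isCoprime_X_sub_C_of_isUnit_sub
    (sub_ne_zero.mpr hc.symm).isUnit).pow.mul_dvd h1 (pow_rootMultiplicity_dvd φ c)) h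
  rwa [((monic_X_sub_C _).pow _).natDegree_mul ((monic_X_sub_C _).pow _), natDegree_pow, natDegree_pow,
    natDegree_X_sub_C, natDegree_X_sub_C, mul_one, mul_one] at h2

lemma deriv_root {φ : ℂ[X]} (h : φ ≠ 0) {c : ℂ} {m : ℕ} (hm : φ.rootMultiplicity c = m + 1) :
    derivative φ ≠ 0 ∧ (derivative φ).rootMultiplicity c = m := by
  have h1 : φ.IsRoot c := (rootMultiplicity_pos h).mp (by omega)
  refine ⟨fun h0 => h ?_, by rw [derivative_rootMultiplicity_of_root h1, hm, Nat.add_sub_cancel]⟩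
  rw [eq_C_of_natDegree_eq_zero (derivative_eq_zero.mp h0)] at h1 ⊢
  rw [IsRoot, eval_C] at h1
  rw [h1, C_0]

/-- `F` restricts to the polynomial `φ` on the divisor `e = 0` -/
def Form (T : Subalgebra ℂ L) (e s : L) (φ : ℂ[X]) (F : L) : Prop := ∃ t ∈ T, F = aeval s φ + e * t

lemma Form.comb {T : Subalgebra ℂ L} {e s F G : L} {φ ψ : ℂ[X]} (h : Form T e s φ F)
    (h' : Form T e s ψ G) (a b : ℕ) : Form T e s (a * φ - b * ψ) (a * F - b * G) := by
  obtain ⟨t, ht, rfl⟩ := h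
  obtain ⟨t', ht', rfl⟩ := h'
  refine ⟨a * t - b * t', T.sub_mem (T.mul_mem (T.natCast_mem _) ht) (T.mul_mem (T.natCast_mem _) ht'), ?_⟩
  simp only [map_sub, map_mul, map_natCast]
  ring

/-- data on the weighted blow-up near the centre of `w` -/
structure Bl (w : Val L) (T : Subalgebra ℂ L) (e s s' : L) (θ D : Derivation ℂ L L) (c : ℂ) (A : ℤ) :
    Prop where
  triv : Triv w
  T0 : ∀ t ∈ T, Ge w 0 t
  eT : e ∈ T
  sT : s ∈ T
  e1 : Ge w 1 e
  DT : ∀ t ∈ T, D t ∈ T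
  De : D e = 0
  Ds : D s = 1
  comm : ∀ g, D (θ g) = θ (D g)
  s1 : Ge w 1 (s - algebraMap ℂ L c)
  reg : Reg w (-A) D
  un : ord w s' = 0
  b1 : Ge w (1 - A) (θ s')
  b2 : D s' ≠ 0 ∧ ord w (D s') = -A

section Bl

variable {T : Subalgebra ℂ L} {e s s' F : L} {θ D : Derivation ℂ L L} {c : ℂ} {A : ℤ} {φ : ℂ[X]}

lemma Form.mem (h : Form T e s φ F) (he : e ∈ T) (hs : s ∈ T) : F ∈ T := by
  obtain ⟨t, ht, rfl⟩ := h
  refine T.add_mem ?_ (T.mul_mem he ht)
  rw [aeval_eq_sum_range]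
  exact T.sum_mem fun i _ => T.smul_mem (T.pow_mem hs i) _

lemma Bl.un_of (B : Bl w T e s s' θ D c A) (h : Form T e s φ F) (h0 : φ ≠ 0)
    (hm : φ.rootMultiplicity c = 0) : Un w F := by
  obtain ⟨t, ht, rfl⟩ := h
  obtain ⟨ψ, hψ⟩ := X_sub_C_dvd_sub_C_eval (p := φ) (a := c)
  have h1 : ¬ φ.IsRoot c := fun hr => by have := (rootMultiplicity_pos h0).mpr hr; omega
  rw [sub_eq_iff_eq_add'.mp hψ, map_add, map_mul, map_sub, aeval_X, aeval_C, aeval_C]
  exact ((B.triv _ h1).add (B.s1.mul (B.triv.aeval (B.T0 s B.sT) ψ))).add (B.e1.mul (B.T0 t ht))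

lemma Bl.deriv (B : Bl w T e s s' θ D c A) (h : Form T e s φ F) : Form T e s (derivative φ) (D F) := by
  obtain ⟨t, ht, rfl⟩ := h
  exact ⟨D t, B.DT t ht, by simp [D.leibniz, B.De, B.Ds]⟩

lemma Bl.fn (B : Bl w T e s s' θ D c A) (h : Form T e s φ F) (h0 : φ ≠ 0) :
    F ≠ 0 ∧ ord w F ≤ φ.rootMultiplicity c * A := by
  induction hm : φ.rootMultiplicity c generalizing φ F with
  | zero => exact ⟨(B.un_of h h0 hm).1, by simp [(B.un_of h h0 hm).2]⟩
  | succ m ih =>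
    obtain ⟨a1, a2⟩ := deriv_root h0 hm
    obtain ⟨b1, b2⟩ := ih (B.deriv h) a1 a2
    have := B.reg F b1
    refine ⟨fun h => b1 (by rw [h, map_zero]), ?_⟩
    push_cast
    linarith

lemma Bl.vf (B : Bl w T e s s' θ D c A) {β : L} (hβ : β ∈ T) (h : Form T e s φ F) (h0 : φ ≠ 0) {k : ℤ}
    (hk : Reg w k (β • θ + F • D)) : k + A ≤ φ.rootMultiplicity c * A := by
  induction hm : φ.rootMultiplicity c generalizing φ F β k with
  | zero =>
    have hF := B.un_of h h0 hm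
    have h1 : ord w (F * D s') = -A := by rw [ord_mul hF.1 B.b2.1, hF.2, B.b2.2, zero_add]
    obtain ⟨a1, a2⟩ := ord_add (w := w) (mul_ne_zero hF.1 B.b2.1) (g := β * θ s')
      (((B.T0 β hβ).mul0 B.b1).mono (by omega))
    have := hk s' (by rw [add_comm] at a1; exact a1)
    change ord w s' + k ≤ ord w (β * θ s' + F * D s') at this
    rw [add_comm (β * θ s'), a2, h1, B.un] at this
    push_cast
    omega
  | succ m ih =>
    obtain ⟨a1, a2⟩ := deriv_root h0 hm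
    have e1 : ⁅D, β • θ + F • D⁆ = D β • θ + D F • D := by
      ext g
      simp only [Derivation.commutator_apply, Derivation.coe_add, Derivation.coe_smul, Pi.add_apply,
        Pi.smul_apply, smul_eq_mul, map_add, D.leibniz, B.comm]
      ring
    have := ih (B.DT β hβ) (B.deriv h) a1 (e1 ▸ B.reg.comm hk) a2
    push_cast
    linarith

end Bl

/-- exact logarithmic order of a bivector -/
def IsLo2 (w : Val L) (D1 D2 : Derivation ℂ L L) (k : ℤ) : Prop :=
  Reg2 w k D1 D2 ∧ ∃ f g, J D1 D2 f g ≠ 0 ∧ ord w (J D1 D2 f g) = ord w f + ord w g + k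

variable {R : Subalgebra ℂ L} [IsLocalRing R] {x y : L} {X Y : Derivation ℂ L L} {a b p q n : ℕ}

/-- `w` is centred at the closed point -/
def Cen (w : Val L) (R : Subalgebra ℂ L) [IsLocalRing R] : Prop :=
  (∀ r ∈ R, Ge w 0 r) ∧ ∀ r ∈ Mx R, Ge w 1 r

omit [IsLocalRing R] in
lemma un_of_inv (h : ∀ r ∈ R, Ge w 0 r) {r : L} (h0 : r ≠ 0) (h1 : r ∈ R) (h2 : r⁻¹ ∈ R) : Un w r := by
  have a1 := h r h1 h0
  have a2 := h _ h2 (inv_ne_zero h0)
  rw [ord_inv] at a2
  exact ⟨h0, by omega⟩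

omit [IsLocalRing R] in
lemma triv_of (h : ∀ r ∈ R, Ge w 0 r) : Triv w := fun c hc =>
  un_of_inv h ((_root_.map_ne_zero _).mpr hc) (R.algebraMap_mem c) (map_inv₀ (algebraMap ℂ L) c ▸ R.algebraMap_mem _)

lemma logd {x y : L} (hx : x ≠ 0) (hy : y ≠ 0) (D : Derivation ℂ L L) (i j : ℕ) :
    D (x ^ i / y ^ j) = x ^ i / y ^ j * (i * (D x / x) - j * (D y / y)) := by
  have h : ∀ (z : L) (k : ℕ), z ≠ 0 → D (z ^ k) = z ^ k * (k * (D z / z)) := by
    intro z k hz
    induction k with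
    | zero => simp
    | succ k ih => rw [pow_succ, D.leibniz, ih]; simp only [smul_eq_mul]; push_cast; field_simp; ring
  rw [D.leibniz_div, h x i hx, h y j hy]
  simp only [smul_eq_mul]
  field_simp

lemma Chart.ext2 (C : Chart R x y X Y) (W : Wt a b p q) {D : Derivation ℂ L L}
    (h1 : D (x ^ q / y ^ p) = 0) (h2 : D (y ^ a / x ^ b) = 0) : D = 0 := by
  have key : ∀ i j, D (x ^ i * y ^ j) = 0 := fun i j => by
    rw [C.mono_eq W, D.leibniz, D.leibniz_pow, D.leibniz_pow, h1, h2]; simp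
  exact C.ext D (by simpa using key 1 0) (by simpa using key 0 1)

/-- the vector field `i x ∂x + j y ∂y` -/
noncomputable def eul (x y : L) (X Y : Derivation ℂ L L) (i j : ℕ) : Derivation ℂ L L :=
  (i * x) • X + (j * y) • Y

lemma Chart.eul_x (C : Chart R x y X Y) (i j : ℕ) : eul x y X Y i j x = i * x := by
  simp [eul, C.Xx, C.Yx]

lemma Chart.eul_y (C : Chart R x y X Y) (i j : ℕ) : eul x y X Y i j y = j * y := by
  simp [eul, C.Xy, C.Yy]

lemma Chart.eul_vals (C : Chart R x y X Y) (W : Wt a b p q) :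
    eul x y X Y a b (x ^ q / y ^ p) = x ^ q / y ^ p ∧ eul x y X Y a b (y ^ a / x ^ b) = 0 ∧
    eul x y X Y p q (x ^ q / y ^ p) = 0 ∧ eul x y X Y p q (y ^ a / x ^ b) = y ^ a / x ^ b ∧
    ∀ f g, J (eul x y X Y a b) (eul x y X Y p q) f g = x * y * J X Y f g := by
  have hx := C.x0
  have hy := C.y0
  have hd : (a : L) * q = b * p + 1 := by simpa using congrArg (Nat.cast : ℕ → L) W.det
  simp only [logd hx hy, logd hy hx, C.eul_x, C.eul_y, mul_div_cancel_right₀ _ hx,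
    mul_div_cancel_right₀ _ hy]
  refine ⟨by linear_combination x ^ q / y ^ p * hd, by ring, by ring,
    by linear_combination y ^ a / x ^ b * hd, fun f g => ?_⟩
  rw [C.J_eq, J, C.eul_x, C.eul_x, C.eul_y, C.eul_y]
  linear_combination x * y * J X Y f g * hd

lemma ord_es (C : Chart R x y X Y) (W : Wt a b p q) {g : ℤ} (hx : ord w x = a * g) (hy : ord w y = b * g) :
    ord w (x ^ q / y ^ p) = g ∧ ord w (y ^ a / x ^ b) = 0 := by
  have hd : (a : ℤ) * q = b * p + 1 := by exact_mod_cast W.det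
  rw [ord_div (pow_ne_zero _ C.x0) (pow_ne_zero _ C.y0), ord_div (pow_ne_zero _ C.y0) (pow_ne_zero _ C.x0),
    ord_pow, ord_pow, ord_pow, ord_pow, hx, hy]
  exact ⟨by linear_combination g * hd, by ring⟩

/-- the ring of the weighted blow-up -/
def blow (R : Subalgebra ℂ L) (e s : L) : Subalgebra ℂ L := Algebra.adjoin ℂ ((R : Set L) ∪ {e, s, s⁻¹})

omit [IsLocalRing R] in
lemma blow_mem (e s : L) : (∀ r ∈ R, r ∈ blow R e s) ∧ e ∈ blow R e s ∧ s ∈ blow R e s ∧ s⁻¹ ∈ blow R e s :=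
  ⟨fun _ hr => Algebra.subset_adjoin (Or.inl hr), Algebra.subset_adjoin (Or.inr (by simp)),
    Algebra.subset_adjoin (Or.inr (by simp)), Algebra.subset_adjoin (Or.inr (by simp))⟩

omit [IsLocalRing R] in
lemma blow_ge (h : ∀ r ∈ R, Ge w 0 r) {e s : L} (he : Ge w 0 e) (hs : Un w s) {t : L}
    (ht : t ∈ blow R e s) : Ge w 0 t := by
  induction ht using Algebra.adjoin_induction with
  | mem z hz =>
    rcases hz with hz | rfl | rfl | rfl
    exacts [h z hz, he, hs.ge, hs.inv.ge]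
  | algebraMap c => exact h _ (R.algebraMap_mem c)
  | add _ _ _ _ h1 h2 => exact h1.add h2
  | mul _ _ _ _ h1 h2 => exact h1.mul0 h2

lemma Chart.form (C : Chart R x y X Y) (W : Wt a b p q) {f : L} {φ : ℂ[X]}
    (hf : f - fm x y a b p q n φ ∈ Fil R x y a b (n + 1)) :
    Form (blow R (x ^ q / y ^ p) (y ^ a / x ^ b)) (x ^ q / y ^ p) (y ^ a / x ^ b) φ
      (f / (x ^ q / y ^ p) ^ n) := by
  obtain ⟨m1, m2, m3, -⟩ := blow_mem (R := R) (x ^ q / y ^ p) (y ^ a / x ^ b)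
  have he : x ^ q / y ^ p ≠ 0 := div_ne_zero (pow_ne_zero _ C.x0) (pow_ne_zero _ C.y0)
  obtain ⟨t, ht, e⟩ := Fil_ind (P := (blow R (x ^ q / y ^ p) (y ^ a / x ^ b)).toSubring.toAddSubgroup.map
    (AddMonoidHom.mulLeft ((x ^ q / y ^ p) ^ (n + 1)))) (fun r hr i j hij => by
      obtain ⟨k, hk⟩ := Nat.exists_eq_add_of_le hij
      refine ⟨r * ((x ^ q / y ^ p) ^ k * (y ^ a / x ^ b) ^ (p * i + q * j)),
        (blow R _ _).mul_mem (m1 r hr) (mul_mem (pow_mem m2 _) (pow_mem m3 _)), ?_⟩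
      rw [C.mono_eq W, hk, AddMonoidHom.coe_mulLeft]
      ring) hf
  refine ⟨t, ht, ?_⟩
  rw [AddMonoidHom.coe_mulLeft, fm, eq_sub_iff_add_eq] at e
  rw [div_eq_iff (pow_ne_zero _ he), ← e]
  ring

variable [Algebra.EssFiniteType ℂ L] (ht : Algebra.trdeg ℂ L = 2)
include ht

lemma Frame.lo2 {e s : L} (F : Frame w e s) {D1 D2 : Derivation ℂ L L} {k : ℤ} (h : IsLo2 w D1 D2 k) :
    J D1 D2 e s ≠ 0 ∧ ord w (J D1 D2 e s) = ord w e + k := by
  obtain ⟨f, g, h1, h2⟩ := h.2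
  obtain ⟨a1, a2⟩ := not_ge.mp fun h' : Ge w (ord w e + (k + 1)) (J D1 D2 e s) => by
    have := F.reg2 ht h' f g h1
    omega
  have := h.1 e s a1
  rw [F.rt.un.2] at this
  exact ⟨a1, by omega⟩

lemma Frame.isLo2 {e s : L} (F : Frame w e s) {D1 D2 : Derivation ℂ L L} (h : J D1 D2 e s ≠ 0) :
    IsLo2 w D1 D2 (ord w (J D1 D2 e s) - ord w e) :=
  ⟨F.reg2 ht fun _ => by omega, e, s, h, by rw [F.rt.un.2]; ring⟩

lemma Chart.exists_lo2 (C : Chart R x y X Y) {e s : L} (F : Frame w e s) : ∃ A, IsLo2 w X Y (-A) := by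
  refine ⟨-(ord w (J X Y e s) - ord w e), ?_⟩
  rw [neg_neg]
  refine F.isLo2 ht fun h => one_ne_zero (C.J_one.symm.trans ?_)
  refine Ge.of_all (w := w) fun n => ?_
  exact (F.reg2 ht (k := n - ord w x - ord w y) (h ▸ Ge.zero _) x y).mono (by omega)

lemma Chart.lo2_mono (C : Chart R x y X Y) (W : Wt a b p q) {g A : ℤ} (hg : 0 < g)
    (hx : ord w x = a * g) (hy : ord w y = b * g) (hs : RT w (y ^ a / x ^ b)) (hA : IsLo2 w X Y (-A)) :
    A = (a + b) * g := by
  obtain ⟨o1, o2⟩ := ord_es C W hx hy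
  have he : x ^ q / y ^ p ≠ 0 := div_ne_zero (pow_ne_zero _ C.x0) (pow_ne_zero _ C.y0)
  obtain ⟨a1, a2⟩ := Frame.lo2 ht ⟨he, o1 ▸ hg, hs⟩ hA
  obtain ⟨v1, v2, v3, v4, v5⟩ := C.eul_vals W
  have := congrArg (ord w) (v5 (x ^ q / y ^ p) (y ^ a / x ^ b))
  rw [J, v1, v2, v4, zero_mul, sub_zero, ord_mul he hs.un.1, ord_mul (mul_ne_zero C.x0 C.y0) a1,
    ord_mul C.x0 C.y0, a2, o1, o2, hx, hy] at this
  linarith

lemma Chart.bl (C : Chart R x y X Y) (W : Wt a b p q) (hc : Cen w R) {g A : ℤ} (hg : 0 < g)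
    (hx : ord w x = a * g) (hy : ord w y = b * g) {s' : L} (hs' : RT w s') (hA : IsLo2 w X Y (-A))
    {c : ℂ} (h1 : Ge w 1 (y ^ a / x ^ b - algebraMap ℂ L c)) :
    0 ≤ A - (a + b) * g ∧ Bl w (blow R (x ^ q / y ^ p) (y ^ a / x ^ b)) (x ^ q / y ^ p) (y ^ a / x ^ b) s'
      (eul x y X Y a b) ((y ^ a / x ^ b)⁻¹ • eul x y X Y p q) c (A - (a + b) * g) := by
  obtain ⟨o1, o2⟩ := ord_es C W hx hy
  obtain ⟨v1, v2, v3, v4, v5⟩ := C.eul_vals W
  obtain ⟨m1, m2, m3, m4⟩ := blow_mem (R := R) (x ^ q / y ^ p) (y ^ a / x ^ b)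
  have hext := fun D => C.ext2 W (D := D)
  have he : x ^ q / y ^ p ≠ 0 := div_ne_zero (pow_ne_zero _ C.x0) (pow_ne_zero _ C.y0)
  have hs : Un w (y ^ a / x ^ b) := ⟨div_ne_zero (pow_ne_zero _ C.y0) (pow_ne_zero _ C.x0), o2⟩
  have hη : ∀ r ∈ R, eul x y X Y p q r ∈ R := fun r hr =>
    R.add_mem (R.mul_mem (R.mul_mem (R.natCast_mem _) C.xR) (C.Xm r hr))
      (R.mul_mem (R.mul_mem (R.natCast_mem _) C.yR) (C.Ym r hr))
  generalize x ^ q / y ^ p = e at *
  generalize y ^ a / x ^ b = s at *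
  generalize eul x y X Y a b = θ at *
  generalize eul x y X Y p q = η at *
  have hxy : ord w (x * y) = (a + b) * g := by rw [ord_mul C.x0 C.y0, hx, hy]; ring
  have hJ : ∀ f h, Ge w (ord w f + ord w h - (A - (a + b) * g)) (J θ η f h) := fun f h => by
    rw [v5]; exact ((Ge.self _).mul (hA.1 f h)).mono (by omega)
  have hJe : ∀ h, J θ η e h = e * η h := fun h => by rw [J, v1, v3, mul_zero, sub_zero]
  have De : (s⁻¹ • η) e = 0 := by simp [v3]
  have Ds : (s⁻¹ • η) s = 1 := by simp [v4, hs.1]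
  have hreg : Reg w (-(A - (a + b) * g)) (s⁻¹ • η) := fun h =>
    hs.inv.ge.mul0 (Ge.of_mul he (hJe h ▸ (hJ e h).mono (by omega)))
  have Dσ : (s⁻¹ • η) (s - algebraMap ℂ L c) = 1 := by rw [map_sub, Ds]; simp
  have hσ := h1 fun h => by simp [h] at Dσ
  refine ⟨?_, triv_of hc.1, fun t => blow_ge hc.1 (fun _ => o1 ▸ hg.le) hs, m2, m3, fun _ => o1 ▸ hg,
    fun t ht => ?_, De, Ds, fun f => ?_, h1, hreg, hs'.un.2, ?_, ?_⟩
  · have := hreg (s - algebraMap ℂ L c) (Dσ ▸ one_ne_zero)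
    rw [Dσ, ord_one] at this
    omega
  · induction ht using Algebra.adjoin_induction with
    | mem z hz =>
      rcases hz with hz | rfl | rfl | rfl
      · exact mul_mem m4 (m1 _ (hη z hz))
      · exact De ▸ zero_mem _
      · exact Ds ▸ one_mem _
      · rw [Derivation.leibniz_inv, Ds, smul_eq_mul, mul_one]
        exact neg_mem (pow_mem m4 2)
    | algebraMap c => rw [Derivation.map_algebraMap]; exact zero_mem _
    | add _ _ _ _ h1 h2 => rw [map_add]; exact add_mem h1 h2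
    | mul _ _ a1 a2 h1 h2 => rw [Derivation.leibniz]; exact add_mem (mul_mem a1 h2) (mul_mem a2 h1)
  · have := hext ⁅s⁻¹ • η, θ⁆ (by rw [Derivation.commutator_apply, v1, De, map_zero, sub_zero])
      (by rw [Derivation.commutator_apply, v2, Ds, map_zero, θ.map_one_eq_zero, sub_zero])
    exact sub_eq_zero.mp ((Derivation.commutator_apply f).symm.trans (DFunLike.congr_fun this f))
  · have h2 := hJ s' (s - algebraMap ℂ L c)
    rw [J, map_sub, map_sub, v2, v4, θ.map_algebraMap, η.map_algebraMap, sub_zero, sub_zero, zero_mul,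
      sub_zero, mul_comm (θ s'), hs'.un.2] at h2
    refine hs.cancel (h2.mono ?_)
    omega
  · obtain ⟨a1, a2⟩ := Frame.lo2 ht ⟨he, o1 ▸ hg, hs'⟩ hA
    have a3 := (hJe s').symm.trans (v5 e s')
    have a4 : η s' ≠ 0 := fun h => mul_ne_zero (mul_ne_zero C.x0 C.y0) a1 (by rw [← a3, h, mul_zero])
    have a5 := congrArg (ord w) a3
    rw [ord_mul he a4, ord_mul (mul_ne_zero C.x0 C.y0) a1, hxy, a2] at a5
    refine ⟨mul_ne_zero hs.inv.1 a4, ?_⟩
    rw [Derivation.smul_apply, smul_eq_mul, ord_mul hs.inv.1 a4, hs.inv.2]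
    omega

variable [IsNoetherianRing R]

omit ht [Algebra.EssFiniteType ℂ L] in
lemma Chart.vf_init (C : Chart R x y X Y) (W : Wt a b p q) {v : Derivation ℂ L L} (h0 : v ≠ 0)
    (hx : v x ∈ R) (hy : v y ∈ R) (hn : n = oN a b (Nw R X Y (y * v x) ∪ Nw R X Y (x * v y))) :
    (Nw R X Y (y * v x) ∪ Nw R X Y (x * v y)).Nonempty ∧ ∃ φ ψ, ¬ (φ = 0 ∧ ψ = 0) ∧
      Win a b p q n φ ∧ y * v x - fm x y a b p q n φ ∈ Fil R x y a b (n + 1) ∧
      Win a b p q n ψ ∧ x * v y - fm x y a b p q n ψ ∈ Fil R x y a b (n + 1) := by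
  have m1 := R.mul_mem C.yR hx
  have m2 := R.mul_mem C.xR hy
  have hne : (Nw R X Y (y * v x) ∪ Nw R X Y (x * v y)).Nonempty := by
    by_cases h : v x = 0
    · exact (C.spec W m2 (mul_ne_zero C.x0 fun h' => h0 (C.ext v h h'))).1.inr
    · exact (C.spec W m1 (mul_ne_zero C.y0 h)).1.inl
  obtain ⟨φ, a1, a2⟩ := C.init W (n := n) (C.mem_Fil W m1 fun d hd => hn ▸ oN_le (Or.inl hd))
  obtain ⟨ψ, b1, b2⟩ := C.init W (n := n) (C.mem_Fil W m2 fun d hd => hn ▸ oN_le (Or.inr hd))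
  refine ⟨hne, φ, ψ, ?_, a1, a2, b1, b2⟩
  rintro ⟨rfl, rfl⟩
  obtain ⟨d, hd, e⟩ := oN_mem (a := a) (b := b) hne
  simp only [fm, map_zero, mul_zero, sub_zero] at a2 b2
  have := hd.elim (C.Nw_ge a2) (C.Nw_ge b2)
  omega

omit ht [Algebra.EssFiniteType ℂ L] [IsNoetherianRing R] in
lemma win_mult (W : Wt a b p q) {φ : ℂ[X]} (h0 : φ ≠ 0) {c : ℂ} (hc : c ≠ 0) {i : ℕ}
    (h : ∀ E ∈ φ.support, p * n + i ≤ a * E ∧ b * E + i ≤ q * n) :
    (a * b * φ.rootMultiplicity c + (a + b) * i : ℤ) ≤ n := by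
  obtain ⟨E1, h1, E2, h2, h3⟩ := mult_le h0 hc
  have a1 := Nat.mul_le_mul_left b (h E1 h1).1
  have a2 := Nat.mul_le_mul_left a (h E2 h2).2
  have a3 := Nat.mul_le_mul_left (a * b) h3
  have a4 := congrArg (· * n) W.det
  zify at a1 a2 a3 a4
  linarith

/-- domination by the monomial valuation with weights `a`, `b` -/
def Dom (w : Val L) (R : Subalgebra ℂ L) [IsLocalRing R] (x y : L) (X Y : Derivation ℂ L L) (a b : ℕ)
    (A : ℤ) : Prop :=
  (∀ f ∈ R, f ≠ 0 → (a + b) * ord w f ≤ oN a b (Nw R X Y f) * A) ∧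
    ∀ v : Derivation ℂ L L, v ≠ 0 → v x ∈ R → v y ∈ R → ∀ k, Reg w k v →
      (a + b) * (k + A) ≤ oN a b (Nw R X Y (y * v x) ∪ Nw R X Y (x * v y)) * A

lemma Chart.dom_mono (C : Chart R x y X Y) (W : Wt a b p q) (hc : Cen w R) {g A : ℤ} (hg : 0 < g)
    (hx : ord w x = a * g) (hy : ord w y = b * g) (hs : RT w (y ^ a / x ^ b)) (hA : IsLo2 w X Y (-A)) :
    Dom w R x y X Y a b A := by
  obtain ⟨o1, -⟩ := ord_es C W hx hy
  have he : x ^ q / y ^ p ≠ 0 := div_ne_zero (pow_ne_zero _ C.x0) (pow_ne_zero _ C.y0)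
  have key : ∀ f n φ, φ ≠ 0 → f - fm x y a b p q n φ ∈ Fil R x y a b (n + 1) →
      f ≠ 0 ∧ ord w f = n * g := by
    intro f n φ h0 hf
    obtain ⟨t, h1, h2⟩ := C.form W hf
    have h3 := (hs φ h0).add (Ge.mul (m := 1) (fun _ => o1 ▸ hg)
      (blow_ge hc.1 (fun _ => o1 ▸ hg.le) hs.un h1))
    rw [← h2] at h3
    have h4 : f ≠ 0 := (div_ne_zero_iff.mp h3.1).1
    have h5 := h3.2
    rw [ord_div h4 (pow_ne_zero _ he), ord_pow, o1] at h5
    exact ⟨h4, by omega⟩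
  rw [C.lo2_mono ht W hg hx hy hs hA]
  have hab : (0 : ℤ) ≤ a + b := by positivity
  refine ⟨fun f hf h0 => ?_, fun v h0 v1 v2 k hk => ?_⟩
  · obtain ⟨-, -, φ, a1, -, a3⟩ := C.spec W hf h0
    rw [(key _ _ _ a1 a3).2]
    exact le_of_eq (by ring)
  · obtain ⟨-, φ, ψ, a1, -, a2, -, a3⟩ := C.vf_init W h0 v1 v2 rfl
    generalize oN a b (Nw R X Y (y * v x) ∪ Nw R X Y (x * v y)) = n at *
    have : k + (a + b) * g ≤ n * g := by
      by_cases hφ : φ = 0
      · obtain ⟨b1, b2⟩ := key _ _ _ (fun h => a1 ⟨hφ, h⟩) a3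
        have := hk y (right_ne_zero_of_mul b1)
        rw [ord_mul C.x0 (right_ne_zero_of_mul b1)] at b2
        linarith
      · obtain ⟨b1, b2⟩ := key _ _ _ hφ a2
        have := hk x (right_ne_zero_of_mul b1)
        rw [ord_mul C.y0 (right_ne_zero_of_mul b1)] at b2
        linarith
    exact (mul_le_mul_of_nonneg_left this hab).trans (le_of_eq (by ring))

lemma Chart.dom_cusp (C : Chart R x y X Y) (W : Wt a b p q) (hc : Cen w R) {g A : ℤ} (hg : 0 < g)
    (hx : ord w x = a * g) (hy : ord w y = b * g) {s' : L} (hs' : RT w s') (hA : IsLo2 w X Y (-A))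
    {c : ℂ} (h1 : Ge w 1 (y ^ a / x ^ b - algebraMap ℂ L c)) (hab : a + b ≤ a * b) :
    Dom w R x y X Y a b A := by
  obtain ⟨hA', B⟩ := C.bl ht W hc hg hx hy hs' hA h1
  obtain ⟨o1, o2⟩ := ord_es C W hx hy
  have hx0 := C.x0
  have hy0 := C.y0
  have he : x ^ q / y ^ p ≠ 0 := div_ne_zero (pow_ne_zero _ hx0) (pow_ne_zero _ hy0)
  have hs : y ^ a / x ^ b ≠ 0 := div_ne_zero (pow_ne_zero _ hy0) (pow_ne_zero _ hx0)
  have hc0 : c ≠ 0 := fun h => Un.not_ge ⟨hs, o2⟩ (by simpa [h] using h1)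
  obtain ⟨A', rfl⟩ : ∃ A', A = A' + (a + b) * g := ⟨_, (sub_add_cancel _ _).symm⟩
  rw [add_sub_cancel_right] at hA' B
  have hab' : (a + b : ℤ) ≤ a * b := by exact_mod_cast hab
  have fin : ∀ (k : ℤ) (n m i : ℕ), (a * b * m + (a + b) * i : ℤ) ≤ n → k ≤ n * g + (m + i) * A' →
      (a + b) * k ≤ n * (A' + (a + b) * g) := by
    intro k n m i a1 a2
    have b1 := mul_le_mul_of_nonneg_left a2 (show (0 : ℤ) ≤ a + b by positivity)
    have b2 := mul_le_mul_of_nonneg_right a1 hA'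
    have b3 := mul_le_mul_of_nonneg_right hab' (mul_nonneg (Nat.cast_nonneg m) hA')
    linarith
  refine ⟨fun f hf h0 => ?_, fun v h0 v1 v2 k hk => ?_⟩
  · obtain ⟨-, -, φ, a1, a2, a3⟩ := C.spec W hf h0
    have b1 := (B.fn (C.form W a3) a1).2
    rw [ord_div h0 (pow_ne_zero _ he), ord_pow, o1] at b1
    exact fin _ _ _ 0 (win_mult W a1 hc0 (i := 0) a2) (by push_cast; linarith)
  · obtain ⟨-, φ, ψ, a1, a2, a3, a4, a5⟩ := C.vf_init W h0 v1 v2 rfl
    generalize oN a b (Nw R X Y (y * v x) ∪ Nw R X Y (x * v y)) = n at *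
    have f1 := (C.form W a3).comb (C.form W a5) q p
    have f2 := (C.form W a5).comb (C.form W a3) a b
    have hd : (a : L) * q = b * p + 1 := by simpa using congrArg (Nat.cast : ℕ → L) W.det
    have hd' : (a : ℂ[X]) * q = b * p + 1 := by exact_mod_cast W.det
    have hθ := (C.eul_vals W).1
    have w1 : ∀ E ∈ φ.support, p * n + 1 ≤ a * E := fun E hE =>
      Nat.lt_of_sub_pos (C.Nw_y v1 (C.Nw_init W a2 a3 hE))
    have w2 : ∀ E ∈ ψ.support, b * E + 1 ≤ q * n := fun E hE =>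
      Nat.lt_of_sub_pos (C.Nw_x v2 (C.Nw_init W a4 a5 hE))
    have tx := C.eul_x (x := x) (y := y)
    have ty := C.eul_y (x := x) (y := y)
    have hext := C.ext
    generalize x ^ q / y ^ p = e at *
    generalize y ^ a / x ^ b = s at *
    set β := q * (y * v x / e ^ n) - p * (x * v y / e ^ n) with hβ
    set α := a * (x * v y / e ^ n) - b * (y * v x / e ^ n) with hα
    have hu : β • eul x y X Y a b + (α * s) • s⁻¹ • eul x y X Y p q = (x * y / e ^ n) • v := by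
      refine sub_eq_zero.mp (hext _ ?_ ?_)
      · simp only [Derivation.coe_sub, Derivation.coe_add, Derivation.coe_smul, Pi.sub_apply,
          Pi.add_apply, Pi.smul_apply, smul_eq_mul, tx, hα, hβ]
        field_simp
        linear_combination x * y * v x * hd
      · simp only [Derivation.coe_sub, Derivation.coe_add, Derivation.coe_smul, Pi.sub_apply,
          Pi.add_apply, Pi.smul_apply, smul_eq_mul, ty, hα, hβ]
        field_simp
        linear_combination y * x * v y * hd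
    have hk' := hk.smul (Ge.self (x * y / e ^ n))
    rw [← hu, ord_div (mul_ne_zero hx0 hy0) (pow_ne_zero _ he), ord_mul hx0 hy0, ord_pow, hx, hy, o1] at hk'
    by_cases hα0 : (a : ℂ[X]) * ψ - b * φ = 0
    · have e1 : φ = Polynomial.C (a : ℂ) * (q * φ - p * ψ) := by
        rw [map_natCast]; linear_combination p * hα0 - φ * hd'
      have e2 : ψ = Polynomial.C (b : ℂ) * (q * φ - p * ψ) := by
        rw [map_natCast]; linear_combination q * hα0 - ψ * hd'
      generalize (q : ℂ[X]) * φ - p * ψ = χ at *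
      have hχ : χ ≠ 0 := fun h => a1 ⟨by rw [e1, h, mul_zero], by rw [e2, h, mul_zero]⟩
      obtain ⟨b1, b2⟩ := B.fn f1 hχ
      have b3 := hk' e
      simp only [Derivation.coe_add, Derivation.coe_smul, Pi.add_apply, Pi.smul_apply, smul_eq_mul] at b3
      have b4 := B.De
      rw [Derivation.smul_apply, smul_eq_mul] at b4
      rw [hθ, b4, mul_zero, add_zero] at b3
      have b5 := b3 (mul_ne_zero b1 he)
      rw [ord_mul b1 he] at b5
      refine fin _ _ _ 1 (win_mult W hχ hc0 (i := 1) fun E hE => ⟨w1 E ?_, w2 E ?_⟩) (by push_cast; linarith)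
      · rw [e1, mem_support_iff, coeff_C_mul]
        exact mul_ne_zero (Nat.cast_ne_zero.mpr W.a0.ne') (mem_support_iff.mp hE)
      · rw [e2, mem_support_iff, coeff_C_mul]
        exact mul_ne_zero (Nat.cast_ne_zero.mpr W.b0.ne') (mem_support_iff.mp hE)
    · have f3 : Form (blow R e s) e s (((a : ℂ[X]) * ψ - (b : ℂ[X]) * φ) * Polynomial.X) (α * s) := by
        obtain ⟨t, t1, t2⟩ := f2
        exact ⟨t * s, mul_mem t1 B.sT, by rw [t2, map_mul, aeval_X]; ring⟩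
      have hne := mul_ne_zero hα0 (X_ne_zero (R := ℂ))
      have b1 := B.vf (f1.mem B.eT B.sT) f3 hne hk'
      rw [rootMultiplicity_mul hne, rootMultiplicity_eq_zero (p := Polynomial.X) (by simpa using hc0),
        add_zero] at b1
      refine fin _ _ _ 0 (win_mult W hα0 hc0 (i := 0) fun E hE => ?_) (by push_cast; linarith)
      by_cases h2 : E ∈ φ.support
      · exact a2 E h2
      · refine a4 E (mem_support_iff.mpr fun h3 => mem_support_iff.mp hE ?_)
        rw [coeff_sub, ← map_natCast Polynomial.C, ← map_natCast Polynomial.C, coeff_C_mul, coeff_C_mul, h3,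
          notMem_support_iff.mp h2, mul_zero, mul_zero, sub_zero]

theorem Chart.core (C : Chart R x y X Y) (hc : Cen w R) {s' : L} (hs' : RT w s') :
    ∃ x y X Y a b p q A, Chart R x y X Y ∧ Wt a b p q ∧ IsLo2 w X Y (-A) ∧ 0 < A ∧
      Dom w R x y X Y a b A := by
  have hpos : ∀ {x y X Y}, Chart R x y X Y → 0 < ord w x := fun C => hc.2 _ C.xM C.x0
  have hbd : ∀ {x y X Y x' y' X' Y' A}, Chart R x y X Y → Chart R x' y' X' Y' → IsLo2 w X Y (-A) →
      ord w x' + ord w y' ≤ A := by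
    intro x y X Y x' y' X' Y' A C C' hA
    have h1 := (C.J_eq X' Y' x' y').symm.trans C'.J_one
    have h2 := un_of_inv hc.1 (right_ne_zero_of_mul_eq_one h1) (C.J_mem C'.xR C'.yR)
      (eq_inv_of_mul_eq_one_left h1 ▸ C'.J_mem C.xR C.yR)
    have := hA.1 x' y' h2.1
    rw [h2.2] at this
    omega
  obtain ⟨A0, hA0⟩ := C.exists_lo2 ht ⟨C.x0, hpos C, hs'⟩
  obtain ⟨_, ⟨x, y, X, Y, C, hle, rfl⟩, hmax⟩ := Int.exists_greatest_of_bdd
    (P := fun k => ∃ x y X Y, Chart R x y X Y ∧ ord w x ≤ ord w y ∧ k = ord w x + ord w y)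
    ⟨A0, fun k ⟨_, _, _, _, C', _, e⟩ => e ▸ hbd C C' hA0⟩
    ((le_total (ord w x) (ord w y)).elim (fun h => ⟨_, x, y, X, Y, C, h, rfl⟩)
      fun h => ⟨_, y, x, Y, X, C.swap, h, rfl⟩)
  obtain ⟨A, hA⟩ := C.exists_lo2 ht ⟨C.x0, hpos C, hs'⟩
  have px := hpos C
  have py := hpos C.swap
  obtain ⟨a, b, hab, ea, eb⟩ := Nat.exists_coprime (ord w x).toNat (ord w y).toNat
  generalize (ord w x).toNat.gcd (ord w y).toNat = g at ea eb
  have hx : ord w x = a * g := by rw [← Int.toNat_of_nonneg px.le, ea]; push_cast; rfl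
  have hy : ord w y = b * g := by rw [← Int.toNat_of_nonneg py.le, eb]; push_cast; rfl
  have ha : 0 < a := Nat.pos_of_ne_zero fun h => by simp [hx, h] at px
  have hb : 0 < b := Nat.pos_of_ne_zero fun h => by simp [hy, h] at py
  have hg : (0 : ℤ) < g := by exact_mod_cast Nat.pos_of_ne_zero fun h => by simp [hx, h] at px
  obtain ⟨p, q, W⟩ := exists_wt ha hb hab
  refine ⟨x, y, X, Y, a, b, p, q, A, C, W, hA, by have := hbd C C hA; omega, ?_⟩
  by_cases hs : RT w (y ^ a / x ^ b)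
  · exact C.dom_mono ht W hc hg hx hy hs hA
  obtain ⟨c, h1⟩ := exists_res (triv_of hc.1) (fun _ => (ord_es C W hx hy).2.ge) hs
  refine C.dom_cusp ht W hc hg hx hy hs' hA h1 ?_
  have hle' : a ≤ b := by
    rw [hx, hy] at hle
    exact_mod_cast le_of_mul_le_mul_right hle hg
  by_cases ha1 : a = 1
  · exfalso
    obtain ⟨b', rfl⟩ := Nat.exists_eq_succ_of_ne_zero hb.ne'
    have C' := C.shear c b'
    have h2 := ((Ge.self (x ^ (b' + 1))).mul h1)
    rw [ha1, pow_one, mul_sub, mul_div_cancel₀ _ (pow_ne_zero _ C.x0), mul_comm (x ^ _), ord_pow] at h2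
    have h3 := h2 C'.y0
    rw [ha1, Nat.cast_one, one_mul] at hx
    rw [hx] at h3
    have := hmax _ ⟨_, _, _, _, C', by rw [← hy] at h3; omega, rfl⟩
    rw [← hy] at h3
    omega
  · nlinarith [show 2 ≤ a by omega]

end Pool.Agent.MP_c54dba_ag

end

-- part MP_c54dba_ag.Prime
section

/-! The local ring of a chart is factorial; prime divisors through the point. -/

set_option autoImplicit false

namespace Pool.Agent.MP_c54dba_ag

open Polynomial IsLocalRing

variable {L : Type} [Field L] [Algebra ℂ L] {R : Subalgebra ℂ L} [IsLocalRing R] {x y : L}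
  {X Y : Derivation ℂ L L}

lemma Chart.max_eq (C : Chart R x y X Y) {r : R} (hr : r ∈ maximalIdeal R) :
    ∃ u v : R, r = u * ⟨x, C.xR⟩ + v * ⟨y, C.yR⟩ := by
  obtain ⟨c, u, hu, v, hv, e⟩ := C.res r r.2
  have : c = 0 := by_contra fun hc => const_not_Mx (R := R) hc (by
    rw [← sub_eq_iff_eq_add.mpr e]
    exact sub_mem (coe_mem_Mx.mpr hr) (add_mem (Mx_mul hu C.xM) (Mx_mul hv C.yM)))
  rw [this, map_zero, zero_add] at e
  exact ⟨⟨u, hu⟩, ⟨v, hv⟩, Subtype.ext e⟩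

lemma Chart.pow_not_dvd (C : Chart R x y X Y) (k : ℕ) : ¬ (⟨x, C.xR⟩ : R) ∣ ⟨y, C.yR⟩ ^ k := by
  rintro ⟨r, hr⟩
  have e : 1 * y ^ k = x * r := (one_mul _).trans (congrArg Subtype.val hr)
  obtain ⟨r', h1, h2⟩ := iter_mul C.Yx C.Ym r.2 k
  rw [← e, iter_mono Y.map_one_eq_zero C.Yy, Nat.sub_self, pow_zero, one_mul, mul_one,
    Nat.descFactorial_self, ← map_natCast (algebraMap ℂ L), mul_comm] at h2
  exact const_not_Mx (Nat.cast_ne_zero.mpr (Nat.factorial_ne_zero k)) (h2 ▸ Mx_mul h1 C.xM)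

variable [IsNoetherianRing R]

lemma Chart.principal (C : Chart R x y X Y) (q : Ideal R) [hq : q.IsPrime] (h0 : q ≠ ⊥)
    (hx : (⟨x, C.xR⟩ : R) ∉ q) : ∃ g, q = Ideal.span {g} := by
  classical
  have hxm := coe_mem_Mx.mp (show ((⟨x, C.xR⟩ : R) : L) ∈ Mx R from C.xM)
  have hym := coe_mem_Mx.mp (show ((⟨y, C.yR⟩ : R) : L) ∈ Mx R from C.yM)
  have hmax := fun r => C.max_eq (r := r)
  generalize (⟨x, C.xR⟩ : R) = ξ at *
  generalize (⟨y, C.yR⟩ : R) = η at *
  have nak : ∀ N : Ideal R, (∀ t ∈ q, ∃ z ∈ N, ∃ r, t = z + ξ * r ∧ z ∈ q) → q ≤ N := by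
    intro N h
    refine Submodule.le_of_le_smul_of_le_jacobson_bot (IsNoetherian.noetherian q)
      (maximalIdeal_le_jacobson ⊥) fun t ht => ?_
    obtain ⟨z, hz, r, rfl, hzq⟩ := h t ht
    exact Submodule.add_mem_sup hz (Submodule.smul_mem_smul hxm
      ((hq.mem_or_mem ((Submodule.add_mem_iff_right q hzq).mp ht)).resolve_left hx))
  have h1 : ∃ k, ¬ ∀ t ∈ q, ∃ r c, t = ξ * r + c * η ^ k := by
    by_contra hc
    push Not at hc
    refine h0 (le_bot_iff.mp (nak ⊥ fun t ht => ⟨0, zero_mem _, ?_⟩))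
    have hne : Ideal.span {ξ} ≠ ⊤ := ne_top_of_le_ne_top (maximalIdeal.isMaximal R).ne_top
      ((Ideal.span_singleton_le_iff_mem _).mpr hxm)
    have := Ideal.Quotient.nontrivial_iff.mpr hne
    have := IsLocalRing.of_surjective' _ (Ideal.Quotient.mk_surjective (I := Ideal.span {ξ}))
    have h2 : Ideal.Quotient.mk (Ideal.span {ξ}) t ∈
        ⨅ k, Ideal.span {Ideal.Quotient.mk (Ideal.span {ξ}) η} ^ k := Ideal.mem_iInf.mpr fun k => by
      obtain ⟨r, c, rfl⟩ := hc k t ht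
      rw [map_add, map_mul, Ideal.Quotient.eq_zero_iff_mem.mpr (Ideal.mem_span_singleton_self ξ), zero_mul,
        zero_add, map_mul, map_pow]
      exact Ideal.mul_mem_left _ _ (Ideal.pow_mem_pow (Ideal.mem_span_singleton_self _) k)
    rw [Ideal.iInf_pow_eq_bot_of_isLocalRing, Ideal.mem_bot, Ideal.Quotient.eq_zero_iff_mem,
      Ideal.mem_span_singleton] at h2
    · obtain ⟨r, hr⟩ := h2
      exact ⟨r, by rw [hr, zero_add], zero_mem _⟩
    · rw [Ne, Ideal.span_singleton_eq_top]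
      intro hu
      obtain ⟨v, hv⟩ := hu.exists_right_inv
      obtain ⟨v, rfl⟩ := Ideal.Quotient.mk_surjective v
      rw [← map_mul, ← map_one (Ideal.Quotient.mk _), Ideal.Quotient.eq] at hv
      have h3 := sub_mem (Ideal.mul_mem_right v _ hym) ((Ideal.span_singleton_le_iff_mem _).mpr hxm hv)
      rw [sub_sub_cancel] at h3
      exact (maximalIdeal.isMaximal R).ne_top ((Ideal.eq_top_iff_one _).mpr h3)
  obtain ⟨k, hk⟩ := Nat.exists_eq_succ_of_ne_zero
    (show Nat.find h1 ≠ 0 from fun h => Nat.find_spec h1 fun t _ => ⟨0, t, by rw [h]; simp⟩)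
  have h2 : ∀ t ∈ q, ∃ r c, t = ξ * r + c * η ^ k := of_not_not (Nat.find_min h1 (by omega))
  have h3 := Nat.find_spec h1
  rw [hk] at h3
  push Not at h3
  obtain ⟨g, hg, h4⟩ := h3
  obtain ⟨r, u, e⟩ := h2 g hg
  have hu : IsUnit u := by_contra fun hu => by
    obtain ⟨u1, u2, rfl⟩ := hmax u hu
    exact h4 (r + u1 * η ^ k) u2 (by rw [e, pow_succ]; ring)
  obtain ⟨v, hv⟩ := hu.exists_left_inv
  refine ⟨g, le_antisymm (nak _ fun t ht => ?_) ((Ideal.span_singleton_le_iff_mem _).mpr hg)⟩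
  obtain ⟨r', c, e'⟩ := h2 t ht
  refine ⟨c * v * g, Ideal.mul_mem_left _ _ (Ideal.mem_span_singleton_self g), r' - c * v * r, ?_,
    Ideal.mul_mem_left _ _ hg⟩
  rw [e', e]
  linear_combination (-c * η ^ k) * hv

lemma Chart.ufd (C : Chart R x y X Y) : UniqueFactorizationMonoid R := by
  have key : ∀ (q : Ideal R) (g : R), q.IsPrime → q ≠ ⊥ → q = Ideal.span {g} → g ∈ q ∧ Prime g := by
    rintro _ g h1 h2 rfl
    exact ⟨Ideal.mem_span_singleton_self g,
      (Ideal.span_singleton_prime fun h => h2 (by rw [h, Ideal.span_singleton_zero])).mp h1⟩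
  refine UniqueFactorizationMonoid.iff_exists_prime_mem_of_isPrime.mpr fun I h0 hI => ?_
  by_cases hx : (⟨x, C.xR⟩ : R) ∈ I
  swap
  · obtain ⟨g, hg⟩ := C.principal I h0 hx
    exact ⟨g, key I g hI h0 hg⟩
  by_cases hy : (⟨y, C.yR⟩ : R) ∈ I
  swap
  · obtain ⟨g, hg⟩ := C.swap.principal I h0 hy
    exact ⟨g, key I g hI h0 hg⟩
  have h1 : (⟨y, C.yR⟩ : R) ∉ (Ideal.span {(⟨x, C.xR⟩ : R)}).radical := fun ⟨k, hk⟩ =>
    C.pow_not_dvd k (Ideal.mem_span_singleton.mp hk)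
  rw [Ideal.radical_eq_sInf, Ideal.mem_sInf] at h1
  push Not at h1
  obtain ⟨q, ⟨a1, a2⟩, a3⟩ := h1
  have a4 : q ≠ ⊥ := fun h => C.x0 (congrArg Subtype.val
    (show (⟨x, C.xR⟩ : R) = 0 from Ideal.mem_bot.mp (h ▸ a1 (Ideal.mem_span_singleton_self _))))
  obtain ⟨g, hg⟩ := C.swap.principal q a4 a3
  obtain ⟨b1, b2⟩ := key q g a2 a4 hg
  obtain ⟨u, v, e⟩ := C.max_eq (le_maximalIdeal a2.ne_top b1)
  exact ⟨g, e ▸ add_mem (I.mul_mem_left _ hx) (I.mul_mem_left _ hy), b2⟩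

/-- `Q` is the order along the prime divisor `γ = 0` -/
structure PD (R : Subalgebra ℂ L) [IsLocalRing R] (γ : L) (Q : Val L) : Prop where
  mem : γ ∈ R
  ne : γ ≠ 0
  ge : ∀ r ∈ R, Ge Q 0 r
  one : ord Q γ = 1
  dvd : ∀ r ∈ R, Ge Q 1 r → ∃ r' ∈ R, r = γ * r'
  small : ∃ z ∈ Mx R, Un Q z

lemma Chart.exists_pd (C : Chart R x y X Y) (hR : ∀ z : L, ∃ f ∈ R, ∃ g ∈ R, g ≠ 0 ∧ z = f / g)
    {g : R} (hg : Prime g) : ∃ Q, PD R g Q := by
  classical
  have hne : ∀ {f : L} {hf : f ∈ R}, f ≠ 0 → (⟨f, hf⟩ : R) ≠ 0 := fun h h' => h (congrArg Subtype.val h')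
  obtain ⟨Q, hQ⟩ := exists_val_frac R.toSubring hR
    (fun f => if h : f ∈ R then multiplicity g ⟨f, h⟩ else 0)
    (fun f (hf : f ∈ R) f' (hf' : f' ∈ R) h0 h0' => by
      rw [dif_pos hf, dif_pos hf', dif_pos (R.mul_mem hf hf')]
      exact_mod_cast multiplicity_mul hg (a := ⟨f, hf⟩) (b := ⟨f', hf'⟩)
        (.of_prime_left hg (mul_ne_zero (hne h0) (hne h0'))))
    (fun f (hf : f ∈ R) f' (hf' : f' ∈ R) h0 h0' h1 => by
      rw [dif_pos hf, dif_pos hf', dif_pos (R.add_mem hf hf')]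
      exact_mod_cast (FiniteMultiplicity.of_prime_left hg (hne h1)).le_multiplicity_of_pow_dvd
        (dvd_add (c := (⟨f', hf'⟩ : R)) (b := ⟨f, hf⟩) (pow_dvd_of_le_multiplicity (min_le_left _ _))
          (pow_dvd_of_le_multiplicity (min_le_right _ _))))
  have hQ' : ∀ f (hf : f ∈ R), f ≠ 0 → ord Q f = multiplicity g ⟨f, hf⟩ := fun f hf h0 => by
    rw [hQ f hf h0, dif_pos hf]
  have g0 : (g : L) ≠ 0 := fun h => hg.ne_zero (Subtype.ext h)
  refine ⟨Q, g.2, g0, fun r hr h0 => by rw [hQ' r hr h0]; positivity,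
    by rw [hQ' _ g.2 g0]; exact_mod_cast multiplicity_self, fun r hr h => ?_, ?_⟩
  · by_cases h0 : r = 0
    · exact ⟨0, zero_mem _, by rw [h0, mul_zero]⟩
    have := h h0
    rw [hQ' r hr h0] at this
    obtain ⟨r', e⟩ := dvd_of_multiplicity_pos (a := g) (b := ⟨r, hr⟩) (by omega)
    exact ⟨r', r'.2, congrArg Subtype.val e⟩
  · by_cases hx : g ∣ ⟨x, C.xR⟩
    · refine ⟨y, C.yM, C.y0, ?_⟩
      rw [hQ' y C.yR C.y0, Nat.cast_eq_zero, multiplicity_eq_zero]
      rintro ⟨v, hv⟩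
      obtain ⟨u, hu⟩ := hx
      have e1 : x = g * u := congrArg Subtype.val hu
      have e2 : y = g * v := congrArg Subtype.val hv
      have gM : (g : L) ∈ Mx R := coe_mem_Mx.mpr hg.not_isUnit
      have : J X Y x y = g * J X Y u v * g + (v * J X Y u g + u * J X Y g v) * g := by
        rw [e1, e2]
        simp only [J, Derivation.leibniz, smul_eq_mul]
        ring
      rw [C.J_one] at this
      exact one_not_Mx (this ▸ add_mem (Mx_mul (mul_mem g.2 (C.J_mem u.2 v.2)) gM)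
        (Mx_mul (add_mem (mul_mem v.2 (C.J_mem u.2 g.2)) (mul_mem u.2 (C.J_mem g.2 v.2))) gM))
    · exact ⟨x, C.xM, C.x0, by rw [hQ' x C.xR C.x0, Nat.cast_eq_zero, multiplicity_eq_zero]; exact hx⟩

theorem Chart.exists_primes (C : Chart R x y X Y) (hR : ∀ z : L, ∃ f ∈ R, ∃ g ∈ R, g ≠ 0 ∧ z = f / g) :
    ∃ (ι : Type) (γ : ι → L) (Q : ι → Val L), (∀ i, PD R (γ i) (Q i)) ∧
      (∀ i j, i ≠ j → ord (Q i) (γ j) = 0) ∧
      (∀ f, f ≠ 0 → {i | ord (Q i) f ≠ 0}.Finite ∧ ∀ w : Val L, (∀ r ∈ R, Ge w 0 r) →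
        ord w f = ∑ᶠ i, ord (Q i) f * ord w (γ i)) ∧
      ∀ f g : L, ¬ (f = 0 ∧ g = 0) → ∃ h, h ≠ 0 ∧ f / h ∈ R ∧ g / h ∈ R ∧
        ∀ i, Un (Q i) (f / h) ∨ Un (Q i) (g / h) := by
  have := C.ufd
  choose γ hγ eγ using fun i : {I : Ideal R // ∃ g, Prime g ∧ I = Ideal.span {g}} => i.2
  choose Q hQ using fun i => C.exists_pd hR (hγ i)
  have hdvd : ∀ i (r : R), Ge (Q i) 1 r → γ i ∣ r := fun i r h => by
    obtain ⟨r', h1, h2⟩ := (hQ i).dvd r r.2 h
    exact ⟨⟨r', h1⟩, Subtype.ext h2⟩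
  have hij : ∀ i j, i ≠ j → ord (Q i) (γ j) = 0 := fun i j hne =>
    (((hQ i).ge _ (γ j).2).un fun h => hne (Subtype.ext (by
      rw [eγ, eγ, Ideal.span_singleton_eq_span_singleton]
      exact (hγ i).associated_of_dvd (hγ j) (hdvd i _ h)))).2
  refine ⟨_, fun i => γ i, Q, hQ, hij, ?_, ?_⟩
  · let P : L → Prop := fun f => {i | ord (Q i) f ≠ 0}.Finite ∧ ∀ w : Val L, (∀ r ∈ R, Ge w 0 r) →
      ord w f = ∑ᶠ i, ord (Q i) f * ord w (γ i)
    have hmul : ∀ f g, f ≠ 0 → g ≠ 0 → P f → P g → P (f * g) := by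
      rintro f g hf hg ⟨a1, a2⟩ ⟨b1, b2⟩
      refine ⟨(a1.union b1).subset fun i hi => by_contra fun h => hi ?_, fun w hw => ?_⟩
      · simp only [Set.mem_union, Set.mem_ofPred_eq, not_or, not_not] at h
        rw [ord_mul hf hg, h.1, h.2, add_zero]
      · rw [ord_mul hf hg, a2 w hw, b2 w hw, ← finsum_add_distrib
          (a1.subset fun i hi => left_ne_zero_of_mul hi) (b1.subset fun i hi => left_ne_zero_of_mul hi)]
        exact finsum_congr fun i => by rw [ord_mul hf hg, add_mul]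
    have hinv : ∀ f, P f → P f⁻¹ := by
      rintro f ⟨a1, a2⟩
      refine ⟨by simpa [ord_inv] using a1, fun w hw => ?_⟩
      simp only [ord_inv, neg_mul, finsum_neg_distrib, a2 w hw]
    have hun : ∀ u : R, IsUnit u → P u := by
      intro u hu
      obtain ⟨a1, a2⟩ := inv_of_not_Mx u.2 fun h => (coe_mem_Mx.mp h) hu
      have := fun i => (un_of_inv (hQ i).ge a1 u.2 a2).2
      exact ⟨by simp [this], fun w hw => by simp [this, (un_of_inv hw a1 u.2 a2).2]⟩
    have hR' : ∀ r : R, (r : L) ≠ 0 → P r := by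
      intro r
      induction r using UniqueFactorizationMonoid.induction_on_prime with
      | h₁ => exact fun h => absurd rfl h
      | h₂ u hu => exact fun _ => hun u hu
      | h₃ a p ha hp ih =>
        intro h
        refine hmul _ _ (left_ne_zero_of_mul h) (right_ne_zero_of_mul h) ?_ (ih (right_ne_zero_of_mul h))
        let j : {I : Ideal R // ∃ g, Prime g ∧ I = Ideal.span {g}} := ⟨_, p, hp, rfl⟩
        obtain ⟨u, hu⟩ := (Ideal.span_singleton_eq_span_singleton.mp (eγ j)).symm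
        rw [← hu]
        refine hmul _ _ (hQ j).ne (fun h => u.ne_zero (Subtype.ext h)) ⟨?_, fun w _ => ?_⟩ (hun _ u.isUnit)
        · exact (Set.finite_singleton j).subset fun i hi => by_contra fun h => hi (hij i j h)
        · rw [finsum_eq_single _ j fun i hi => by rw [hij i j hi, zero_mul], (hQ j).one, one_mul]
    intro f hf
    obtain ⟨a, ha, b, hb, h0, rfl⟩ := hR f
    rw [div_eq_mul_inv] at hf ⊢
    exact hmul _ _ (left_ne_zero_of_mul hf) (right_ne_zero_of_mul hf)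
      (hR' ⟨a, ha⟩ (left_ne_zero_of_mul hf)) (hinv _ (hR' ⟨b, hb⟩ h0))
  · intro f g hfg
    obtain ⟨a, ha, b, hb, b0, rfl⟩ := hR f
    obtain ⟨c, hc, d, hd, d0, rfl⟩ := hR g
    obtain ⟨u, v, k, h1, h2, h3⟩ : ∃ u v k : R, IsRelPrime u v ∧ k * u = ⟨a, ha⟩ * ⟨d, hd⟩ ∧
        k * v = ⟨c, hc⟩ * ⟨b, hb⟩ := by
      by_cases h : a = 0
      · exact UniqueFactorizationMonoid.exists_reduced_factors' _ _ fun h' => hfg ⟨by rw [h, zero_div], by
          have h'' : c * b = 0 := congrArg Subtype.val h'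
          rw [(mul_eq_zero.mp h'').resolve_right b0, zero_div]⟩
      · exact UniqueFactorizationMonoid.exists_reduced_factors _
          (fun h' => mul_ne_zero h d0 (congrArg Subtype.val h')) _
    have e2 : (k : L) * u = a * d := congrArg Subtype.val h2
    have e3 : (k : L) * v = c * b := congrArg Subtype.val h3
    have k0 : (k : L) ≠ 0 := fun h => by
      rw [h, zero_mul, eq_comm, mul_eq_zero] at e2 e3
      exact hfg ⟨by rw [e2.resolve_right d0, zero_div], by rw [e3.resolve_right b0, zero_div]⟩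
    have e4 : a / b / (k / (b * d)) = u := by field_simp; exact e2.symm
    have e5 : c / d / (k / (b * d)) = v := by field_simp; exact e3.symm
    refine ⟨k / (b * d), div_ne_zero k0 (mul_ne_zero b0 d0), e4 ▸ u.2, e5 ▸ v.2, fun i => ?_⟩
    rw [e4, e5]
    by_contra hc
    rw [not_or] at hc
    exact (hγ i).not_isUnit (h1 (hdvd i u (of_not_not fun h => hc.1 (((hQ i).ge _ u.2).un h)))
      (hdvd i v (of_not_not fun h => hc.2 (((hQ i).ge _ v.2).un h))))

end Pool.Agent.MP_c54dba_ag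

end
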